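import Pool.Agent.H2.UST.Stm

/-!
# The rows of the base position are full in all contexts of the local U-step

The rows are full in the contexts of a finite rational mesh of velocity scales at which the
velocity is not frozen; the context at the next mesh point determines the given context.
-/

set_option autoImplicit false

namespace Pool.UST.Wf2

open Finset Real
open Pool.Agent.H49.Ent Pool.Agent.H32.Dense Pool.STK Pool.KA Pool.KSAT Pool.K2S Pool.PB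
  Pool.S6U Pool.S6C

/-- One of the steps of a mesh has its share of the growth. -/
theorem pick {act : ℚ → ℝ} {q₁ q₂ ca e : ℝ} (hG : ActG act q₁ q₂ ca e) {N m k₀ : ℕ}
    (h1 : q₁ ≤ (((k₀ : ℕ) : ℚ) / N : ℚ)) (h2 : ((((k₀ + m : ℕ) : ℚ) / N : ℚ) : ℝ) ≤ q₂)
    {c₀ : ℝ} (hc : m * c₀ < ca * (m / N) - e) :
    ∃ i < m, c₀ ≤ act (((k₀ + i + 1 : ℕ) : ℚ) / N) - act (((k₀ + i : ℕ) : ℚ) / N) := by
  by_contra hcon
  have hcon' : ∀ i < m, act (((k₀ + i + 1 : ℕ) : ℚ) / N) - act (((k₀ + i : ℕ) : ℚ) / N) < c₀ := by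
    intro i hi
    by_contra h
    exact hcon ⟨i, hi, not_lt.1 h⟩
  have tel : ∀ j ≤ m, act (((k₀ + j : ℕ) : ℚ) / N) - act (((k₀ : ℕ) : ℚ) / N) ≤ j * c₀ := by
    intro j
    induction j with
    | zero => intro _; simp
    | succ j ih =>
      intro hj
      have i1 := ih (by omega)
      have i2 := hcon' j (by omega)
      have e : k₀ + (j + 1) = k₀ + j + 1 := by ring
      rw [e]
      have e2 : ((j + 1 : ℕ) : ℝ) * c₀ = j * c₀ + c₀ := by push_cast; ring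
      rw [e2]
      linarith only [i1, i2]
  have hle : ((k₀ : ℕ) : ℚ) / N ≤ ((k₀ + m : ℕ) : ℚ) / N := by
    refine div_le_div_of_nonneg_right ?_ (Nat.cast_nonneg _)
    exact_mod_cast Nat.le_add_right _ _
  have g1 := hG (((k₀ : ℕ) : ℚ) / N) (((k₀ + m : ℕ) : ℚ) / N) h1 hle h2
  have g2 := tel m le_rfl
  have e3 : ca * ((((k₀ + m : ℕ) : ℚ) / N : ℚ) - ((((k₀ : ℕ) : ℚ) / N : ℚ) : ℝ)) =
      ca * (m / N) := by
    push_cast
    ring
  rw [e3] at g1
  linarith only [hc, g1, g2]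

/-- A frozen velocity. -/
theorem frz_le {J : ℕ} {F : Fam 3 J} {A : F.Ω → Prop}
    (hA : IsLaw (Pool.Agent.H49.Ent.cond F.p A True)) {i₀ : Fin 3} {q x K : ℕ}
    (hK : K ≤ q + x + 1) (hF : FrzG F i₀ q (q + x) A) :
    CH (Pool.Agent.H49.Ent.cond F.p A True) (fun ω => F.D K ω i₀) (Fam.pt F) ≤
      CH (Pool.Agent.H49.Ent.cond F.p A True) (fun ω => F.D q ω i₀) (Fam.pt F) +
        Real.log 13 := by
  obtain ⟨φ, hφ⟩ := hF
  have hpos : ∀ ω, 0 < Pool.Agent.H49.Ent.cond F.p A True ω → A ω := fun ω hω =>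
    of_eq_true ((cond_pos_iff F.isLaw.nonneg A True ω).1 hω).2
  have h1 := CH_le_add hA.nonneg (fun ω => F.D K ω i₀) (fun ω => F.D q ω i₀) (Fam.pt F)
  have h2 := CH_near_int hA (fun ω => F.D K ω i₀) (fun ω => (F.D q ω i₀, Fam.pt F ω))
    (fun u => 2 ^ K * φ (u.2, u.1)) (c := 3) (by
      intro ω hω
      have a1 := hφ ω (hpos ω hω)
      have a2 : |F.d ω i₀ - φ (Fam.pt F ω, F.D q ω i₀)| ≤ 1 / 2 ^ (q + x) := a1
      have a3 : |(2 : ℝ) ^ K * (F.d ω i₀ - φ (Fam.pt F ω, F.D q ω i₀))| ≤ 2 := by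
        rw [abs_mul, abs_of_pos (by positivity : (0 : ℝ) < 2 ^ K)]
        have a4 : (2 : ℝ) ^ K ≤ 2 ^ (q + x) * 2 := by
          rw [← pow_succ]
          exact pow_le_pow_right₀ (by norm_num) hK
        calc (2 : ℝ) ^ K * |F.d ω i₀ - φ (Fam.pt F ω, F.D q ω i₀)| ≤
            (2 ^ (q + x) * 2) * (1 / 2 ^ (q + x)) :=
              mul_le_mul a4 a2 (abs_nonneg _) (by positivity)
          _ = 2 := by field_simp
      have a5 := Int.floor_le ((2 : ℝ) ^ K * F.d ω i₀)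
      have a6 := Int.lt_floor_add_one ((2 : ℝ) ^ K * F.d ω i₀)
      have a7 : (F.D K ω i₀ : ℝ) = (⌊(2 : ℝ) ^ K * F.d ω i₀⌋ : ℝ) := rfl
      rw [a7]
      rw [mul_sub] at a3
      have a8 := abs_le.1 a3
      rw [abs_le]
      constructor <;> linarith [a8.1, a8.2])
  refine h1.trans ?_
  have e : Real.log (2 * (2 * 3) + 1) = Real.log 13 := by norm_num
  rw [e] at h2
  linarith only [h2]

/-- The context is helper8's context. -/
theorem ctx_eq {J : ℕ} {F : Fam 3 J} (σ : Fin 3 → Fin 3) (w v κ q : ℕ) (a s t : F.Ω → ℝ) :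
    F.ctx σ w (w + q) (w + v + q) (w + q + κ) a s t =
      F.blb w (cv v κ q) (frm σ a s t) := by
  have e : vpr w (w + q) (w + v + q) (w + q + κ) = cv v κ q := by
    funext i
    fin_cases i
    · show w + q - w = q
      omega
    · show w + v + q - w = v + q
      omega
    · show w + q + κ - w = κ + q
      omega
  unfold Fam.ctx
  rw [e]
  rfl

/-- The finer context determines the coarser one. -/
theorem blb_coarse {J : ℕ} {F : Fam 3 J} {w v κ q q' : ℕ} {M : F.Ω → Fin 3 → Fin 3 → ℝ}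
    (h : q ≤ q') {ω ω' : F.Ω} (he : F.blb w (cv v κ q') M ω = F.blb w (cv v κ q') M ω') :
    F.blb w (cv v κ q) M ω = F.blb w (cv v κ q) M ω' := by
  have e1 : ∀ r, F.lbr w (cv v κ 0) M r = F.blb w (cv v κ r) M := by
    intro r
    unfold Fam.lbr
    rw [Pool.S6U.cv_add, Nat.zero_add]
  rw [← e1] at he ⊢
  exact lbr_mono h he

/-- The digits of the base position in the box. -/
theorem pos_le {J : ℕ} {F : Fam 3 J} {p : F.Ω → ℝ} (hp : IsLaw p) {σ : Fin 3 → Fin 3}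
    {w v κ q X' : ℕ} (hw : w ≤ J) {a s t : F.Ω → ℝ} :
    CH p (fun ω => ⌊(2 : ℝ) ^ (w + q + X') * F.x ω (σ 0)⌋)
      (fun ω => (F.blb w (cv v κ q) (frm σ a s t) ω, F.T ω)) ≤
    CH p (Uni.dg X' (fun ω => F.mx w (cv v κ q) (frm σ a s t) ω 0))
      (fun ω => (F.blb w (cv v κ q) (frm σ a s t) ω, F.T ω)) + Real.log 5 := by
  have h1 := CH_le_add hp.nonneg (fun ω => ⌊(2 : ℝ) ^ (w + q + X') * F.x ω (σ 0)⌋)
    (Uni.dg X' (fun ω => F.mx w (cv v κ q) (frm σ a s t) ω 0))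
    (fun ω => (F.blb w (cv v κ q) (frm σ a s t) ω, F.T ω))
  have h2 := CH_int hp (fun ω => ⌊(2 : ℝ) ^ (w + q + X') * F.x ω (σ 0)⌋)
    (fun ω => (Uni.dg X' (fun ω => F.mx w (cv v κ q) (frm σ a s t) ω 0) ω,
      (F.blb w (cv v κ q) (frm σ a s t) ω, F.T ω))) (c := 2) (by
      intro ω ω' _ _ e
      have e1 := Prod.ext_iff.mp e
      have e2 := Prod.ext_iff.mp e1.2
      have hb : F.blb w (cv v κ q) (frm σ a s t) ω = F.blb w (cv v κ q) (frm σ a s t) ω' := e2.1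
      have hT : F.T ω = F.T ω' := e2.2
      have hd : ⌊(2 : ℝ) ^ X' * F.mx w (cv v κ q) (frm σ a s t) ω 0⌋ =
          ⌊(2 : ℝ) ^ X' * F.mx w (cv v κ q) (frm σ a s t) ω' 0⌋ := e1.1
      have p1 := Box.pos_eq F hw (cv v κ q) (frm σ a s t) ω 0
      have p2 := Box.pos_eq F hw (cv v κ q) (frm σ a s t) ω' 0
      rw [Pool.S6U.mco0] at p1 p2
      have m1 := congrFun (Box.mkn_det (F := F) hb hT) 0
      have n1 := Plk.abs_sub_lt_of_floor hd
      refine (Plk.floor_sub_lt (c := 1) ?_).trans (by norm_num)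
      have e4 : (2 : ℝ) ^ (w + q + X') * F.x ω (σ 0) - 2 ^ (w + q + X') * F.x ω' (σ 0) =
          2 ^ X' * F.mx w (cv v κ q) (frm σ a s t) ω 0 -
            2 ^ X' * F.mx w (cv v κ q) (frm σ a s t) ω' 0 := by
        have c0 : cv v κ q 0 + w = w + q := by
          show q + w = w + q
          omega
        rw [c0] at p1 p2
        rw [pow_add (2 : ℝ) (w + q)]
        have f1 : (2 : ℝ) ^ (w + q) * 2 ^ X' * F.x ω (σ 0) =
            2 ^ X' * (2 ^ (w + q) * F.x ω (σ 0)) := by ring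
        have f2 : (2 : ℝ) ^ (w + q) * 2 ^ X' * F.x ω' (σ 0) =
            2 ^ X' * (2 ^ (w + q) * F.x ω' (σ 0)) := by ring
        rw [f1, f2, p1, p2, m1]
        ring
      rw [e4]
      exact n1)
  have e : Real.log (2 * 2 + 1) = Real.log 5 := by norm_num
  rw [e] at h2
  exact h1.trans (by linarith only [h2])

/-- **(WF2)** -/
theorem _root_.Pool.UST.wf2_thm : WF2Stmt := by
  classical
  intro S a₁ R i₀ act hSt hact q₁ q₂ ca η hq₁ hq hq₂ hca hη hG B C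
  obtain ⟨γ, hγ, hwfe⟩ := ctx_wfe_clp (η := η / 4) (by positivity)
  obtain ⟨u, hu⟩ : ∃ u, u = Real.log 2 := ⟨_, rfl⟩
  have hu0 : 0 < u := by rw [hu]; exact Real.log_pos (by norm_num)
  have hu1 : u < 1 := by
    rw [hu]
    have := Real.log_two_lt_d9
    linarith only [hq₁, hq, hq₂, hη, this]
  -- the mesh
  obtain ⟨N, hN⟩ := exists_nat_ge (max (1 / γ) (16 / η))
  have hN1 : 1 / γ ≤ N := (le_max_left _ _).trans hN
  have hN2 : 16 / η ≤ N := (le_max_right _ _).trans hN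
  have hN0 : (0 : ℝ) < N := lt_of_lt_of_le (by positivity) hN1
  obtain ⟨m, hm⟩ : ∃ m, m = ⌊η * N / 4⌋₊ := ⟨_, rfl⟩
  have hmu : (m : ℝ) ≤ η * N / 4 := by rw [hm]; exact Nat.floor_le (by positivity)
  have hml : η * N / 4 - 1 < m := by
    rw [hm]
    have := Nat.lt_floor_add_one (η * N / 4)
    linarith only [this]
  have hηN : 16 ≤ η * N := by
    rw [div_le_iff₀ hη] at hN2
    linarith only [hN2]
  have hm3 : 3 * (η * N) / 16 ≤ m := by linarith only [hml, hηN]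
  have hm0 : (0 : ℝ) < m := by linarith only [hq₁, hq, hq₂, hη, hml, hηN]
  obtain ⟨c₀, hc₀⟩ : ∃ c₀, c₀ = ca * η / (16 * m) := ⟨_, rfl⟩
  have hc₀0 : 0 < c₀ := by rw [hc₀]; positivity
  have hc : m * c₀ < ca * (m / N) - ca * η / 16 := by
    have e1 : m * c₀ = ca * η / 16 := by rw [hc₀]; field_simp
    have e2 : 3 * η / 16 ≤ (m : ℝ) / N := by
      rw [le_div_iff₀ hN0]
      linarith only [hml, hηN]
    have e3 := mul_le_mul_of_nonneg_left e2 hca.le
    have e4 : 0 < ca * η := by positivity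
    rw [e1]
    linarith only [e3, e4]
  -- the statements at the mesh
  obtain ⟨xJ, hxJ⟩ : ∃ xJ : ℕ → ℕ, xJ = fun J : ℕ => ⌊((J : ℕ) : ℝ) / N⌋₊ := ⟨_, rfl⟩
  have hx : ∀ J : ℕ, (xJ J : ℝ) ≤ γ * J := by
    intro J
    have e1 : (xJ J : ℝ) ≤ (J : ℝ) / N := by rw [hxJ]; exact Nat.floor_le (by positivity)
    have e2 : 1 / (N : ℝ) ≤ γ := by
      rw [div_le_iff₀ hγ] at hN1
      rw [div_le_iff₀ hN0]
      linarith only [hN1]
    have e3 : (J : ℝ) / N = 1 / N * J := by ring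
    rw [e3] at e1
    exact e1.trans (mul_le_mul_of_nonneg_right e2 (Nat.cast_nonneg _))
  obtain ⟨qJ, hqJ⟩ : ∃ qJ : ℕ → ℕ → ℕ, qJ = fun k J : ℕ =>
      ⌊((((k : ℕ) : ℚ) / N : ℚ) : ℝ) * ((J : ℕ) : ℝ)⌋₊ :=
    ⟨_, rfl⟩
  have W := Clp.finite (S := S) (ι := (Fin 3 → Fin 3) × Fin (N + 1)) (fun i =>
    hwfe S a₁ R hSt (qJ i.2) xJ hx i.1 (B + 3) (C + 3) (Real.log 13))
  have T := Clp.finite (S := S) (ι := Fin (N + 1)) (fun i =>
    hact (((i : ℕ) : ℚ) / N) (by positivity) (by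
      have h1 : ((i : ℕ) : ℚ) ≤ N := by exact_mod_cast Nat.lt_succ_iff.1 i.2
      have h2 : (0 : ℚ) < N := by exact_mod_cast hN0
      rw [div_le_one h2]
      exact h1) (c₀ * u / 4) (by positivity))
  have P : Clp S (fun J F A => 0 < Pe F.p A) := Clp.of one_pos 0 (fun J _ F A hS => by
    obtain ⟨c1, c2, c3, c4⟩ := hSt 1 J F A hS
    exact lt_of_lt_of_le (Real.exp_pos _) c4)
  obtain ⟨J₂, hJ₂⟩ := exists_nat_ge (max 1 (max (4 * Real.log 13 / (c₀ * u))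
    (max (4 * Real.log 5 / η) (8 / η))))
  refine Clp.mono (J₂ := J₂) ((W.and T).and P) ?_
  rintro J hJ F A ⟨⟨hW, hT⟩, hpA⟩ σ wl wa wb vp kap Hu HN al nu kk b a s t hU hσ w q X' h1 h2 h3
    h4 hR h5
  have hJr : (J₂ : ℝ) ≤ J := by exact_mod_cast hJ
  have j1 : (1 : ℝ) ≤ J := (le_max_left _ _).trans (hJ₂.trans hJr)
  have j2 : 4 * Real.log 13 / (c₀ * u) ≤ J :=
    ((le_max_left _ _).trans (le_max_right _ _)).trans (hJ₂.trans hJr)
  have j3 : 4 * Real.log 5 / η ≤ J := (((le_max_left _ _).trans (le_max_right _ _)).trans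
    (le_max_right _ _)).trans (hJ₂.trans hJr)
  have j4 : 8 / η ≤ J := (((le_max_right _ _).trans (le_max_right _ _)).trans
    (le_max_right _ _)).trans (hJ₂.trans hJr)
  have hJ0 : (0 : ℝ) < J := by linarith only [hq₁, hq, hq₂, hη, j1]
  rw [div_le_iff₀ (by positivity)] at j2 j3 j4
  have hl := isLaw_cond F.isLaw hpA
  have h0 := hl.nonneg
  have hηJ : 0 < η * J := by positivity
  rw [← hu]
  by_cases hX : (X' : ℝ) ≤ η / 2 * J
  · refine le_trans ?_ (CH_nonneg h0 _ _)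
    have : (X' : ℝ) * u ≤ X' * 1 := mul_le_mul_of_nonneg_left hu1.le (Nat.cast_nonneg _)
    linarith only [hq₁, hq, hq₂, hη, j4, hX, this]
  have hX := not_le.1 hX
  -- the mesh point
  obtain ⟨k₀, hk₀⟩ : ∃ k₀, k₀ = ⌈(q : ℝ) * N / J⌉₊ := ⟨_, rfl⟩
  have u1 : (q : ℝ) * N / J ≤ k₀ := by rw [hk₀]; exact Nat.le_ceil _
  have u2 : (k₀ : ℝ) < q * N / J + 1 := by rw [hk₀]; exact Nat.ceil_lt_add_one (by positivity)
  have hq2J : (q : ℝ) ≤ q₂ * J := by
    have : (0 : ℝ) ≤ X' := Nat.cast_nonneg _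
    linarith
  have v1 : (q : ℝ) / J ≤ (k₀ : ℝ) / N := by
    rw [div_le_div_iff₀ hJ0 hN0]
    rw [div_le_iff₀ hJ0] at u1
    exact u1
  have v2 : (k₀ : ℝ) / N ≤ q / J + 1 / N := by
    rw [div_add_div _ _ (ne_of_gt hJ0) (ne_of_gt hN0), div_le_div_iff₀ hN0 (by positivity)]
    have e1 : (q : ℝ) * N / J * J = q * N := by field_simp
    have e2 := mul_le_mul_of_nonneg_right u2.le hJ0.le
    have e3 : (q * N / J + 1) * (J : ℝ) = q * N + J := by rw [add_mul, e1]; ring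
    rw [e3] at e2
    have e4 := mul_le_mul_of_nonneg_right e2 hN0.le
    calc (k₀ : ℝ) * (J * N) = k₀ * J * N := by ring
      _ ≤ (q * N + J) * N := e4
      _ = (q * N + J * 1) * N := by ring
  have v3 : (1 : ℝ) / N ≤ η / 16 := by
    rw [div_le_div_iff₀ hN0 (by norm_num)]
    linarith only [hηN]
  have v4 : (m : ℝ) / N ≤ η / 4 := by
    rw [div_le_div_iff₀ hN0 (by norm_num)]
    linarith only [hmu]
  have v5 : (q : ℝ) / J ≤ q₂ := by rw [div_le_iff₀ hJ0]; exact hq2J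
  have v6 : q₁ ≤ (q : ℝ) / J := by rw [le_div_iff₀ hJ0]; exact h3
  have cst1 : ((((k₀ : ℕ) : ℚ) / N : ℚ) : ℝ) = (k₀ : ℝ) / N := by push_cast; ring
  have cst2 : ((((k₀ + m : ℕ) : ℚ) / N : ℚ) : ℝ) = (k₀ : ℝ) / N + m / N := by push_cast; ring
  obtain ⟨i, hi, hci⟩ := pick hG (N := N) (m := m) (k₀ := k₀) (by rw [cst1]; linarith only [v1, v6])
    (by rw [cst2]; linarith only [hη, v2, v3, v4, v5]) hc
  have hkN : k₀ + i + 1 ≤ N := by
    have e1 : (k₀ : ℝ) / N + m / N ≤ 1 := by linarith only [hq₂, hη, v2, v3, v4, v5]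
    rw [← add_div, div_le_one hN0] at e1
    have e2 : k₀ + m ≤ N := by exact_mod_cast e1
    omega
  have cst3 : ((((k₀ + i : ℕ) : ℚ) / N : ℚ) : ℝ) = ((k₀ : ℝ) + i) / N := by push_cast; ring
  have cst4 : ((((k₀ + i + 1 : ℕ) : ℚ) / N : ℚ) : ℝ) = ((k₀ : ℝ) + i) / N + 1 / N := by
    push_cast
    ring
  obtain ⟨qb, hqb⟩ : ∃ qb, qb = qJ (k₀ + i) J := ⟨_, rfl⟩
  have hqb' : qb = ⌊((k₀ : ℝ) + i) / N * J⌋₊ := by rw [hqb, hqJ]; simp only; rw [cst3]
  have hi' : ((i : ℕ) : ℝ) / N ≤ m / N :=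
    div_le_div_of_nonneg_right (by exact_mod_cast hi.le) hN0.le
  have w1 : q ≤ qb := by
    rw [hqb']
    refine Nat.le_floor ?_
    have e1 : (k₀ : ℝ) / N ≤ (k₀ + i) / N := by
      refine div_le_div_of_nonneg_right ?_ hN0.le
      have : (0 : ℝ) ≤ i := Nat.cast_nonneg _
      linarith only
    have e2 := mul_le_mul_of_nonneg_right (v1.trans e1) hJ0.le
    have e3 : (q : ℝ) / J * J = q := by field_simp
    rw [e3] at e2
    exact e2
  have w2 : (qb : ℝ) ≤ q + η / 2 * J := by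
    have e1 : (qb : ℝ) ≤ ((k₀ : ℝ) + i) / N * J := by
      rw [hqb']
      exact Nat.floor_le (by positivity)
    have e2 : ((k₀ : ℝ) + i) / N ≤ q / J + η / 2 := by
      rw [add_div]
      linarith only [hη, v2, v3, v4, hi']
    have e3 := mul_le_mul_of_nonneg_right e2 hJ0.le
    have e4 : ((q : ℝ) / J + η / 2) * J = q + η / 2 * J := by field_simp
    linarith only [e1, e3, e4]
  -- the velocity is not frozen
  have hnF : ¬ FrzG F (σ 0) (qJ (k₀ + i) J) (qJ (k₀ + i) J + xJ J) A := by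
    rw [← hqb]
    intro hF
    obtain ⟨K, hK⟩ : ∃ K, K = ⌊((((k₀ + i + 1 : ℕ) : ℚ) / N : ℚ) : ℝ) * J⌋₊ := ⟨_, rfl⟩
    have c0 : K ≤ qb + xJ J + 1 := by
      rw [hK, cst4, hqb', hxJ]
      have e1 := Nat.lt_floor_add_one (((k₀ : ℝ) + i) / N * J)
      have e2 := Nat.lt_floor_add_one ((J : ℝ) / N)
      have e3 : (((k₀ : ℝ) + i) / N + 1 / N) * J = ((k₀ : ℝ) + i) / N * J + J / N := by ring
      rw [e3]
      have e4 := Nat.floor_le (by positivity : 0 ≤ ((k₀ : ℝ) + i) / N * J + J / N)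
      have e5 : ((⌊((k₀ : ℝ) + i) / N * J + J / N⌋₊ : ℕ) : ℝ) <
          ((⌊((k₀ : ℝ) + i) / N * J⌋₊ + ⌊(J : ℝ) / N⌋₊ + 1 + 1 : ℕ) : ℝ) := by
        push_cast
        linarith only [e1, e2, e4]
      have e6 := Nat.cast_lt.1 e5
      simp only
      omega
    have c1 := frz_le hl c0 hF
    have c2 := hT ⟨k₀ + i, by omega⟩
    have c3 := hT ⟨k₀ + i + 1, by omega⟩
    simp only at c2 c3
    rw [← hK] at c3
    have hqb2 : qb = ⌊((((k₀ + i : ℕ) : ℚ) / N : ℚ) : ℝ) * J⌋₊ := by rw [hqb, hqJ]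
    rw [← hqb2] at c2
    rw [hσ] at c1
    rw [← hu] at c2 c3
    have c4 := (abs_le.1 c2).2
    have c5 := (abs_le.1 c3).1
    have c6 := mul_le_mul_of_nonneg_right (mul_le_mul_of_nonneg_right hci hu0.le) hJ0.le
    have c7 : 0 < c₀ * u * J := by positivity
    linarith only [j2, c1, c4, c5, c6, c7]
  have r1 : vp w ≤ vp wb := hU.mono w wb h1 h2 le_rfl
  have r1' : (vp w : ℝ) ≤ vp wb := by exact_mod_cast r1
  have h2' : (w : ℝ) ≤ wb := by exact_mod_cast h2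
  have r2 : vp w + qb ≤ Hu := by
    have := hR.u
    have e : ((vp w + qb : ℕ) : ℝ) ≤ Hu := by push_cast; linarith only [hq₁, hq, hq₂, hη, j4, w2, r1', this]
    exact_mod_cast e
  have r3 : qb + kap ≤ HN := by
    have := hR.n
    have e : ((qb + kap : ℕ) : ℝ) ≤ HN := by push_cast; linarith only [hq₁, hq, hq₂, hη, j4, w2, this]
    exact_mod_cast e
  have r4 : w + vp w + qb ≤ J := by
    have := hR.uJ
    have e : ((w + vp w + qb : ℕ) : ℝ) ≤ J := by push_cast; linarith only [hq₁, hq, hq₂, hη, j4, w2, r1', h2', this]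
    exact_mod_cast e
  have r5 : w + qb + kap ≤ J := by
    have := hR.nJ
    have e : ((w + qb + kap : ℕ) : ℝ) ≤ J := by push_cast; linarith only [hq₁, hq, hq₂, hη, j4, w2, h2', this]
    exact_mod_cast e
  have vok := hU.vok h1 h2 r2 r3 r4 r5
  rw [hqb] at vok
  have hp1 : w + qJ (k₀ + i) J ≤ w + q + X' := by
    rw [← hqb]
    have e : (qb : ℝ) ≤ ((q + X' : ℕ) : ℝ) := by push_cast; linarith
    have := Nat.cast_le.1 e
    omega
  have key := hW (σ, ⟨k₀ + i, by omega⟩) hnF w _ _ al nu kk b (a w) s t vok (w + q + X') hp1 h5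
  simp only at key
  rw [← hqb, ctx_eq σ w (vp w) kap qb (a w) s t] at key
  have key2 : CH (Pool.Agent.H49.Ent.cond F.p A True)
      (fun ω => ⌊(2 : ℝ) ^ (w + q + X') * F.x ω (σ 0)⌋)
      (fun ω => (F.blb w (cv (vp w) kap qb) (frm σ (a w) s t) ω, F.T ω)) ≤
      CH (Pool.Agent.H49.Ent.cond F.p A True)
      (fun ω => ⌊(2 : ℝ) ^ (w + q + X') * F.x ω (σ 0)⌋)
      (fun ω => (F.blb w (cv (vp w) kap q) (frm σ (a w) s t) ω, F.T ω)) :=
    CH_mono_cond h0 (fun ω ω' _ _ e => by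
      have e1 := Prod.ext_iff.mp e
      exact Prod.ext (blb_coarse w1 e1.1) e1.2)
  have key3 := pos_le (X' := X') (κ := kap) (v := vp w) (q := q) (a := a w) (s := s) (t := t)
    (σ := σ) hl (h2.trans hU.wJ)
  have e7 : (((w + q + X' : ℕ) : ℝ) - ((w + qb : ℕ) : ℝ)) * Real.log 2 - η / 4 * J ≥
      X' * u - (η / 2 * J) * u - η / 4 * J := by
    rw [← hu]
    push_cast
    have : ((q : ℝ) - qb) * u ≥ -(η / 2 * J) * u := mul_le_mul_of_nonneg_right (by linarith only [w2]) hu0.le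
    linarith only [this]
  have e8 : (η / 2 * J) * u ≤ η / 2 * J := by
    have : 0 ≤ η / 2 * J := by positivity
    nlinarith only [hu1, hq₁, hq, hq₂, hη, j4]
  have e9 : Real.log 5 ≤ η * J / 4 := by linarith only [j3]
  linarith only [j3, key, key2, key3, e7, e8]

end Pool.UST.Wf2
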