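import Pool.Agent.H65.S6.H3Z
import Pool.Agent.H10.S6U.Uz6

/-!
# (H3) of the rising case, in the form of the assembly
-/

set_option autoImplicit false

namespace Pool.H3X

open Pool.UST

/-- **(H3)** of the rising case from the entropy of unit pieces with `v ≥ 0`. -/
theorem h3_of_ue (hUE : UeStmt {v | 0 ≤ v}) : Pool.S6N.H3Stmt := h3_core hUE

/-- **(H3)** of the rising case. -/
theorem h3_thm : Pool.S6N.H3Stmt := h3_of_ue ue_all

end Pool.H3X
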