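import Pool.Agent.H65.S6.Lbl
import Pool.Agent.H97.S6.H3R

/-!
# From the local U-step to the tiles of the step of the normal position

`(a w, s, t)` are the frames of the U-step (one plank `(s, t)`), `(a₁, s₁, t₁)` the frame of a
window of the step of the normal position, of the precisions `V`, `H₁`. The box of the second frame
at the row `q` is known, up to a bounded amount, if the box of the first frame at the row `q + r`
is, with `V ≤ vp w + r`, `V + H₁ ≤ κ + r`.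
-/

set_option autoImplicit false

namespace Pool.S6U

open Finset Real
open Pool.Agent.H49.Ent Pool.Agent.H32.Dense Pool.STK Pool.KA Pool.KSAT Pool.K2S Pool.S6N

section brg

variable {J : ℕ} {F : Fam 3 J} {p : F.Ω → ℝ} {σ : Fin 3 → Fin 3} {wa wb : ℕ} {vp : ℕ → ℕ}
  {D : ℕ} {a : ℕ → F.Ω → ℝ} {s t al : F.Ω → ℝ} {κ w q r X V H₁ N : ℕ}
  {a₁ s₁ t₁ a' s' t' : F.Ω → ℝ} {C : ℝ}

/-- The frame of the second step is near the frame of the first. -/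
structure Nrf (F : Fam 3 J) (p : F.Ω → ℝ) (aw s t ad : F.Ω → ℝ) (a₁ s₁ t₁ : F.Ω → ℝ) (V H₁ : ℕ)
    (C : ℝ) : Prop where
  na : ∀ ω, 0 < p ω → |a₁ ω - aw ω| ≤ C / 2 ^ V
  nd : ∀ ω, 0 < p ω → |a₁ ω - ad ω| ≤ C / 2 ^ V
  ns : ∀ ω, 0 < p ω → |s₁ ω - s ω| ≤ C / 2 ^ H₁
  nt : ∀ ω, 0 < p ω → |(t₁ ω - t ω) + (s₁ ω - s ω) * aw ω| ≤ C / 2 ^ (V + H₁)

/-- The constant. -/
noncomputable def brC (C : ℝ) : ℝ := 6 * Real.log (12 * C + 3) + Real.log (2 * C + 9)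

/-- The box of the second frame. -/
theorem CH_brg (hR : Rc F p σ wa wb vp D a s t al) (h2 : w ≤ wb) (hC : 1 ≤ C)
    (hn : Nrf F p (a w) s t (ald D al) a₁ s₁ t₁ V H₁ C) (hV : V ≤ vp w + r)
    (hκ : V + H₁ ≤ κ + r) {Γ : Type} (W : F.Ω → Γ)
    (hW : ∀ ω ω', 0 < p ω → 0 < p ω' → W ω = W ω' →
      ocn F σ vp D a s t al κ w (q + r) N ω = ocn F σ vp D a s t al κ w (q + r) N ω' ∧
      a₁ ω = a₁ ω' ∧ s₁ ω = s₁ ω' ∧ t₁ ω = t₁ ω') :
    CH p (Pool.S6N.ctx F σ w q V H₁ a₁ s₁ t₁) W ≤ 6 * Real.log (12 * C + 3) := by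
  have hp := hR.law
  have hwJ : w ≤ J := h2.trans hR.wJ
  have key := Box.CH_blb_vel (F := F) (p := p) (w := w) (w' := w) (c := S6U.cv (vp w) κ (q + r))
    (c' := S6N.cv q V H₁) (σ := σ) (a := a w) (s := s) (t := t) (a' := a₁) (s' := s₁)
    (t' := t₁) (D := C) hp hwJ le_rfl hC (by
      intro i
      fin_cases i
      · show q ≤ q + r
        omega
      · show q + V ≤ vp w + (q + r)
        omega
      · show q + (V + H₁) ≤ κ + (q + r)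
        omega) (by
      intro ω hω
      refine (hn.na ω hω).trans ?_
      show C / 2 ^ V ≤ C * 2 ^ (q + r) / 2 ^ (q + V)
      rw [div_le_div_iff₀ (by positivity) (by positivity), mul_assoc, ← pow_add]
      exact mul_le_mul_of_nonneg_left (pow_le_pow_right₀ (by norm_num) (by omega))
        (by linarith)) (by
      intro ω hω
      refine (hn.ns ω hω).trans ?_
      show C / 2 ^ H₁ ≤ C * 2 ^ (vp w + (q + r)) / 2 ^ (q + (V + H₁))
      rw [div_le_div_iff₀ (by positivity) (by positivity), mul_assoc, ← pow_add]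
      exact mul_le_mul_of_nonneg_left (pow_le_pow_right₀ (by norm_num) (by omega))
        (by linarith)) (by
      intro ω hω
      refine (hn.nt ω hω).trans ?_
      show C / 2 ^ (V + H₁) ≤ C * 2 ^ (q + r) / 2 ^ (q + (V + H₁))
      rw [div_le_div_iff₀ (by positivity) (by positivity), mul_assoc, ← pow_add]
      exact mul_le_mul_of_nonneg_left (pow_le_pow_right₀ (by norm_num) (by omega))
        (by linarith)) W (by
      intro ω ω' hω hω' e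
      obtain ⟨g1, g2⟩ := hW ω ω' hω hω' e
      refine ⟨?_, g2⟩
      have e1 := (Prod.ext_iff.mp (Prod.ext_iff.mp g1).2).1
      have e3 : F.ctx σ w (w + (q + r)) (w + vp w + (q + r)) (w + (q + r) + κ) (a w) s t ω =
        F.ctx σ w (w + (q + r)) (w + vp w + (q + r)) (w + (q + r) + κ) (a w) s t ω' := e1
      rw [S6U.ctx_eq] at e3
      exact e3)
  refine key.trans (le_of_eq ?_)
  push_cast
  ring

/-- The block of the first step from the block of the second. -/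
theorem CH_brb (hR : Rc F p σ wa wb vp D a s t al) (hC : 1 ≤ C)
    (hn : Nrf F p (a w) s t (ald D al) a₁ s₁ t₁ V H₁ C) (hV : vp w ≤ V)
    {Γ : Type} (W : F.Ω → Γ)
    (hW : ∀ ω ω', 0 < p ω → 0 < p ω' → W ω = W ω' →
      ocn F σ vp D a s t al κ w (q + r) N ω = ocn F σ vp D a s t al κ w (q + r) N ω' ∧
      a₁ ω = a₁ ω' ∧ pd2 F σ w q V (r + X) a₁ s₁ t₁ ω = pd2 F σ w q V (r + X) a₁ s₁ t₁ ω') :
    CH p (F.sbx σ (w + (q + r) + X) (w + vp w + (q + r) + X) N (ald D al) s t) W ≤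
      Real.log (2 * C + 9) := by
  have hp := hR.law
  have h0 := hp.nonneg
  obtain ⟨m, hm⟩ := Nat.exists_eq_add_of_le hV
  have c0 : ∀ ω, mco (fr σ a₁ s₁ t₁ ω) (F.x ω) 0 = F.x ω (σ 0) := fun ω =>
    Box.mco_tfr0 σ (a₁ ω) (s₁ ω) (t₁ ω) (F.x ω)
  have c1 : ∀ ω, mco (fr σ a₁ s₁ t₁ ω) (F.x ω) 1 = F.x ω (σ 1) - a₁ ω * F.x ω (σ 0) := fun ω =>
    Box.mco_tfr1 σ (a₁ ω) (s₁ ω) (t₁ ω) (F.x ω)
  have k1 := CH_int hp
    (fun ω => ⌊(2 : ℝ) ^ (w + vp w + (q + r) + X) * Vd.co F σ (ald D al) s t 1 ω⌋) W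
    (c := (C + 1) + 1) (by
      intro ω ω' hω hω' e
      obtain ⟨g1, g2, g3⟩ := hW ω ω' hω hω' e
      have e1 := (Vd.sbx_ext).1 (Prod.ext_iff.mp g1).1
      have e2 : ald D al ω = ald D al ω' := e1.1.1
      have e3 := Prod.ext_iff.mp g3
      have n0 := Box.near_of_floor (x := mco (fr σ a₁ s₁ t₁ ω) (F.x ω) 0)
        (y := mco (fr σ a₁ s₁ t₁ ω') (F.x ω') 0) (k := q + w + (r + X)) e3.1
      have n1 := Box.near_of_floor (x := mco (fr σ a₁ s₁ t₁ ω) (F.x ω) 1)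
        (y := mco (fr σ a₁ s₁ t₁ ω') (F.x ω') 1) (k := q + V + w + (r + X)) e3.2
      rw [c0, c0] at n0
      rw [c1, c1, ← g2] at n1
      have d1 : ∀ ω, Vd.co F σ (ald D al) s t 1 ω =
          F.x ω (σ 1) - ald D al ω * F.x ω (σ 0) := fun ω =>
        Box.mco_tfr1 σ (ald D al ω) (s ω) (t ω) (F.x ω)
      refine Plk.floor_sub_lt (c := C + 1) ?_
      rw [d1, d1, ← e2, ← mul_sub, abs_mul,
        abs_of_pos (by positivity : (0 : ℝ) < 2 ^ (w + vp w + (q + r) + X))]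
      have e4 : F.x ω (σ 1) - ald D al ω * F.x ω (σ 0) -
          (F.x ω' (σ 1) - ald D al ω * F.x ω' (σ 0)) =
          (F.x ω (σ 1) - a₁ ω * F.x ω (σ 0) - (F.x ω' (σ 1) - a₁ ω * F.x ω' (σ 0))) +
          (a₁ ω - ald D al ω) * (F.x ω (σ 0) - F.x ω' (σ 0)) := by ring
      have e5 : |(a₁ ω - ald D al ω) * (F.x ω (σ 0) - F.x ω' (σ 0))| ≤
          C / 2 ^ V * (1 / 2 ^ (q + w + (r + X))) := by
        rw [abs_mul]
        exact mul_le_mul (hn.nd ω hω) n0 (abs_nonneg _) (by positivity)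
      have e6 : |F.x ω (σ 1) - ald D al ω * F.x ω (σ 0) -
          (F.x ω' (σ 1) - ald D al ω * F.x ω' (σ 0))| ≤
          1 / 2 ^ (q + V + w + (r + X)) + C / 2 ^ V * (1 / 2 ^ (q + w + (r + X))) := by
        rw [e4]
        exact (abs_add_le _ _).trans (add_le_add n1 e5)
      have e7 : (2 : ℝ) ^ (q + V + w + (r + X)) = 2 ^ (w + vp w + (q + r) + X) * 2 ^ m := by
        rw [← pow_add]
        congr 1
        omega
      have e8 : (2 : ℝ) ^ (q + V + w + (r + X)) = 2 ^ V * 2 ^ (q + w + (r + X)) := by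
        rw [← pow_add]
        congr 1
        omega
      have e9 : (1 : ℝ) / 2 ^ (q + V + w + (r + X)) + C / 2 ^ V * (1 / 2 ^ (q + w + (r + X))) =
          (C + 1) / 2 ^ (q + V + w + (r + X)) := by
        rw [e8]
        field_simp
        ring
      rw [e9, e7] at e6
      refine (mul_le_mul_of_nonneg_left e6 (by positivity)).trans ?_
      have e10 : (2 : ℝ) ^ (w + vp w + (q + r) + X) *
          ((C + 1) / (2 ^ (w + vp w + (q + r) + X) * 2 ^ m)) = (C + 1) / 2 ^ m := by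
        field_simp
      rw [e10]
      exact div_le_self (by linarith) (one_le_pow₀ (by norm_num)))
  have k2 : CH p (F.sbx σ (w + (q + r) + X) (w + vp w + (q + r) + X) N (ald D al) s t) W ≤
      CH p (fun ω =>
        ⌊(2 : ℝ) ^ (w + vp w + (q + r) + X) * Vd.co F σ (ald D al) s t 1 ω⌋) W := by
    refine CH_mono_left h0 ?_
    intro ω ω' hω hω' e
    have e0 := Prod.ext_iff.mp e
    obtain ⟨g1, g2, g3⟩ := hW ω ω' hω hω' e0.2
    have e1 := (Vd.sbx_ext).1 (Prod.ext_iff.mp g1).1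
    have e3 := (Prod.ext_iff.mp g3).1
    refine (Vd.sbx_ext).2 ⟨e1.1, ?_, e0.1, e1.2.2.2⟩
    have d0 : ∀ ω, Vd.co F σ (ald D al) s t 0 ω = F.x ω (σ 0) := fun ω =>
      Box.mco_tfr0 σ (ald D al ω) (s ω) (t ω) (F.x ω)
    rw [d0, d0]
    have e4 : ⌊(2 : ℝ) ^ (q + w + (r + X)) * mco (fr σ a₁ s₁ t₁ ω) (F.x ω) 0⌋ =
      ⌊(2 : ℝ) ^ (q + w + (r + X)) * mco (fr σ a₁ s₁ t₁ ω') (F.x ω') 0⌋ := e3
    rw [c0, c0] at e4
    have e5 : w + (q + r) + X = q + w + (r + X) := by omega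
    rw [e5]
    exact e4
  refine (k2.trans k1).trans ?_
  refine Real.log_le_log (by linarith) ?_
  linarith

/-- The row `n` determines the row `n' ≤ n`. -/
theorem CH_pd2_mono (hp : IsLaw p) {n n' : ℕ} (h : n' ≤ n) {Γ : Type} (W : F.Ω → Γ)
    (hW : ∀ ω ω', 0 < p ω → 0 < p ω' → W ω = W ω' →
      fr σ a₁ s₁ t₁ ω = fr σ a₁ s₁ t₁ ω') :
    CH p (pd2 F σ w q V n' a₁ s₁ t₁) W ≤ CH p (pd2 F σ w q V n a₁ s₁ t₁) W := by
  refine CH_mono_left hp.nonneg ?_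
  intro ω ω' hω hω' e
  have e1 := Prod.ext_iff.mp e
  have e2 := Prod.ext_iff.mp e1.1
  refine Prod.ext ?_ ?_
  · show ⌊(2 : ℝ) ^ (q + w + n') * _⌋ = ⌊(2 : ℝ) ^ (q + w + n') * _⌋
    rw [← Uni.floor_row (show q + w + n' ≤ q + w + n by omega)
      (mco (fr σ a₁ s₁ t₁ ω) (F.x ω) 0), ← Uni.floor_row (show q + w + n' ≤ q + w + n by omega)
      (mco (fr σ a₁ s₁ t₁ ω') (F.x ω') 0)]
    have e3 : ⌊(2 : ℝ) ^ (q + w + n) * mco (fr σ a₁ s₁ t₁ ω) (F.x ω) 0⌋ =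
      ⌊(2 : ℝ) ^ (q + w + n) * mco (fr σ a₁ s₁ t₁ ω') (F.x ω') 0⌋ := e2.1
    rw [e3]
  · show ⌊(2 : ℝ) ^ (q + V + w + n') * _⌋ = ⌊(2 : ℝ) ^ (q + V + w + n') * _⌋
    rw [← Uni.floor_row (show q + V + w + n' ≤ q + V + w + n by omega)
      (mco (fr σ a₁ s₁ t₁ ω) (F.x ω) 1),
      ← Uni.floor_row (show q + V + w + n' ≤ q + V + w + n by omega)
      (mco (fr σ a₁ s₁ t₁ ω') (F.x ω') 1)]
    have e3 : ⌊(2 : ℝ) ^ (q + V + w + n) * mco (fr σ a₁ s₁ t₁ ω) (F.x ω) 1⌋ =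
      ⌊(2 : ℝ) ^ (q + V + w + n) * mco (fr σ a₁ s₁ t₁ ω') (F.x ω') 1⌋ := e2.2
    rw [e3]

/-- **The bridge.** A lower bound for the block of the U-step at the row `q + r`, with the label
`vv` in the condition, gives the tile at the row `q` in the context of the step of the normal
position. -/
theorem tile_of_ocn (hR : Rc F p σ wa wb vp D a s t al) (h2 : w ≤ wb) (hC : 1 ≤ C)
    (hn : Nrf F p (a w) s t (ald D al) a₁ s₁ t₁ V H₁ C) (hV : V ≤ vp w + r) (hV' : vp w ≤ V)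
    (hκ : V + H₁ ≤ κ + r) {n : ℕ} (hr : r + X ≤ n) {Γ : Type} (vv : F.Ω → Γ)
    (hv : Det p vv (fun ω => ((a₁ ω, s₁ ω, t₁ ω), (a' ω, s' ω, t' ω)))) :
    CH p (F.sbx σ (w + (q + r) + X) (w + vp w + (q + r) + X) N (ald D al) s t)
      (fun ω => (vv ω, ocn F σ vp D a s t al κ w (q + r) N ω)) ≤
    CH p (pd2 F σ w q V n a₁ s₁ t₁)
      (fun ω => (Pool.S6N.ctx F σ w q V H₁ a₁ s₁ t₁ ω, gt F a' s' t' ω)) + brC C := by
  have hp := hR.law
  have h0 := hp.nonneg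
  obtain ⟨Y, hY⟩ : ∃ Y, Y =
    F.sbx σ (w + (q + r) + X) (w + vp w + (q + r) + X) N (ald D al) s t := ⟨_, rfl⟩
  obtain ⟨L, hL⟩ : ∃ L, L = fun ω => (vv ω, ocn F σ vp D a s t al κ w (q + r) N ω) := ⟨_, rfl⟩
  obtain ⟨B, hB⟩ : ∃ B, B = Pool.S6N.ctx F σ w q V H₁ a₁ s₁ t₁ := ⟨_, rfl⟩
  rw [← hY, ← hL]
  have hLd : ∀ ω ω', 0 < p ω → 0 < p ω' → L ω = L ω' →
      ocn F σ vp D a s t al κ w (q + r) N ω = ocn F σ vp D a s t al κ w (q + r) N ω' ∧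
      (a₁ ω = a₁ ω' ∧ s₁ ω = s₁ ω' ∧ t₁ ω = t₁ ω') ∧
      (a' ω = a' ω' ∧ s' ω = s' ω' ∧ t' ω = t' ω') := by
    intro ω ω' hω hω' e
    rw [hL] at e
    have e1 := Prod.ext_iff.mp e
    have e2 := hv ω ω' hω hω' e1.1
    have e3 := Prod.ext_iff.mp e2
    have e4 := Prod.ext_iff.mp e3.1
    have e5 := Prod.ext_iff.mp e4.2
    have e6 := Prod.ext_iff.mp e3.2
    have e7 := Prod.ext_iff.mp e6.2
    exact ⟨e1.2, ⟨e4.1, e5.1, e5.2⟩, ⟨e6.1, e7.1, e7.2⟩⟩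
  have k1 := CH_brg (κ := κ) (q := q) (r := r) (N := N) hR h2 hC hn hV hκ L
    (fun ω ω' hω hω' e => by
      obtain ⟨g1, g2, g3⟩ := hLd ω ω' hω hω' e
      exact ⟨g1, g2⟩)
  rw [← hB] at k1
  have k2 := CH_brb (κ := κ) (q := q) (r := r) (N := N) (X := X) hR hC hn hV'
    (fun ω => (pd2 F σ w q V (r + X) a₁ s₁ t₁ ω, (B ω, L ω))) (fun ω ω' hω hω' e => by
    have e1 := Prod.ext_iff.mp e
    obtain ⟨g1, g2, g3⟩ := hLd ω ω' hω hω' (Prod.ext_iff.mp e1.2).2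
    exact ⟨g1, g2.1, e1.1⟩)
  rw [← hY] at k2
  have k3 := CH_le_add h0 Y B L
  have k4 := CH_le_add h0 Y (pd2 F σ w q V (r + X) a₁ s₁ t₁) (fun ω => (B ω, L ω))
  have k6 : CH p (pd2 F σ w q V (r + X) a₁ s₁ t₁) (fun ω => (B ω, L ω)) ≤
      CH p (pd2 F σ w q V n a₁ s₁ t₁) (fun ω => (B ω, L ω)) := by
    refine CH_pd2_mono hp hr _ ?_
    intro ω ω' hω hω' e
    obtain ⟨g1, ⟨g2, g3, g4⟩, g5⟩ := hLd ω ω' hω hω' (Prod.ext_iff.mp e).2
    unfold fr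
    rw [g2, g3, g4]
  have k5 : CH p (pd2 F σ w q V n a₁ s₁ t₁) (fun ω => (B ω, L ω)) ≤
      CH p (pd2 F σ w q V n a₁ s₁ t₁)
        (fun ω => (Pool.S6N.ctx F σ w q V H₁ a₁ s₁ t₁ ω, gt F a' s' t' ω)) := by
    refine CH_mono_cond h0 ?_
    intro ω ω' hω hω' e
    have e1 := Prod.ext_iff.mp e
    obtain ⟨g1, g2, g3⟩ := hLd ω ω' hω hω' e1.2
    have eB := e1.1
    rw [hB] at eB
    have eT : F.T ω = F.T ω' := (Prod.ext_iff.mp (Prod.ext_iff.mp (Prod.ext_iff.mp g1).2).2).2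
    exact Prod.ext eB (Prod.ext eT (Prod.ext g3.1 (Prod.ext g3.2.1 g3.2.2)))
  unfold brC
  linarith

end brg

end Pool.S6U
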