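import Pool.Agent.H65.S6.Fmu

/-!
# The frames of the two steps are near; the number of digits of the labels
-/

set_option autoImplicit false

namespace Pool.H3X

open Finset Real
open Pool.Agent.H32.Dense hiding rd
open Pool.KSAT hiding zs
open Pool.Agent.H49.Ent Pool.STK Pool.KA Pool.K2S Pool.PB Pool.KS6 Pool.S6C Pool.S6N Pool.UST

/-- A frame of three numbers on grids, near a known frame. -/
theorem lab3 {Ω τ : Type} [Fintype Ω] {q : Ω → ℝ} (hq : IsLaw q) (a s t a' s' t' : Ω → ℝ)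
    (Z : Ω → τ) (hZ : Det q Z (fun ω => (a ω, s ω, t ω))) {V H R V' H' R' : ℕ} (hV : V ≤ V')
    (hH : H ≤ H') (hR : R ≤ R') (ga : ∀ ω, ∃ z : ℤ, a' ω = z / 2 ^ V')
    (gs : ∀ ω, ∃ z : ℤ, s' ω = z / 2 ^ H') (gt : ∀ ω, ∃ z : ℤ, t' ω = z / 2 ^ R') {D : ℝ}
    (hD : 0 ≤ D) (ha : ∀ ω, 0 < q ω → |a' ω - a ω| ≤ D / 2 ^ V)
    (hs : ∀ ω, 0 < q ω → |s' ω - s ω| ≤ D / 2 ^ H)
    (ht : ∀ ω, 0 < q ω → |(t' ω - t ω) + (s' ω - s ω) * a ω| ≤ D / 2 ^ R) :
    CH q (fun ω => (a' ω, s' ω, t' ω)) Z ≤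
      (((V' - V : ℕ) : ℝ) + ((H' - H : ℕ) : ℝ) + ((R' - R : ℕ) : ℝ)) * Real.log 2 +
        3 * Real.log (2 * D + 1) := by
  have h0 := hq.nonneg
  have dt : ∀ ω ω', 0 < q ω → 0 < q ω' → Z ω = Z ω' → a ω = a ω' ∧ s ω = s ω' ∧ t ω = t ω' := by
    intro ω ω' h1 h2 e
    have e1 := Prod.ext_iff.mp (hZ ω ω' h1 h2 e)
    have e2 := Prod.ext_iff.mp e1.2
    exact ⟨e1.1, e2.1, e2.2⟩
  have c1 := CH_grid1 hq a' Z a (fun ω ω' h1 h2 h => (dt ω ω' h1 h2 h).1) hV hD ga ha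
  have c2 := CH_grid1 hq s' Z s (fun ω ω' h1 h2 h => (dt ω ω' h1 h2 h).2.1) hH hD gs hs
  have c3 := CH_grid1 hq t' (fun ω => (s' ω, Z ω))
    (fun ω => t ω - (s' ω - s ω) * a ω)
    (fun ω ω' h1 h2 h => by
      obtain ⟨e1, e2, e3⟩ := dt ω ω' h1 h2 (Prod.ext_iff.mp h).2
      have e4 : s' ω = s' ω' := (Prod.ext_iff.mp h).1
      show t ω - (s' ω - s ω) * a ω = t ω' - (s' ω' - s ω') * a ω'
      rw [e4, e1, e2, e3]) hR hD gt
    (fun ω hω => by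
      have e : t' ω - (t ω - (s' ω - s ω) * a ω) = (t' ω - t ω) + (s' ω - s ω) * a ω := by ring
      rw [e]
      exact ht ω hω)
  have d1 := CH_subadd h0 a' (fun ω => (s' ω, t' ω)) Z
  have d2 : CH q (fun ω => (s' ω, t' ω)) Z = CH q (fun ω => (t' ω, s' ω)) Z := by
    refine CH_congr h0 ?_ ?_ (fun _ _ _ _ h => h) (fun _ _ _ _ h => h)
    · intro ω ω' _ _ h
      simp only [Prod.mk.injEq] at h ⊢
      tauto
    · intro ω ω' _ _ h
      simp only [Prod.mk.injEq] at h ⊢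
      tauto
  have d3 := CH_chain h0 t' s' Z
  have e1 : (((V' - V : ℕ) : ℝ) + ((H' - H : ℕ) : ℝ) + ((R' - R : ℕ) : ℝ)) * Real.log 2 =
      ((V' - V : ℕ) : ℝ) * Real.log 2 + ((H' - H : ℕ) : ℝ) * Real.log 2 +
        ((R' - R : ℕ) : ℝ) * Real.log 2 := by ring
  rw [e1]
  linarith

section two

variable {J : ℕ} {F : Fam 3 J} {B B' : F.Ω → Prop} {i₀ : Fin 3} {N : ℕ} {w V R : ℕ → ℕ}
  {Pu PN : ℕ} {τ : Fin 3 → Fin 3} {y : F.Ω → Pln} {z : ℕ → F.Ω → Pln} {al nu k b : F.Ω → ℝ}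
  {m wa wb : ℕ} {jx : ℕ → ℕ} {c : ℤ × ℤ × ℤ} {al' : (Fin 3 → ℤ) × (ℕ × F.ζ) → ℝ}
  {x D H₁ : ℕ} {p : F.Ω → ℝ}

/-- The basic bounds at a sample. -/
theorem base (hM : Fms F B i₀ N w V R Pu PN τ y z al nu k b) (hL : Lvm N w V R)
    (hX : Mxi J N w m wa wb jx) (hB : Sub B' B)
    (hc : ∀ ω, B' ω → offs (V m) (R m - V m) (al ω) (k ω) (y ω) (z m ω) = c)
    (h1 : wa ≤ x) (h2 : x ≤ wb) {ω : F.Ω} (hω : B' ω) :
    |al ω - awx V jx c.2.2 z x ω| ≤ 24 / 2 ^ V (jx x) ∧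
    |al ω - za (V (jx x)) (z (jx x) ω)| ≤ 17 / 2 ^ V (jx x) ∧
    |(y ω).s + zs (R (jx x) - V (jx x)) (z (jx x) ω)| ≤ 9 / 2 ^ (R (jx x) - V (jx x)) ∧
    |(y ω).s + zs (R m - V m) (z m ω)| ≤ 9 / 2 ^ (R m - V m) ∧
    |zt (V (jx x)) (R (jx x) - V (jx x)) (z (jx x) ω) -
      T2 (R (jx x) - V (jx x)) (al ω) (k ω) (y ω) (z (jx x) ω)| ≤ 162 / 2 ^ R (jx x) ∧
    |zt (V m) (R m - V m) (z m ω) - T2 (R m - V m) (al ω) (k ω) (y ω) (z m ω)| ≤
      162 / 2 ^ R m := by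
  have hj : jx x ≤ N := (hX.le x h1 h2).trans hX.mN
  obtain ⟨a1, a2, a3, a4, a5⟩ := fact hM hL hj (hB ω hω)
  obtain ⟨b1, b2, b3, b4, b5⟩ := fact hM hL hX.mN (hB ω hω)
  have hfl : ⌊al ω⌋ = c.2.2 := by
    rw [← hc ω hω]
    rfl
  refine ⟨(awx_near hM hL hj (hB ω hω) hfl).2, ?_, zs_near a1, zs_near b1, ?_, ?_⟩
  · have r1 := rd_near (V (jx x)) (z (jx x) ω).e
    have r2 := a1.e
    have e1 : al ω - za (V (jx x)) (z (jx x) ω) = (al ω - (y ω).e) +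
        ((y ω).e - (z (jx x) ω).e) - (rd (V (jx x)) (z (jx x) ω).e - (z (jx x) ω).e) := by
      unfold za
      ring
    have e2 : (17 : ℝ) / 2 ^ V (jx x) = 8 / 2 ^ V (jx x) + 8 / 2 ^ V (jx x) +
      1 / 2 ^ V (jx x) := by ring
    rw [e1, e2]
    rw [abs_le] at r1 r2 a2 ⊢
    constructor <;> linarith [r1.1, r1.2, r2.1, r2.2, a2.1, a2.2]
  · have := zt_near a1 a2 a3
    rwa [a5] at this
  · have := zt_near b1 b2 b3
    rwa [b5] at this

/-- **The frames of the step of the normal position are near the frames of the U-step.** -/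
theorem nrf_of (hM : Fms F B i₀ N w V R Pu PN τ y z al nu k b) (hL : Lvm N w V R)
    (hX : Mxi J N w m wa wb jx) (hB : Sub B' B)
    (hc : ∀ ω, B' ω → offs (V m) (R m - V m) (al ω) (k ω) (y ω) (z m ω) = c)
    (hal : ∀ ω, B ω → al ω = al' (Fam.pt F ω))
    (h1 : wa ≤ x) (h2 : x ≤ wb) (hD : V (jx x) - 3 ≤ D) (hH : H₁ ≤ R (jx x) - V (jx x))
    (hH' : H₁ ≤ R m - V m) (hR : V (jx x) + H₁ ≤ R m) (hp : ∀ ω, 0 < p ω → B' ω) :
    Pool.S6U.Nrf F p (awx V jx c.2.2 z x) (fun ω => zs (R m - V m) (z m ω))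
      (fun ω => zt (V m) (R m - V m) (z m ω))
      (Pool.S6U.ald D (fun ω => al' (Fam.pt F ω)))
      (fun ω => za (V (jx x)) (z (jx x) ω))
      (fun ω => zs (R (jx x) - V (jx x)) (z (jx x) ω))
      (fun ω => zt (V (jx x)) (R (jx x) - V (jx x)) (z (jx x) ω)) (V (jx x)) H₁ 800 := by
  have hj : jx x ≤ N := (hX.le x h1 h2).trans hX.mN
  have pV : (0 : ℝ) < 2 ^ V (jx x) := by positivity
  have pH : (0 : ℝ) < 2 ^ H₁ := by positivity
  have pR : (0 : ℝ) < 2 ^ (V (jx x) + H₁) := by positivity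
  have c1 : ∀ {n n' : ℕ} {a : ℝ}, 0 ≤ a → n ≤ n' → a / (2 : ℝ) ^ n' ≤ a / 2 ^ n := by
    intro n n' a ha hn
    exact div_le_div_of_nonneg_left ha (by positivity) (pow_le_pow_right₀ (by norm_num) hn)
  have hVR := hL.VR _ hj
  have gs : ∀ ω, B' ω → |zs (R (jx x) - V (jx x)) (z (jx x) ω) - zs (R m - V m) (z m ω)| ≤
      18 / 2 ^ H₁ := by
    intro ω hω
    obtain ⟨g1, g2, g3, g4, g5, g6⟩ := base hM hL hX hB hc h1 h2 hω
    have e1 : zs (R (jx x) - V (jx x)) (z (jx x) ω) - zs (R m - V m) (z m ω) =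
        ((y ω).s + zs (R (jx x) - V (jx x)) (z (jx x) ω)) -
          ((y ω).s + zs (R m - V m) (z m ω)) := by ring
    rw [e1]
    refine (abs_sub _ _).trans ?_
    have g7 := g3.trans (c1 (by norm_num) hH)
    have g8 := g4.trans (c1 (by norm_num) hH')
    have e2 : (18 : ℝ) / 2 ^ H₁ = 9 / 2 ^ H₁ + 9 / 2 ^ H₁ := by ring
    rw [e2]
    exact add_le_add g7 g8
  refine ⟨?_, ?_, ?_, ?_⟩
  · intro ω hω
    obtain ⟨g1, g2, g3, g4, g5, g6⟩ := base hM hL hX hB hc h1 h2 (hp ω hω)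
    have e1 : za (V (jx x)) (z (jx x) ω) - awx V jx c.2.2 z x ω =
        (al ω - awx V jx c.2.2 z x ω) - (al ω - za (V (jx x)) (z (jx x) ω)) := by ring
    show |za (V (jx x)) (z (jx x) ω) - awx V jx c.2.2 z x ω| ≤ _
    rw [e1]
    refine (abs_sub _ _).trans ((add_le_add g1 g2).trans ?_)
    rw [← add_div]
    exact div_le_div_of_nonneg_right (by norm_num) pV.le
  · intro ω hω
    obtain ⟨g1, g2, g3, g4, g5, g6⟩ := base hM hL hX hB hc h1 h2 (hp ω hω)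
    have g7 := Pool.S6U.dg_near D (fun ω => al' (Fam.pt F ω)) ω
    have g8 : (1 : ℝ) / 2 ^ D ≤ 8 / 2 ^ V (jx x) := by
      rw [div_le_div_iff₀ (by positivity) pV, one_mul]
      have e : (8 : ℝ) * 2 ^ D = 2 ^ (D + 3) := by
        rw [pow_add]
        norm_num
        ring
      rw [e]
      exact pow_le_pow_right₀ (by norm_num) (by omega)
    have e1 : za (V (jx x)) (z (jx x) ω) - Pool.S6U.ald D (fun ω => al' (Fam.pt F ω)) ω =
        -(al ω - za (V (jx x)) (z (jx x) ω)) -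
          ((Uni.dg D (fun ω => al' (Fam.pt F ω)) ω : ℝ) / 2 ^ D - al' (Fam.pt F ω)) := by
      unfold Pool.S6U.ald
      rw [hal ω (hB ω (hp ω hω))]
      ring
    show |za (V (jx x)) (z (jx x) ω) - Pool.S6U.ald D (fun ω => al' (Fam.pt F ω)) ω| ≤ _
    rw [e1]
    refine (abs_sub _ _).trans ?_
    rw [abs_neg]
    refine (add_le_add g2 (g7.trans g8)).trans ?_
    rw [← add_div]
    exact div_le_div_of_nonneg_right (by norm_num) pV.le
  · intro ω hω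
    refine (gs ω (hp ω hω)).trans ?_
    exact div_le_div_of_nonneg_right (by norm_num) pH.le
  · intro ω hω
    obtain ⟨g1, g2, g3, g4, g5, g6⟩ := base hM hL hX hB hc h1 h2 (hp ω hω)
    have g7 := g5.trans (c1 (by norm_num) (show V (jx x) + H₁ ≤ R (jx x) by omega))
    have g8 := g6.trans (c1 (by norm_num) hR)
    have g9 : |(zs (R (jx x) - V (jx x)) (z (jx x) ω) - zs (R m - V m) (z m ω)) *
        (al ω - awx V jx c.2.2 z x ω)| ≤ 432 / 2 ^ (V (jx x) + H₁) := by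
      rw [abs_mul]
      refine (mul_le_mul (gs ω (hp ω hω)) g1 (abs_nonneg _) (by positivity)).trans (le_of_eq ?_)
      rw [pow_add]
      field_simp
      norm_num
    show |zt (V (jx x)) (R (jx x) - V (jx x)) (z (jx x) ω) - zt (V m) (R m - V m) (z m ω) +
      (zs (R (jx x) - V (jx x)) (z (jx x) ω) - zs (R m - V m) (z m ω)) *
        awx V jx c.2.2 z x ω| ≤ _
    have e1 : zt (V (jx x)) (R (jx x) - V (jx x)) (z (jx x) ω) - zt (V m) (R m - V m) (z m ω) +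
      (zs (R (jx x) - V (jx x)) (z (jx x) ω) - zs (R m - V m) (z m ω)) *
        awx V jx c.2.2 z x ω =
      (zt (V (jx x)) (R (jx x) - V (jx x)) (z (jx x) ω) -
        T2 (R (jx x) - V (jx x)) (al ω) (k ω) (y ω) (z (jx x) ω)) -
      (zt (V m) (R m - V m) (z m ω) - T2 (R m - V m) (al ω) (k ω) (y ω) (z m ω)) -
      (zs (R (jx x) - V (jx x)) (z (jx x) ω) - zs (R m - V m) (z m ω)) *
        (al ω - awx V jx c.2.2 z x ω) := by
      unfold T2
      ring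
    have e2 : (800 : ℝ) / 2 ^ (V (jx x) + H₁) = 162 / 2 ^ (V (jx x) + H₁) +
      162 / 2 ^ (V (jx x) + H₁) + 432 / 2 ^ (V (jx x) + H₁) + 44 / 2 ^ (V (jx x) + H₁) := by ring
    have e3 : (0 : ℝ) ≤ 44 / 2 ^ (V (jx x) + H₁) := by positivity
    rw [e1, e2]
    rw [abs_le] at g7 g8 g9 ⊢
    constructor <;> linarith [g7.1, g7.2, g8.1, g8.2, g9.1, g9.2]

/-- The digits of the frame of the window. -/
theorem lab_z (hM : Fms F B i₀ N w V R Pu PN τ y z al nu k b) (hL : Lvm N w V R)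
    (hX : Mxi J N w m wa wb jx) (hB : Sub B' B)
    (hc : ∀ ω, B' ω → offs (V m) (R m - V m) (al ω) (k ω) (y ω) (z m ω) = c)
    (hal : ∀ ω, B ω → al ω = al' (Fam.pt F ω))
    (h1 : wa ≤ x) (h2 : x ≤ wb) (hH : H₁ ≤ R (jx x) - V (jx x))
    (hH' : H₁ ≤ R m - V m) (hR : V (jx x) + H₁ ≤ R m) (hp : ∀ ω, 0 < p ω → B' ω)
    (hl : IsLaw p) {Γ : Type} (Z : F.Ω → Γ)
    (hZ : Det p Z (fun ω => (awx V jx c.2.2 z x ω, zs (R m - V m) (z m ω),
      zt (V m) (R m - V m) (z m ω)))) :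
    CH p (fun ω => (za (V (jx x)) (z (jx x) ω), zs (R (jx x) - V (jx x)) (z (jx x) ω),
      zt (V (jx x)) (R (jx x) - V (jx x)) (z (jx x) ω))) Z ≤
      (2 * ((R (jx x) - V (jx x) - H₁ : ℕ) : ℝ)) * Real.log 2 + 3 * Real.log 1601 := by
  have hj : jx x ≤ N := (hX.le x h1 h2).trans hX.mN
  have hVR := hL.VR _ hj
  have hn := nrf_of (D := V (jx x)) hM hL hX hB hc hal h1 h2 (by omega) hH hH' hR hp
  have key := lab3 hl (awx V jx c.2.2 z x) (fun ω => zs (R m - V m) (z m ω))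
    (fun ω => zt (V m) (R m - V m) (z m ω)) (fun ω => za (V (jx x)) (z (jx x) ω))
    (fun ω => zs (R (jx x) - V (jx x)) (z (jx x) ω))
    (fun ω => zt (V (jx x)) (R (jx x) - V (jx x)) (z (jx x) ω)) Z hZ
    (V := V (jx x)) (H := H₁) (R := V (jx x) + H₁) (V' := V (jx x))
    (H' := R (jx x) - V (jx x)) (R' := V (jx x) + (R (jx x) - V (jx x))) le_rfl hH (by omega)
    (fun ω => rd_grid _ _) (fun ω => rd_grid _ _) (fun ω => rd_grid _ _)
    (by norm_num : (0 : ℝ) ≤ 800) hn.na hn.ns hn.nt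
  refine key.trans ?_
  have e1 : V (jx x) - V (jx x) = 0 := by omega
  have e2 : V (jx x) + (R (jx x) - V (jx x)) - (V (jx x) + H₁) = R (jx x) - V (jx x) - H₁ := by
    omega
  rw [e1, e2]
  have e3 : (2 : ℝ) * 800 + 1 = 1601 := by norm_num
  rw [e3]
  push_cast
  exact le_of_eq (by ring)

/-- The digits of the exact frame. -/
theorem lab_x (hM : Fms F B i₀ N w V R Pu PN τ y z al nu k b) (hL : Lvm N w V R)
    (hX : Mxi J N w m wa wb jx) (hB : Sub B' B)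
    (hc : ∀ ω, B' ω → offs (V m) (R m - V m) (al ω) (k ω) (y ω) (z m ω) = c)
    (h1 : wa ≤ x) (h2 : x ≤ wb) {Vx Hx Rx nV nH : ℕ} (hV : nV ≤ V (jx x)) (hVx : nV ≤ Vx)
    (hH : nH ≤ R m - V m) (hHx : nH ≤ Hx) (hR : nV + nH ≤ R m) (hp : ∀ ω, 0 < p ω → B' ω)
    (hl : IsLaw p) {Γ : Type} (Z : F.Ω → Γ)
    (hZ : Det p Z (fun ω => (awx V jx c.2.2 z x ω, zs (R m - V m) (z m ω),
      zt (V m) (R m - V m) (z m ω)))) :
    CH p (fun ω => (xa Vx (al ω), xs Hx (y ω), xt Vx Hx Rx (al ω) (k ω) (y ω))) Z ≤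
      (((Vx - nV : ℕ) : ℝ) + ((Hx - nH : ℕ) : ℝ) + ((Rx - (nV + nH) : ℕ) : ℝ)) * Real.log 2 +
        3 * Real.log 1001 := by
  have hj : jx x ≤ N := (hX.le x h1 h2).trans hX.mN
  obtain ⟨nR, hnR⟩ : ∃ nR, nR = min Rx (nV + nH) := ⟨_, rfl⟩
  have hR1 : nR ≤ Rx := by rw [hnR]; exact min_le_left _ _
  have hR2 : nR ≤ nV + nH := by rw [hnR]; exact min_le_right _ _
  have c1 : ∀ {n n' : ℕ} {a : ℝ}, 0 ≤ a → n ≤ n' → a / (2 : ℝ) ^ n' ≤ a / 2 ^ n := by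
    intro n n' a ha hn
    exact div_le_div_of_nonneg_left ha (by positivity) (pow_le_pow_right₀ (by norm_num) hn)
  have ga : ∀ ω, B' ω → |xa Vx (al ω) - awx V jx c.2.2 z x ω| ≤ 25 / 2 ^ nV := by
    intro ω hω
    obtain ⟨g1, g2, g3, g4, g5, g6⟩ := base hM hL hX hB hc h1 h2 hω
    have e1 : xa Vx (al ω) - awx V jx c.2.2 z x ω = (rd Vx (al ω) - al ω) +
        (al ω - awx V jx c.2.2 z x ω) := by
      unfold xa
      ring
    rw [e1]
    refine (abs_add_le _ _).trans ((add_le_add ((rd_near _ _).trans (c1 (by norm_num) hVx))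
      (g1.trans (c1 (by norm_num) hV))).trans (le_of_eq ?_))
    ring
  have gs : ∀ ω, B' ω → |xs Hx (y ω) - zs (R m - V m) (z m ω)| ≤ 10 / 2 ^ nH := by
    intro ω hω
    obtain ⟨g1, g2, g3, g4, g5, g6⟩ := base hM hL hX hB hc h1 h2 hω
    have e1 : xs Hx (y ω) - zs (R m - V m) (z m ω) = (rd Hx (-(y ω).s) - -(y ω).s) -
        ((y ω).s + zs (R m - V m) (z m ω)) := by
      unfold xs
      ring
    rw [e1]
    refine (abs_sub _ _).trans ((add_le_add ((rd_near _ _).trans (c1 (by norm_num) hHx))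
      (g4.trans (c1 (by norm_num) hH))).trans (le_of_eq ?_))
    ring
  have key := lab3 hl (awx V jx c.2.2 z x) (fun ω => zs (R m - V m) (z m ω))
    (fun ω => zt (V m) (R m - V m) (z m ω)) (fun ω => xa Vx (al ω)) (fun ω => xs Hx (y ω))
    (fun ω => xt Vx Hx Rx (al ω) (k ω) (y ω)) Z hZ
    (V := nV) (H := nH) (R := nR) (V' := Vx) (H' := Hx) (R' := Rx) hVx hHx hR1
    (fun ω => rd_grid _ _) (fun ω => rd_grid _ _) (fun ω => rd_grid _ _)
    (by norm_num : (0 : ℝ) ≤ 500)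
    (fun ω hω => (ga ω (hp ω hω)).trans
      (div_le_div_of_nonneg_right (by norm_num) (by positivity)))
    (fun ω hω => (gs ω (hp ω hω)).trans
      (div_le_div_of_nonneg_right (by norm_num) (by positivity)))
    (fun ω hω => by
      obtain ⟨g1, g2, g3, g4, g5, g6⟩ := base hM hL hX hB hc h1 h2 (hp ω hω)
      have m1 : |(-(y ω).s - xs Hx (y ω)) * (xa Vx (al ω) - al ω)| ≤ 1 / 2 ^ (nV + nH) := by
        rw [abs_mul]
        have a1 : |-(y ω).s - xs Hx (y ω)| ≤ 1 / 2 ^ nH := by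
          rw [abs_sub_comm]
          exact (rd_near _ _).trans (c1 (by norm_num) hHx)
        have a2 : |xa Vx (al ω) - al ω| ≤ 1 / 2 ^ nV :=
          (rd_near _ _).trans (c1 (by norm_num) hVx)
        refine (mul_le_mul a1 a2 (abs_nonneg _) (by positivity)).trans (le_of_eq ?_)
        rw [pow_add]
        field_simp
      have m2 : |(xs Hx (y ω) - zs (R m - V m) (z m ω)) * (al ω - awx V jx c.2.2 z x ω)| ≤
          240 / 2 ^ (nV + nH) := by
        rw [abs_mul]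
        refine (mul_le_mul (gs ω (hp ω hω)) (g1.trans (c1 (by norm_num) hV)) (abs_nonneg _)
          (by positivity)).trans (le_of_eq ?_)
        rw [pow_add]
        field_simp
        norm_num
      have m3 := (rd_near Rx (-(y ω).c + k ω + (-(y ω).s - xs Hx (y ω)) *
        xa Vx (al ω))).trans (c1 (by norm_num) hR1)
      have m4 := g6.trans (c1 (by norm_num) (hR2.trans hR))
      have m5 := m1.trans (c1 (by norm_num) hR2)
      have m6 := m2.trans (c1 (by norm_num) hR2)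
      have e1 : xt Vx Hx Rx (al ω) (k ω) (y ω) - zt (V m) (R m - V m) (z m ω) +
          (xs Hx (y ω) - zs (R m - V m) (z m ω)) * awx V jx c.2.2 z x ω =
          (rd Rx (-(y ω).c + k ω + (-(y ω).s - xs Hx (y ω)) * xa Vx (al ω)) -
            (-(y ω).c + k ω + (-(y ω).s - xs Hx (y ω)) * xa Vx (al ω))) -
          (zt (V m) (R m - V m) (z m ω) - T2 (R m - V m) (al ω) (k ω) (y ω) (z m ω)) +
          (-(y ω).s - xs Hx (y ω)) * (xa Vx (al ω) - al ω) -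
          (xs Hx (y ω) - zs (R m - V m) (z m ω)) * (al ω - awx V jx c.2.2 z x ω) := by
        unfold T2 xt
        ring
      have e2 : (500 : ℝ) / 2 ^ nR = 1 / 2 ^ nR + 162 / 2 ^ nR + 1 / 2 ^ nR + 240 / 2 ^ nR +
        96 / 2 ^ nR := by ring
      have e3 : (0 : ℝ) ≤ 96 / 2 ^ nR := by positivity
      rw [e1, e2]
      rw [abs_le] at m3 m4 m5 m6 ⊢
      constructor <;> linarith [m3.1, m3.2, m4.1, m4.2, m5.1, m5.2, m6.1, m6.2])
  refine key.trans ?_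
  have e1 : Rx - nR = Rx - (nV + nH) := by omega
  have e3 : (2 : ℝ) * 500 + 1 = 1001 := by norm_num
  rw [e1, e3]

end two

end Pool.H3X
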