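import Pool.Agent.H65.S6.Brg
import Pool.Agent.H97.S6.Lev
import Pool.Agent.H2.UST.Cls

/-!
# The frames of the U-step from the frames of the zone

On an event on which the rounding of the plank of one window `w m` is constant relative to the
exact plank, the rounded plank is a function of the exact point: `UFr` on the windows above `w m`.
-/

set_option autoImplicit false

namespace Pool.H3X

open Finset Real
open Pool.Agent.H32.Dense hiding rd
open Pool.KSAT hiding zs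
open Pool.Agent.H49.Ent Pool.STK Pool.KA Pool.K2S Pool.PB Pool.KS6 Pool.S6C Pool.S6N Pool.UST

/-- A function of the condition. -/
theorem exists_fn {Ω T U : Type} [Inhabited U] (P : Ω → Prop) (X : Ω → T) (f : Ω → U)
    (h : ∀ ω ω', P ω → P ω' → X ω = X ω' → f ω = f ω') :
    ∃ g : T → U, ∀ ω, P ω → f ω = g (X ω) := by
  classical
  refine ⟨fun u => if hu : ∃ ω, P ω ∧ X ω = u then f hu.choose else default, fun ω hω => ?_⟩
  have hu : ∃ ω', P ω' ∧ X ω' = X ω := ⟨ω, hω, rfl⟩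
  show f ω = if hu : ∃ ω', P ω' ∧ X ω' = X ω then f hu.choose else default
  rw [dif_pos hu]
  exact h ω _ hω hu.choose_spec.1 hu.choose_spec.2.symm

/-- The exact value of the second slope. -/
noncomputable def T2 (H : ℕ) (al k : ℝ) (y z : Pln) : ℝ := -y.c + k + (-y.s - zs H z) * al

/-- The offsets of the rounding. -/
noncomputable def offs (V H : ℕ) (al k : ℝ) (y z : Pln) : ℤ × ℤ × ℤ :=
  (⌊(2 : ℝ) ^ H * (-z.s)⌋ - ⌊(2 : ℝ) ^ H * (-y.s)⌋,
    ⌊(2 : ℝ) ^ (V + H) * (-z.c + (-z.s - zs H z) * za V z)⌋ - ⌊(2 : ℝ) ^ (V + H) * T2 H al k y z⌋,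
    ⌊al⌋)

section one

variable {V H : ℕ} {y z : Pln} {al k : ℝ}

theorem zs_near (h : Nfr V H (V + H) 8 y z) : |y.s + zs H z| ≤ 9 / 2 ^ H := by
  have h1 := rd_near H (-z.s)
  have h2 := h.s
  have e1 : y.s + zs H z = (y.s - z.s) + (rd H (-z.s) - -z.s) := by
    unfold zs
    ring
  rw [e1]
  refine (abs_add_le _ _).trans ((add_le_add h2 h1).trans (le_of_eq ?_))
  ring

theorem zt_near (h : Nfr V H (V + H) 8 y z) (ha : |al - y.e| ≤ 8 / 2 ^ V)
    (hk : |k| ≤ 8 / 2 ^ (V + H)) : |zt V H z - T2 H al k y z| ≤ 162 / 2 ^ (V + H) := by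
  have pV : (0 : ℝ) < 2 ^ V := by positivity
  have pH : (0 : ℝ) < 2 ^ H := by positivity
  have h1 := rd_near (V + H) (-z.c + (-z.s - zs H z) * za V z)
  have h2 := rd_near V z.e
  have h3 := rd_near H (-z.s)
  have h4 := h.c
  have h5 := zs_near h
  have h6 : |al - z.e| ≤ 16 / 2 ^ V := by
    have e1 : al - z.e = (al - y.e) + (y.e - z.e) := by ring
    rw [e1]
    refine (abs_add_le _ _).trans ((add_le_add ha h.e).trans (le_of_eq ?_))
    ring
  have m1 : |(y.s + zs H z) * (al - z.e)| ≤ 144 / 2 ^ (V + H) := by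
    rw [abs_mul]
    refine (mul_le_mul h5 h6 (abs_nonneg _) (by positivity)).trans (le_of_eq ?_)
    rw [pow_add]
    field_simp
    norm_num
  have m2 : |(z.s + zs H z) * (za V z - z.e)| ≤ 1 / 2 ^ (V + H) := by
    rw [abs_mul]
    have h3' : |z.s + zs H z| ≤ 1 / 2 ^ H := by
      have e : z.s + zs H z = rd H (-z.s) - -z.s := by
        unfold zs
        ring
      rw [e]
      exact h3
    refine (mul_le_mul h3' h2 (abs_nonneg _) (by positivity)).trans (le_of_eq ?_)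
    rw [pow_add]
    field_simp
  have e1 : zt V H z - T2 H al k y z =
      (rd (V + H) (-z.c + (-z.s - zs H z) * za V z) - (-z.c + (-z.s - zs H z) * za V z)) +
      Ae y.c y.s z.c z.s z.e - k + (y.s + zs H z) * (al - z.e) -
      (z.s + zs H z) * (za V z - z.e) := by
    unfold zt T2 Ae
    ring
  have e2 : (162 : ℝ) / 2 ^ (V + H) = 1 / 2 ^ (V + H) + 8 / 2 ^ (V + H) + 8 / 2 ^ (V + H) +
      144 / 2 ^ (V + H) + 1 / 2 ^ (V + H) := by ring
  rw [e1, e2]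
  rw [abs_le] at h1 h4 hk m1 m2 ⊢
  constructor <;> linarith [h1.1, h1.2, h4.1, h4.2, hk.1, hk.2, m1.1, m1.2, m2.1, m2.2]

/-- The offsets are bounded. -/
theorem offs_le (h : Nfr V H (V + H) 8 y z) (ha : |al - y.e| ≤ 8 / 2 ^ V)
    (hk : |k| ≤ 8 / 2 ^ (V + H)) (hy : |y.e| ≤ 2) :
    |(offs V H al k y z).1| ≤ 200 ∧ |(offs V H al k y z).2.1| ≤ 200 ∧
      |(offs V H al k y z).2.2| ≤ 200 := by
  have pH : (0 : ℝ) < 2 ^ H := by positivity
  have pR : (0 : ℝ) < 2 ^ (V + H) := by positivity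
  refine ⟨?_, ?_, ?_⟩
  · have h1 : |2 ^ H * (-z.s) - 2 ^ H * (-y.s)| ≤ 8 := by
      have e : (2 : ℝ) ^ H * (-z.s) - 2 ^ H * (-y.s) = 2 ^ H * (y.s - z.s) := by ring
      rw [e, abs_mul, abs_of_pos pH]
      refine (mul_le_mul_of_nonneg_left h.s pH.le).trans (le_of_eq ?_)
      field_simp
    have h2 := floor_diff h1
    have h3 : |((offs V H al k y z).1 : ℝ)| ≤ 200 := by
      refine le_trans (le_of_eq ?_) (h2.trans (by norm_num))
      rfl
    exact_mod_cast h3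
  · have h1 := zt_near h ha hk
    have h2 := rd_near (V + H) (-z.c + (-z.s - zs H z) * za V z)
    have h3 : |2 ^ (V + H) * (-z.c + (-z.s - zs H z) * za V z) -
        2 ^ (V + H) * T2 H al k y z| ≤ 163 := by
      rw [← mul_sub, abs_mul, abs_of_pos pR]
      have h4 : |-z.c + (-z.s - zs H z) * za V z - T2 H al k y z| ≤ 163 / 2 ^ (V + H) := by
        have e : -z.c + (-z.s - zs H z) * za V z - T2 H al k y z =
            (zt V H z - T2 H al k y z) - (rd (V + H) (-z.c + (-z.s - zs H z) * za V z) -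
              (-z.c + (-z.s - zs H z) * za V z)) := by
          unfold zt
          ring
        rw [e]
        refine (abs_sub _ _).trans ((add_le_add h1 h2).trans (le_of_eq ?_))
        ring
      refine (mul_le_mul_of_nonneg_left h4 pR.le).trans (le_of_eq ?_)
      field_simp
    have h5 := floor_diff h3
    have h6 : |((offs V H al k y z).2.1 : ℝ)| ≤ 200 := by
      refine le_trans (le_of_eq ?_) (h5.trans (by norm_num))
      rfl
    exact_mod_cast h6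
  · have h1 : (8 : ℝ) / 2 ^ V ≤ 8 := div_le_self (by norm_num) (one_le_pow₀ (by norm_num))
    have h2 : |al| ≤ 10 := by
      rw [abs_le] at ha hy ⊢
      constructor <;> linarith [ha.1, ha.2, hy.1, hy.2]
    have h3 : |(⌊al⌋ : ℝ)| ≤ 200 := by
      have a1 := Int.floor_le al
      have a2 := Int.lt_floor_add_one al
      rw [abs_le] at h2 ⊢
      constructor <;> linarith [h2.1, h2.2]
    have h4 : |((offs V H al k y z).2.2 : ℝ)| ≤ 200 := h3
    exact_mod_cast h4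

/-- The frame as a function of the exact plank and the offsets. -/
noncomputable def zsO (H : ℕ) (c : ℤ × ℤ × ℤ) (y : Pln) : ℝ :=
  (⌊(2 : ℝ) ^ H * (-y.s)⌋ + c.1 : ℤ) / 2 ^ H

/-- The frame as a function of the exact plank and the offsets. -/
noncomputable def ztO (V H : ℕ) (c : ℤ × ℤ × ℤ) (al k : ℝ) (y : Pln) : ℝ :=
  (⌊(2 : ℝ) ^ (V + H) * (-y.c + k + (-y.s - zsO H c y) * al)⌋ + c.2.1 : ℤ) / 2 ^ (V + H)

theorem zs_eq {c : ℤ × ℤ × ℤ} (h : offs V H al k y z = c) : zs H z = zsO H c y := by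
  have h1 : c.1 = ⌊(2 : ℝ) ^ H * (-z.s)⌋ - ⌊(2 : ℝ) ^ H * (-y.s)⌋ := by rw [← h]; rfl
  unfold zs rd zsO
  rw [h1]
  push_cast
  ring

theorem zt_eq {c : ℤ × ℤ × ℤ} (h : offs V H al k y z = c) : zt V H z = ztO V H c al k y := by
  have h1 : c.2.1 = ⌊(2 : ℝ) ^ (V + H) * (-z.c + (-z.s - zs H z) * za V z)⌋ -
    ⌊(2 : ℝ) ^ (V + H) * T2 H al k y z⌋ := by rw [← h]; rfl
  have h2 : T2 H al k y z = -y.c + k + (-y.s - zsO H c y) * al := by
    unfold T2
    rw [zs_eq h]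
  unfold zt ztO
  rw [h1, h2]
  unfold rd
  push_cast
  ring

end one

/-- The slope labels of the U-step. -/
noncomputable def awx {Ω : Type} (V : ℕ → ℕ) (jx : ℕ → ℕ) (c₃ : ℤ) (z : ℕ → Ω → Pln) (x : ℕ)
    (ω : Ω) : ℝ :=
  if V (jx x) < 3 then (c₃ : ℝ) else rd (V (jx x) - 3) (z (jx x) ω).e

section two

variable {J : ℕ} {F : Fam 3 J} {B B' : F.Ω → Prop} {i₀ : Fin 3} {N : ℕ} {w V R : ℕ → ℕ}
  {Pu PN : ℕ} {τ : Fin 3 → Fin 3} {y : F.Ω → Pln} {z : ℕ → F.Ω → Pln} {al nu k b : F.Ω → ℝ}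
  {m wa wb : ℕ} {jx : ℕ → ℕ} {c : ℤ × ℤ × ℤ}

/-- The monotonicity of the levels. -/
structure Lvm (N : ℕ) (w V R : ℕ → ℕ) : Prop where
  VR : ∀ j ≤ N, V j ≤ R j
  V : ∀ i j, i ≤ j → j ≤ N → V j ≤ V i
  R : ∀ i j, i ≤ j → j ≤ N → R j ≤ R i

/-- The mesh indices of the windows of a rectangle. -/
structure Mxi (J N : ℕ) (w : ℕ → ℕ) (m wa wb : ℕ) (jx : ℕ → ℕ) : Prop where
  mN : m ≤ N
  mw : w m ≤ wa
  bJ : wb ≤ J
  le : ∀ x, wa ≤ x → x ≤ wb → jx x ≤ m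
  wx : ∀ x, wa ≤ x → x ≤ wb → w (jx x) ≤ x
  anti : ∀ x x', wa ≤ x → x ≤ x' → x' ≤ wb → jx x' ≤ jx x

/-- The facts on the planks at a sample. -/
theorem fact (hM : Fms F B i₀ N w V R Pu PN τ y z al nu k b) (hL : Lvm N w V R) {j : ℕ}
    (hj : j ≤ N) {ω : F.Ω} (hω : B ω) :
    Nfr (V j) (R j - V j) (V j + (R j - V j)) 8 (y ω) (z j ω) ∧
      |al ω - (y ω).e| ≤ 8 / 2 ^ V j ∧ |k ω| ≤ 8 / 2 ^ (V j + (R j - V j)) ∧ |(y ω).e| ≤ 2 ∧
      V j + (R j - V j) = R j := by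
  have hVR := hL.VR j hj
  have e : V j + (R j - V j) = R j := by omega
  rw [e]
  refine ⟨hM.frx.nr j hj ω hω, ?_, ?_, (hM.frx.inc ω hω).e_le, rfl⟩
  · exact (hM.fre.ae ω hω).trans (div_le_div_of_nonneg_left (by norm_num) (by positivity)
      (pow_le_pow_right₀ (by norm_num) (hL.V 0 j (Nat.zero_le j) hj)))
  · exact (hM.fre.kb ω hω).trans (div_le_div_of_nonneg_left (by norm_num) (by positivity)
      (pow_le_pow_right₀ (by norm_num) (hL.R 0 j (Nat.zero_le j) hj)))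

/-- The slope labels are near the slopes. -/
theorem awx_near (hM : Fms F B i₀ N w V R Pu PN τ y z al nu k b) (hL : Lvm N w V R) {x : ℕ}
    (hj : jx x ≤ N) {c₃ : ℤ} {ω : F.Ω} (hω : B ω) (hc : ⌊al ω⌋ = c₃) :
    |al ω - awx V jx c₃ z x ω| ≤ 3 / 2 ^ (V (jx x) - 3) ∧
      |al ω - awx V jx c₃ z x ω| ≤ 24 / 2 ^ V (jx x) := by
  obtain ⟨h1, h2, h3, h4, h5⟩ := fact hM hL hj hω
  by_cases h : V (jx x) < 3
  · have e0 : V (jx x) - 3 = 0 := by omega
    have e1 : awx V jx c₃ z x ω = c₃ := if_pos h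
    rw [e0, e1, ← hc]
    have a1 := Int.floor_le (al ω)
    have a2 := Int.lt_floor_add_one (al ω)
    have a3 : |al ω - ⌊al ω⌋| ≤ 1 := by
      rw [abs_le]
      constructor <;> linarith
    refine ⟨a3.trans (by norm_num), a3.trans ?_⟩
    rw [le_div_iff₀ (by positivity), one_mul]
    have : (2 : ℝ) ^ V (jx x) ≤ 2 ^ 3 := pow_le_pow_right₀ (by norm_num) h.le
    linarith
  · have e1 : awx V jx c₃ z x ω = rd (V (jx x) - 3) (z (jx x) ω).e := if_neg h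
    have e2 : (2 : ℝ) ^ V (jx x) = 8 * 2 ^ (V (jx x) - 3) := by
      have : V (jx x) = 3 + (V (jx x) - 3) := by omega
      conv_lhs => rw [this, pow_add]
      norm_num
    have a1 := rd_near (V (jx x) - 3) (z (jx x) ω).e
    have a2 := h1.e
    have a3 : |al ω - awx V jx c₃ z x ω| ≤ 3 / 2 ^ (V (jx x) - 3) := by
      rw [e1]
      rw [e2] at a2 h2
      have e3 : al ω - rd (V (jx x) - 3) (z (jx x) ω).e = (al ω - (y ω).e) +
          ((y ω).e - (z (jx x) ω).e) - (rd (V (jx x) - 3) (z (jx x) ω).e - (z (jx x) ω).e) := by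
        ring
      have e4 : (8 : ℝ) / (8 * 2 ^ (V (jx x) - 3)) = 1 / 2 ^ (V (jx x) - 3) := by
        field_simp
      rw [e4] at a2 h2
      have e5 : (3 : ℝ) / 2 ^ (V (jx x) - 3) = 1 / 2 ^ (V (jx x) - 3) + 1 / 2 ^ (V (jx x) - 3) +
        1 / 2 ^ (V (jx x) - 3) := by ring
      rw [e3, e5]
      rw [abs_le] at a1 a2 h2 ⊢
      constructor <;> linarith [a1.1, a1.2, a2.1, a2.2, h2.1, h2.2]
    refine ⟨a3, a3.trans (le_of_eq ?_)⟩
    rw [e2]
    field_simp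
    norm_num

/-- **The frames of the U-step.** -/
theorem ufr_of (hM : Fms F B i₀ N w V R Pu PN τ y z al nu k b) (hL : Lvm N w V R)
    (hX : Mxi J N w m wa wb jx) (hB : Sub B' B)
    (hc : ∀ ω, B' ω → offs (V m) (R m - V m) (al ω) (k ω) (y ω) (z m ω) = c) :
    ∃ al' nu' k' b' : (Fin 3 → ℤ) × (ℕ × F.ζ) → ℝ,
      (∀ ω, B ω → al ω = al' (Fam.pt F ω)) ∧
      UFr F B' τ (w m) wa wb (fun x => V (jx x) - 3) (R m) Pu (min PN (R m - V m + Pu))
        al' nu' k' b' (awx V jx c.2.2 z) (fun ω => zs (R m - V m) (z m ω))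
        (fun ω => zt (V m) (R m - V m) (z m ω)) 200 200 := by
  obtain ⟨φ, hφ⟩ := hM.frx.yp
  have hφ' : ∀ ω, B ω → y ω = φ (Fam.pt F ω) := hφ
  obtain ⟨al', hal⟩ := exists_fn B (Fam.pt F) al fun ω ω' h1 h2 e => (hM.fre.fp ω ω' h1 h2 e).1
  obtain ⟨nu', hnu⟩ := exists_fn B (Fam.pt F) nu fun ω ω' h1 h2 e => (hM.fre.fp ω ω' h1 h2 e).2.1
  obtain ⟨k0, hk0⟩ := exists_fn B (Fam.pt F) k fun ω ω' h1 h2 e => (hM.fre.fp ω ω' h1 h2 e).2.2.1
  obtain ⟨b0, hb0⟩ := exists_fn B (Fam.pt F) b fun ω ω' h1 h2 e => (hM.fre.fp ω ω' h1 h2 e).2.2.2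
  obtain ⟨H, hH⟩ : ∃ H, H = R m - V m := ⟨_, rfl⟩
  have hR : V m + H = R m := by
    rw [hH]
    exact (Nat.add_sub_of_le (hL.VR m hX.mN))
  rw [← hH] at hc
  obtain ⟨ss, hss⟩ : ∃ ss : (Fin 3 → ℤ) × (ℕ × F.ζ) → ℝ, ss = fun u => zsO H c (φ u) := ⟨_, rfl⟩
  obtain ⟨tt, htt⟩ : ∃ tt : (Fin 3 → ℤ) × (ℕ × F.ζ) → ℝ,
    tt = fun u => ztO (V m) H c (al' u) (k0 u) (φ u) := ⟨_, rfl⟩
  have hs : ∀ ω, B' ω → zs H (z m ω) = ss (Fam.pt F ω) := by
    intro ω hω
    rw [hss]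
    show _ = zsO H c (φ (Fam.pt F ω))
    rw [← hφ' ω (hB ω hω)]
    exact zs_eq (hc ω hω)
  have ht : ∀ ω, B' ω → zt (V m) H (z m ω) = tt (Fam.pt F ω) := by
    intro ω hω
    rw [htt]
    show _ = ztO (V m) H c (al' (Fam.pt F ω)) (k0 (Fam.pt F ω)) (φ (Fam.pt F ω))
    rw [← hφ' ω (hB ω hω), ← hal ω (hB ω hω), ← hk0 ω (hB ω hω)]
    exact zt_eq (hc ω hω)
  have hfl : ∀ ω, B' ω → ⌊al ω⌋ = c.2.2 := by
    intro ω hω
    rw [← hc ω hω]
    rfl
  refine ⟨al', nu', fun u => k0 u + (-(φ u).c - tt u) + (-(φ u).s - ss u) * al' u,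
    fun u => b0 u + (-(φ u).s - ss u) * nu' u, hal, ?_⟩
  rw [← hH]
  have hfac : ∀ ω, B' ω → |(y ω).s + zs H (z m ω)| ≤ 9 / 2 ^ H ∧
      |zt (V m) H (z m ω) - T2 H (al ω) (k ω) (y ω) (z m ω)| ≤ 162 / 2 ^ R m := by
    intro ω hω
    obtain ⟨h1, h2, h3, h4, h5⟩ := fact hM hL hX.mN (hB ω hω)
    rw [← hH] at h1 h3
    refine ⟨zs_near h1, ?_⟩
    rw [← hR]
    exact zt_near h1 h2 h3
  refine ⟨?_, by norm_num, by norm_num, hX.mw, hX.bJ, ?_, ?_, ?_, ?_, ?_, ?_, ?_, ?_, ?_, ?_, ?_⟩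
  · exact Finite.injective_iff_bijective.1 hM.inj
  · intro x x' h1 h2 h3
    exact Nat.sub_le_sub_right (hL.V _ _ (hX.anti x x' h1 h2 h3)
      ((hX.le x h1 (h2.trans h3)).trans hX.mN)) 3
  · intro ω hω
    rw [← hal ω (hB ω hω), ← hnu ω (hB ω hω)]
    refine (hM.fre.su ω (hB ω hω)).trans ?_
    exact div_le_div_of_nonneg_right (by norm_num) (by positivity)
  · intro ω hω
    show |F.d ω (τ 2) - zs H (z m ω) * F.d ω (τ 1) - zt (V m) H (z m ω) * F.d ω (τ 0) -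
      (b0 (Fam.pt F ω) + (-(φ (Fam.pt F ω)).s - ss (Fam.pt F ω)) * nu' (Fam.pt F ω)) -
      (k0 (Fam.pt F ω) + (-(φ (Fam.pt F ω)).c - tt (Fam.pt F ω)) +
        (-(φ (Fam.pt F ω)).s - ss (Fam.pt F ω)) * al' (Fam.pt F ω)) * F.d ω (τ 0)| ≤ _
    rw [← hs ω hω, ← ht ω hω, ← hφ' ω (hB ω hω), ← hal ω (hB ω hω), ← hnu ω (hB ω hω),
      ← hk0 ω (hB ω hω), ← hb0 ω (hB ω hω)]
    have g1 := hM.fre.su ω (hB ω hω)
    have g2 := hM.fre.sN ω (hB ω hω)
    have g3 := (hfac ω hω).1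
    have g4 : |-(y ω).s - zs H (z m ω)| ≤ 9 / 2 ^ H := by
      have e : -(y ω).s - zs H (z m ω) = -((y ω).s + zs H (z m ω)) := by ring
      rw [e, abs_neg]
      exact g3
    have e1 : F.d ω (τ 2) - zs H (z m ω) * F.d ω (τ 1) - zt (V m) H (z m ω) * F.d ω (τ 0) -
        (b ω + (-(y ω).s - zs H (z m ω)) * nu ω) -
        (k ω + (-(y ω).c - zt (V m) H (z m ω)) + (-(y ω).s - zs H (z m ω)) * al ω) *
          F.d ω (τ 0) =
        (fn (τ 0) (τ 1) (τ 2) (y ω).c (y ω).s (F.d ω) - b ω - k ω * F.d ω (τ 0)) +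
        (-(y ω).s - zs H (z m ω)) * (F.d ω (τ 1) - al ω * F.d ω (τ 0) - nu ω) := by
      unfold fn
      ring
    rw [e1]
    refine (abs_add_le _ _).trans ?_
    rw [abs_mul]
    have g5 : |-(y ω).s - zs H (z m ω)| * |F.d ω (τ 1) - al ω * F.d ω (τ 0) - nu ω| ≤
        9 / 2 ^ (H + Pu) := by
      refine (mul_le_mul g4 g1 (abs_nonneg _) (by positivity)).trans (le_of_eq ?_)
      rw [pow_add]
      field_simp
    have g6 : (1 : ℝ) / 2 ^ PN ≤ 1 / 2 ^ (min PN (H + Pu)) := inv_pow_mono (min_le_left _ _)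
    have g7 : (9 : ℝ) / 2 ^ (H + Pu) ≤ 9 / 2 ^ (min PN (H + Pu)) :=
      div_le_div_of_nonneg_left (by norm_num) (by positivity)
        (pow_le_pow_right₀ (by norm_num) (min_le_right _ _))
    have e2 : (200 : ℝ) / 2 ^ (min PN (H + Pu)) = 1 / 2 ^ (min PN (H + Pu)) +
      9 / 2 ^ (min PN (H + Pu)) + 190 / 2 ^ (min PN (H + Pu)) := by ring
    have e3 : (0 : ℝ) ≤ 190 / 2 ^ (min PN (H + Pu)) := by positivity
    rw [e2]
    linarith
  · intro ω hω
    rw [← hal ω (hB ω hω)]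
    obtain ⟨h1, h2, h3, h4, h5⟩ := fact hM hL hX.mN (hB ω hω)
    have g1 : (8 : ℝ) / 2 ^ V m ≤ 8 := div_le_self (by norm_num) (one_le_pow₀ (by norm_num))
    rw [abs_le] at h2 h4 ⊢
    constructor <;> linarith [h2.1, h2.2, h4.1, h4.2]
  · intro ω hω
    obtain ⟨z1, z2, z3⟩ := hM.frx.zb m hX.mN ω (hB ω hω)
    have one : ∀ n : ℕ, (1 : ℝ) / 2 ^ n ≤ 1 := fun n =>
      div_le_self (by norm_num) (one_le_pow₀ (by norm_num))
    have r1 := (rd_near H (-(z m ω).s)).trans (one H)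
    have r2 := (rd_near (V m) (z m ω).e).trans (one _)
    have r3 := (rd_near (V m + H) (-(z m ω).c + (-(z m ω).s - zs H (z m ω)) *
      za (V m) (z m ω))).trans (one _)
    have r4 : |-(z m ω).s - zs H (z m ω)| ≤ 1 := by
      rw [abs_sub_comm]
      exact r1
    have r5 : |za (V m) (z m ω)| ≤ 21 := by
      have e : za (V m) (z m ω) = (rd (V m) (z m ω).e - (z m ω).e) + (z m ω).e := by
        unfold za
        ring
      rw [e]
      exact (abs_add_le _ _).trans (by linarith)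
    have r6 : |(-(z m ω).s - zs H (z m ω)) * za (V m) (z m ω)| ≤ 21 := by
      rw [abs_mul]
      exact (mul_le_mul r4 r5 (abs_nonneg _) zero_le_one).trans (by norm_num)
    have e1 : zs H (z m ω) = (rd H (-(z m ω).s) - -(z m ω).s) - (z m ω).s := by
      unfold zs
      ring
    have e2 : zt (V m) H (z m ω) = (rd (V m + H) (-(z m ω).c + (-(z m ω).s - zs H (z m ω)) *
        za (V m) (z m ω)) - (-(z m ω).c + (-(z m ω).s - zs H (z m ω)) * za (V m) (z m ω))) -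
        (z m ω).c + (-(z m ω).s - zs H (z m ω)) * za (V m) (z m ω) := by
      unfold zt
      ring
    constructor
    · show |zs H (z m ω)| ≤ 200
      rw [e1]
      rw [abs_le] at r1 z3 ⊢
      constructor <;> linarith [r1.1, r1.2, z3.1, z3.2]
    · show |zt (V m) H (z m ω)| ≤ 200
      rw [e2]
      rw [abs_le] at r3 z2 r6 ⊢
      constructor <;> linarith [r3.1, r3.2, z2.1, z2.2, r6.1, r6.2]
  · intro x h1 h2 ω hω
    rw [← hal ω (hB ω hω)]
    exact (awx_near hM hL ((hX.le x h1 h2).trans hX.mN) (hB ω hω) (hfl ω hω)).1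
  · intro x h1 h2 ω
    by_cases h : V (jx x) < 3
    · refine ⟨c.2.2, ?_⟩
      have e0 : V (jx x) - 3 = 0 := by omega
      have e1 : awx V jx c.2.2 z x ω = c.2.2 := if_pos h
      rw [e1, e0]
      simp
    · have e1 : awx V jx c.2.2 z x ω = rd (V (jx x) - 3) (z (jx x) ω).e := if_neg h
      rw [e1]
      exact rd_grid _ _
  · intro ω hω
    show |k0 (Fam.pt F ω) + (-(φ (Fam.pt F ω)).c - tt (Fam.pt F ω)) +
        (-(φ (Fam.pt F ω)).s - ss (Fam.pt F ω)) * al' (Fam.pt F ω)| ≤ 200 / 2 ^ R m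
    rw [← hs ω hω, ← ht ω hω, ← hφ' ω (hB ω hω), ← hal ω (hB ω hω), ← hk0 ω (hB ω hω)]
    have g1 := (hfac ω hω).2
    have e1 : k ω + (-(y ω).c - zt (V m) H (z m ω)) + (-(y ω).s - zs H (z m ω)) * al ω =
        -(zt (V m) H (z m ω) - T2 H (al ω) (k ω) (y ω) (z m ω)) := by
      unfold T2
      ring
    rw [e1, abs_neg]
    exact g1.trans (div_le_div_of_nonneg_right (by norm_num) (by positivity))
  · intro x h1 h2 ω ω' hω hω' e
    by_cases h : V (jx x) < 3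
    · have e1 : ∀ ω, awx V jx c.2.2 z x ω = c.2.2 := fun _ => if_pos h
      rw [e1, e1]
    · have e1 : ∀ ω, awx V jx c.2.2 z x ω = rd (V (jx x) - 3) (z (jx x) ω).e := fun _ =>
        if_neg h
      obtain ⟨χ, hχ⟩ := hM.frx.zs (jx x) ((hX.le x h1 h2).trans hX.mN)
      have e2 : slam F (w (jx x)) ω = slam F (w (jx x)) ω' := by
        rw [Pool.PB.slam_coarse F (hX.wx x h1 h2) (h2.trans hX.bJ) ω,
          Pool.PB.slam_coarse F (hX.wx x h1 h2) (h2.trans hX.bJ) ω', e]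
      rw [e1, e1, hχ ω, hχ ω', e2]
  · intro ω ω' hω hω' e
    obtain ⟨χ, hχ⟩ := hM.frx.zs m hX.mN
    show (zs H (z m ω), zt (V m) H (z m ω)) = (zs H (z m ω'), zt (V m) H (z m ω'))
    rw [hχ ω, hχ ω', e]
  · refine ⟨fun u => (ss u, tt u), fun ω hω => ?_⟩
    show (zs H (z m ω), zt (V m) H (z m ω)) = (ss (Fam.pt F ω), tt (Fam.pt F ω))
    rw [hs ω hω, ht ω hω]

end two

end Pool.H3X
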