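import Pool.Agent.H65.S6.H3N

/-!
# The number of bad tiles in the zone
-/

set_option autoImplicit false

namespace Pool.H3X

open Finset Real
open Pool.Agent.H32.Dense hiding rd
open Pool.KSAT hiding zs
open Pool.Agent.H49.Ent Pool.STK Pool.KA Pool.K2S Pool.PB Pool.KS6 Pool.S6C Pool.S6N Pool.UST

section nm

variable {σ : ℝ → Row} {N : ℕ} {u : ℕ → ℚ} {w₀ v₀ v g ρ P e l CZ Y C₂ cw κ e' e₂ γ x₁ : ℝ}
  {n₀ J : ℕ}

/-- The room in the precision of the normal form. -/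
theorem Nm.lam (h : Nm σ N u w₀ v₀ v g ρ P e l CZ Y C₂ cw κ e' e₂ γ x₁ n₀ J) {wa x Λ : ℕ}
    (h1 : wl u J N ≤ wa) (hx1 : wa ≤ x) (hx2 : x ≤ wa + stp cw ((CZ + 1) * l) J)
    (h2 : x < wl u J 0) (hΛ : ρ * (cw * ((CZ + 1) * l) * J + 1) + e * J + 1 ≤ Λ) :
    rl u w₀ g ρ e J (mix u J x) - vl u w₀ v₀ v e J (mix u J x) - Λ ≤
        rl u w₀ g ρ e J (mix u J wa) - vl u w₀ v₀ v e J (mix u J wa) ∧
      vl u w₀ v₀ v e J (mix u J x) +
        (rl u w₀ g ρ e J (mix u J x) - vl u w₀ v₀ v e J (mix u J x) - Λ) ≤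
        rl u w₀ g ρ e J (mix u J wa) := by
  have hJ : (0 : ℝ) ≤ J := Nat.cast_nonneg J
  have hρ := h.Z.ρ0
  have hv := h.Z.v0
  have he := h.Z.e0
  have hl := h.l0
  have hCZ := h.CZ0
  obtain ⟨m1, m2, m3, m4, m5⟩ := mix_spec h1 (by omega : wa < wl u J 0)
  obtain ⟨n1, n2, n3, n4, n5⟩ := mix_spec (h1.trans hx1) h2
  obtain ⟨m, hm⟩ : ∃ m, m = mix u J wa := ⟨_, rfl⟩
  obtain ⟨j, hj⟩ : ∃ j, j = mix u J x := ⟨_, rfl⟩
  have hjm : j ≤ m := by
    rw [hj, hm]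
    exact Nat.sInf_le (m3.trans hx1)
  rw [← hm] at m1 m2 m3 m4 m5 ⊢
  rw [← hj] at n1 n2 n3 n4 n5 ⊢
  have hVV := vl_anti h.Z J hjm m2
  have hRV := vl_le_rl h.Z J m2
  have hRVj := vl_le_rl h.Z J n2
  -- the difference of the precisions
  obtain ⟨a1, a2⟩ := mesh_near h.Z m1 m2 m3 m5
  obtain ⟨b1, b2⟩ := mesh_near h.Z n1 n2 n3 n5
  have hs : ((x : ℝ) - wa) ≤ cw * ((CZ + 1) * l) * J + 1 := by
    have g1 : (x : ℝ) ≤ wa + stp cw ((CZ + 1) * l) J := by exact_mod_cast hx2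
    have g2 : ((stp cw ((CZ + 1) * l) J : ℕ) : ℝ) ≤ cw * ((CZ + 1) * l) * J + 1 := by
      have := h.cw0
      exact (Nat.ceil_lt_add_one (by positivity)).le
    linarith
  have hRR : (rl u w₀ g ρ e J j : ℝ) - rl u w₀ g ρ e J m ≤ Λ := by
    have hab : (g - w₀ + ρ * (u m - w₀) - 20 * e) * (J : ℝ) ≤
        (g - w₀ + ρ * (u j - w₀) - 20 * e) * (J : ℝ) := by
      refine mul_le_mul_of_nonneg_right ?_ hJ
      have := mul_le_mul_of_nonneg_left (h.Z.antiR hjm m2) hρ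
      linarith
    have g1 := floor_sub_le hab
    have g2 : ρ * ((wa : ℝ) + 1 - u m * J) ≤ e * J := by
      by_cases h4 : 0 ≤ (wa : ℝ) + 1 - u m * J
      · exact le_trans (mul_le_mul_of_nonneg_right (by linarith) h4) a2
      · have g3 : ρ * ((wa : ℝ) + 1 - u m * J) ≤ 0 :=
          mul_nonpos_of_nonneg_of_nonpos hρ (by linarith)
        have h5 : 0 ≤ e * J := by positivity
        linarith
    have g3 : ρ * (u j * (J : ℝ)) ≤ ρ * (x + 1) := mul_le_mul_of_nonneg_left b1.le hρ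
    have g4 : ρ * ((x : ℝ) - wa) ≤ ρ * (cw * ((CZ + 1) * l) * J + 1) :=
      mul_le_mul_of_nonneg_left hs hρ
    unfold rl
    refine g1.trans ?_
    have e1 : (g - w₀ + ρ * (u j - w₀) - 20 * e) * (J : ℝ) -
        (g - w₀ + ρ * (u m - w₀) - 20 * e) * J + 1 =
        ρ * (u j * J) - ρ * (u m * J) + 1 := by ring
    rw [e1]
    linarith
  have hRR' : rl u w₀ g ρ e J j ≤ rl u w₀ g ρ e J m + Λ := by
    have : (rl u w₀ g ρ e J j : ℝ) ≤ rl u w₀ g ρ e J m + Λ := by linarith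
    exact_mod_cast this
  have hVR : vl u w₀ v₀ v e J j ≤ rl u w₀ g ρ e J m := by
    have g1 := h.vl_le n2
    have g2 := h.rl_ge m2
    have g3 := mul_le_mul_of_nonneg_right h.gap hJ
    have g4 := h.T16
    have g5 := h.el
    have g6 : 100 * (e * J) ≤ l * J := by nlinarith
    have g7 : 0 ≤ v * (CZ * l) * J := by positivity
    have g8 : 0 ≤ CZ * l * (J : ℝ) := by positivity
    have : (vl u w₀ v₀ v e J j : ℝ) ≤ rl u w₀ g ρ e J m := by
      refine g1.trans (le_trans ?_ g2)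
      linarith
    exact_mod_cast this
  constructor <;> omega

/-- **The number of bad tiles.** -/
theorem Nm.count (h : Nm σ N u w₀ v₀ v g ρ P e l CZ Y C₂ cw κ e' e₂ γ x₁ n₀ J) {F : Fam 3 J}
    {B : F.Ω → Prop} {i₀ : Fin 3} {τ : Fin 3 → Fin 3} {y : F.Ω → Pln} {z : ℕ → F.Ω → Pln}
    {al nu k b : F.Ω → ℝ}
    (hM : Fms F B i₀ N (wl u J) (vl u w₀ v₀ v e J) (rl u w₀ g ρ e J)
      ⌊(P - g + v₀ + C₂ * l) * J⌋₊ ⌊(P - w₀ + C₂ * l) * J⌋₊ τ y z al nu k b)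
    (hB0 : 0 < Pe F.p B) {η θ₁ ε₁ : ℝ} (hη : 0 < η) (hθ₁ : 0 ≤ θ₁)
    (hUE : Uin F B i₀ η θ₁ ε₁ w₀ v₀ v (P - g) ((CZ + 1) * l) ((Y + 1) / (CZ + 1)) cw κ e₂ γ x₁ n₀)
    {d Λ Vx Hx Rx nV nH ql qh : ℕ} (hql : ql = ⌊(P - g - Y * l) * J⌋₊)
    (hqh : qh = ⌊(P - g + Y * l) * J⌋₊) (hd1 : κ * ((CZ + 1) * l) * J / 2 ≤ d)
    (hd2 : (d : ℝ) ≤ κ * ((CZ + 1) * l) * J)
    (hΛ : ρ * (cw * ((CZ + 1) * l) * J + 1) + e * J + 1 ≤ Λ)
    (hnV : ∀ j ≤ N, nV ≤ vl u w₀ v₀ v e J j) (hVx : nV ≤ Vx)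
    (hnH : ∀ j ≤ N, nH ≤ rl u w₀ g ρ e J j - vl u w₀ v₀ v e J j) (hHx : nH ≤ Hx)
    (hnR : ∀ j ≤ N, nV + nH ≤ rl u w₀ g ρ e J j) {K e₁ : ℝ} (he₁ : 0 < e₁) (hK0 : 0 ≤ K)
    (hX0 : 0 < n₀ * d)
    (hK : (2 * (Λ : ℝ)) * Real.log 2 + 3 * Real.log 1601 +
      ((((Vx - nV : ℕ) : ℝ) + ((Hx - nH : ℕ) : ℝ) + ((Rx - (nV + nH) : ℕ) : ℝ)) * Real.log 2 +
        3 * Real.log 1001) ≤ K)
    (hbig : 0 ≤ (2 - ε₁) * (n₀ * d : ℕ) * Real.log 2 - e₁ * (n₀ * d : ℕ) - Pool.S6U.brC 800)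
    (hstep : stp cw ((CZ + 1) * l) J + 1 ≤ wl u J 0 - wl u J N) {n : ℕ} (hn : 3 + n₀ * d ≤ n)
    {bd : ℝ} (hbd : bd ≤ (1 - 401 ^ 3 * η) * ((2 - ε₁) * (n₀ * d : ℕ) * Real.log 2 -
      e₁ * (n₀ * d : ℕ) - Pool.S6U.brC 800)) (Q : ℕ × ℕ → Prop) [DecidablePred Q]
    (hQ : ∀ x q, Q (x, q) → ¬ ∀ j, j ≤ N → wl u J j ≤ x → (∀ i < j, x < wl u J i) →
          bd ≤ CH (Pool.Agent.H49.Ent.cond F.p B True)
            (pd2 F τ x q (vl u w₀ v₀ v e J j) n
              (fun ω => za (vl u w₀ v₀ v e J j) (z j ω))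
              (fun ω => zs (rl u w₀ g ρ e J j - vl u w₀ v₀ v e J j) (z j ω))
              (fun ω => zt (vl u w₀ v₀ v e J j)
                (rl u w₀ g ρ e J j - vl u w₀ v₀ v e J j) (z j ω)))
            (fun ω => (Pool.S6N.ctx F τ x q (vl u w₀ v₀ v e J j)
                (rl u w₀ g ρ e J j - vl u w₀ v₀ v e J j - Λ)
                (fun ω => za (vl u w₀ v₀ v e J j) (z j ω))
                (fun ω => zs (rl u w₀ g ρ e J j - vl u w₀ v₀ v e J j) (z j ω))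
                (fun ω => zt (vl u w₀ v₀ v e J j)
                  (rl u w₀ g ρ e J j - vl u w₀ v₀ v e J j) (z j ω)) ω,
              gt F (fun ω => xa Vx (al ω)) (fun ω => xs Hx (y ω))
                (fun ω => xt Vx Hx Rx (al ω) (k ω) (y ω)) ω))) :
    ((((Finset.Ico (wl u J N) (wl u J 0)) ×ˢ (Finset.Ico ql qh)).filter Q).card : ℝ) ≤
      4 * 401 ^ 3 * (wl u J 0 - wl u J N : ℕ) * (θ₁ * (qh - ql : ℕ) + K / e₁) := by
  classical
  obtain ⟨s, hs⟩ : ∃ s, s = stp cw ((CZ + 1) * l) J := ⟨_, rfl⟩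
  rw [← hs] at hstep
  have hJ : (0 : ℝ) ≤ J := Nat.cast_nonneg J
  have hs0 : 1 ≤ s := by
    rw [hs]
    unfold stp
    rw [Nat.one_le_ceil_iff]
    have h1 := h.cw0
    have h2 := h.CZ0
    have h3 := h.l0
    have h4 := h.T16
    have h5 : 0 < l * J := by linarith
    have e1 : cw * ((CZ + 1) * l) * (J : ℝ) = cw * (CZ + 1) * (l * J) := by ring
    rw [e1]
    positivity
  obtain ⟨bs, hbs⟩ : ∃ bs : ℕ → ℕ, bs = fun i => min (wl u J N + i * s) (wl u J 0 - 1 - s) :=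
    ⟨_, rfl⟩
  have hbs1 : ∀ i, wl u J N ≤ bs i := by
    intro i
    rw [hbs]
    show _ ≤ min _ _
    refine le_min (Nat.le_add_right _ _) (by omega)
  have hbs2 : ∀ i, bs i + s < wl u J 0 := by
    intro i
    have : bs i ≤ wl u J 0 - 1 - s := by
      rw [hbs]
      exact min_le_right _ _
    omega
  obtain ⟨bt, hbt⟩ : ∃ bt : ℝ, bt = 401 ^ 3 * (θ₁ * ((s + 1 : ℕ) * (qh - ql : ℕ)) +
    (s + 1 : ℕ) * K / e₁) := ⟨_, rfl⟩
  have key : ∀ i : ℕ, ∃ Bt : Finset (ℕ × ℕ), (Bt.card : ℝ) ≤ bt ∧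
      ∀ x q, bs i ≤ x → x ≤ bs i + s → ql ≤ q → q < qh → (x, q + 3) ∉ Bt →
      (1 - 401 ^ 3 * η) * ((2 - ε₁) * (n₀ * d : ℕ) * Real.log 2 - e₁ * (n₀ * d : ℕ) -
        Pool.S6U.brC 800) ≤
        CH (Pool.Agent.H49.Ent.cond F.p B True)
          (pd2 F τ x q (vl u w₀ v₀ v e J (mix u J x)) n
            (fun ω => za (vl u w₀ v₀ v e J (mix u J x)) (z (mix u J x) ω))
            (fun ω => zs (rl u w₀ g ρ e J (mix u J x) - vl u w₀ v₀ v e J (mix u J x))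
              (z (mix u J x) ω))
            (fun ω => zt (vl u w₀ v₀ v e J (mix u J x))
              (rl u w₀ g ρ e J (mix u J x) - vl u w₀ v₀ v e J (mix u J x)) (z (mix u J x) ω)))
          (fun ω => (Pool.S6N.ctx F τ x q (vl u w₀ v₀ v e J (mix u J x))
            (rl u w₀ g ρ e J (mix u J x) - vl u w₀ v₀ v e J (mix u J x) - Λ)
            (fun ω => za (vl u w₀ v₀ v e J (mix u J x)) (z (mix u J x) ω))
            (fun ω => zs (rl u w₀ g ρ e J (mix u J x) - vl u w₀ v₀ v e J (mix u J x))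
              (z (mix u J x) ω))
            (fun ω => zt (vl u w₀ v₀ v e J (mix u J x))
              (rl u w₀ g ρ e J (mix u J x) - vl u w₀ v₀ v e J (mix u J x))
              (z (mix u J x) ω)) ω,
            gt F (fun ω => xa Vx (al ω)) (fun ω => xs Hx (y ω))
              (fun ω => xt Vx Hx Rx (al ω) (k ω) (y ω)) ω)) := by
    intro i
    have hX := mxi_of h.Z (hbs1 i) (Nat.le_add_right (bs i) s) (hbs2 i)
    have hbs2' : bs i + stp cw ((CZ + 1) * l) J < wl u J 0 := by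
      rw [← hs]
      exact hbs2 i
    have hN := h.uen (d := d) (hbs1 i) hbs2' hql hqh hd1 hd2
    rw [← hs] at hN
    obtain ⟨a1, a2, a3, a4, a5⟩ := mix_spec (hbs1 i) (by have := hbs2 i; omega :
      bs i < wl u J 0)
    obtain ⟨Bt, h1, h2⟩ := rect (τ := τ) (qa := ql + 3) (qb := qh + 3) (Rx := Rx) hM
      (lvm_of h.Z J) hX hB0 hη hθ₁ h.x₁0.le hUE hN
      (fun x g1 g2 => h.lam (hbs1 i) g1 (by rw [← hs]; exact g2)
        (by have := hbs2 i; omega) hΛ)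
      (fun x g1 g2 => hnV _ (mix_spec ((hbs1 i).trans g1) (by have := hbs2 i; omega)).2.1)
      hVx (hnH _ a2) hHx (hnR _ a2) he₁ hK0 hX0 hK hbig
    refine ⟨Bt, ?_, ?_⟩
    · have e1 : bs i + s + 1 - bs i = s + 1 := by omega
      have e2 : qh + 3 - (ql + 3) = qh - ql := by omega
      rw [e1, e2] at h1
      rw [hbt]
      exact h1
    · intro x q g1 g2 g3 g4 g5
      exact h2 x q g1 g2 (by omega) (by omega) g5 n hn
  choose Btc hcard hgood using key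
  obtain ⟨W, hW⟩ : ∃ W, W = wl u J 0 - wl u J N := ⟨_, rfl⟩
  rw [← hW] at hstep ⊢
  obtain ⟨Kr, hKr⟩ : ∃ Kr, Kr = W / s + 1 := ⟨_, rfl⟩
  have h1 : (((Finset.Ico (wl u J N) (wl u J 0)) ×ˢ (Finset.Ico ql qh)).filter Q).card ≤
      ((Finset.range Kr).biUnion Btc).card := by
    refine Finset.card_le_card_of_injOn (fun x => (x.1, x.2 + 3)) ?_ ?_
    · rintro ⟨x, q⟩ hx
      have hx' := Finset.mem_filter.1 (Finset.mem_coe.1 hx)
      obtain ⟨hx1, hx2⟩ := Finset.mem_product.1 hx'.1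
      obtain ⟨c1, c2⟩ := Finset.mem_Ico.1 hx1
      obtain ⟨c3, c4⟩ := Finset.mem_Ico.1 hx2
      have c1' : wl u J N ≤ x := c1
      have c2' : x < wl u J 0 := c2
      have hQ' := hQ x q hx'.2
      by_contra hcon
      apply hQ'
      intro j hj hj1 hj2
      have hjx : j = mix u J x := by
        obtain ⟨a1, a2, a3, a4, a5⟩ := mix_spec c1' c2'
        rcases lt_trichotomy j (mix u J x) with g | g | g
        · exact absurd hj1 (not_le.2 (a4 j g))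
        · exact g
        · exact absurd a3 (not_le.2 (hj2 _ g))
      rw [hjx]
      obtain ⟨i, hi⟩ : ∃ i, i = (x - wl u J N) / s := ⟨_, rfl⟩
      have hi1 : i * s ≤ x - wl u J N := by
        rw [hi]
        exact Nat.div_mul_le_self _ _
      have hi2 : x - wl u J N < (i + 1) * s := by
        rw [hi]
        have := Nat.lt_div_mul_add (a := x - wl u J N) (b := s) (by omega)
        rw [add_mul, one_mul]
        exact this
      have hiK : i < Kr := by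
        rw [hKr, hi]
        have : (x - wl u J N) / s ≤ W / s := Nat.div_le_div_right (by omega)
        omega
      have hb1 : bs i ≤ x := by
        rw [hbs]
        exact (min_le_left _ _).trans (by omega)
      have hb2 : x ≤ bs i + s := by
        have e1 : (i + 1) * s = i * s + s := by ring
        rw [hbs]
        show x ≤ min (wl u J N + i * s) (wl u J 0 - 1 - s) + s
        rcases min_choice (wl u J N + i * s) (wl u J 0 - 1 - s) with g | g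
        · rw [g]
          omega
        · rw [g]
          omega
      refine hbd.trans (hgood i x q hb1 hb2 c3 c4 ?_)
      intro hmem
      apply hcon
      exact Finset.mem_coe.2 (Finset.mem_biUnion.2 ⟨i, Finset.mem_range.2 hiK, hmem⟩)
    · rintro ⟨x, q⟩ _ ⟨x', q'⟩ _ hxq
      have := Prod.ext_iff.1 hxq
      have e1 : x = x' := this.1
      have e2 : q + 3 = q' + 3 := this.2
      exact Prod.ext e1 (by show q = q'; omega)
  have h2 : (((Finset.range Kr).biUnion Btc).card : ℝ) ≤ Kr * bt := by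
    have h3 : (((Finset.range Kr).biUnion Btc).card : ℝ) ≤
        ∑ i ∈ Finset.range Kr, ((Btc i).card : ℝ) := by
      exact_mod_cast Finset.card_biUnion_le
    refine h3.trans ((Finset.sum_le_sum fun i _ => hcard i).trans (le_of_eq ?_))
    rw [Finset.sum_const, Finset.card_range, nsmul_eq_mul]
  have h3 : ((((Finset.Ico (wl u J N) (wl u J 0)) ×ˢ (Finset.Ico ql qh)).filter Q).card : ℝ) ≤
      Kr * bt := le_trans (by exact_mod_cast h1) h2
  refine h3.trans ?_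
  have h4 : Kr * (s + 1) ≤ 4 * W := by
    have g1 : W / s * s ≤ W := Nat.div_mul_le_self _ _
    have g2 : Kr * (s + 1) ≤ Kr * (2 * s) := Nat.mul_le_mul_left _ (by omega)
    have g3 : Kr * (2 * s) = 2 * (W / s * s) + 2 * s := by
      rw [hKr]
      ring
    omega
  have h5 : (Kr : ℝ) * ((s + 1 : ℕ) : ℝ) ≤ 4 * W := by exact_mod_cast h4
  have h6 : 0 ≤ θ₁ * (qh - ql : ℕ) + K / e₁ := by positivity
  have e1 : Kr * bt = 401 ^ 3 * ((Kr : ℝ) * ((s + 1 : ℕ) : ℝ) *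
      (θ₁ * (qh - ql : ℕ) + K / e₁)) := by
    rw [hbt]
    ring
  rw [e1]
  have h7 := mul_le_mul_of_nonneg_right h5 h6
  have e2 : 4 * 401 ^ 3 * (W : ℝ) * (θ₁ * (qh - ql : ℕ) + K / e₁) =
      401 ^ 3 * (4 * W * (θ₁ * (qh - ql : ℕ) + K / e₁)) := by ring
  rw [e2]
  exact mul_le_mul_of_nonneg_left h7 (by positivity)

end nm

end Pool.H3X
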