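import Pool.Agent.H65.S6.H3Q

/-!
# The numbers of the rectangles
-/

set_option autoImplicit false

namespace Pool.H3X

open Finset Real
open Pool.Agent.H32.Dense hiding rd
open Pool.KSAT hiding zs
open Pool.Agent.H49.Ent Pool.STK Pool.KA Pool.K2S Pool.PB Pool.KS6 Pool.S6C Pool.S6N Pool.UST

/-- The numbers. `e'` is the error of the levels, `Cn = CZ + 1`, `L = Cn l`. -/
structure Nm (σ : ℝ → Row) (N : ℕ) (u : ℕ → ℚ) (w₀ v₀ v g ρ P e l CZ Y C₂ cw κ e' e₂ γ x₁ : ℝ)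
    (n₀ J : ℕ) : Prop where
  Z : Zon σ N u w₀ v₀ v g ρ e
  v00 : 0 ≤ v₀
  hr : ∀ j ≤ N, 0 ≤ v₀ + v * (u j - w₀) + e
  top : |(u 0 : ℝ) - w₀| ≤ CZ * l
  bot : |(u N : ℝ) - w₀| ≤ CZ * l
  l0 : 0 < l
  CZ0 : 0 < CZ
  cw0 : 0 < cw
  κ0 : 0 < κ
  e'0 : 0 < e'
  x₁0 : 0 < x₁
  γ0 : 0 < γ
  γ1 : γ ≤ 1
  T16 : 16 ≤ l * J
  el : 100 * e ≤ l
  lin : 11 * (e * J) + v + 4 ≤ e' * ((CZ + 1) * l) * J
  ee : e' ≤ e₂
  e4 : e' * (CZ + 1) ≤ 1 / 4
  gap : ((v + ρ) * CZ + 2 * (CZ + 1) + 2) * l ≤ g - w₀ - v₀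
  Y2 : 2 ≤ Y
  C2 : (2 + v + ρ) * (CZ + Y) ≤ C₂
  P1 : ((2 + v + ρ) * CZ + (CZ + 1) + Y + 4) * l ≤ 1 - P
  Pg : Y * l ≤ P - g
  cwγ : (1 + v) * (cw * (CZ + 1)) ≤ γ * Y / 4
  e'γ : 2 * (e' * (CZ + 1)) ≤ γ * Y / 4
  κγ : (1 + x₁) * (n₀ * (κ * (CZ + 1))) ≤ γ * Y / 4
  Tγ : v + 2 ≤ γ * Y / 4 * (l * J)

section nm

variable {σ : ℝ → Row} {N : ℕ} {u : ℕ → ℚ} {w₀ v₀ v g ρ P e l CZ Y C₂ cw κ e' e₂ γ x₁ : ℝ}
  {n₀ J : ℕ}

/-- The mesh indices. -/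
theorem mxi_of (Z : Zon σ N u w₀ v₀ v g ρ e) {wa wb : ℕ} (h1 : wl u J N ≤ wa) (hab : wa ≤ wb)
    (h2 : wb < wl u J 0) : Mxi J N (wl u J) (mix u J wa) wa wb (mix u J) := by
  obtain ⟨a1, a2, a3, a4, a5⟩ := mix_spec h1 (hab.trans_lt h2)
  have hwJ : wl u J 0 ≤ J := by
    unfold wl
    have h3 : ((u 0 : ℝ)) * J ≤ J := by
      have h4 : ((u 0 : ℝ)) ≤ 1 := by exact_mod_cast Z.lt1.le
      have h5 : (0 : ℝ) ≤ J := Nat.cast_nonneg J
      nlinarith only [h4]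
    exact_mod_cast (Nat.floor_le_floor h3).trans (Nat.floor_natCast J).le
  have anti : ∀ x x', wa ≤ x → x ≤ x' → x' ≤ wb → mix u J x' ≤ mix u J x := by
    intro x x' h3 h4 h5
    obtain ⟨b1, b2, b3, b4, b5⟩ := mix_spec (w := x) (h1.trans h3) (by omega)
    exact Nat.sInf_le (b3.trans h4)
  refine ⟨a2, a3, by omega, fun x h3 h4 => anti wa x le_rfl h3 h4, fun x h3 h4 => ?_, anti⟩
  exact (mix_spec (w := x) (h1.trans h3) (by omega)).2.2.1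

theorem lvm_of (Z : Zon σ N u w₀ v₀ v g ρ e) (J : ℕ) :
    Lvm N (wl u J) (vl u w₀ v₀ v e J) (rl u w₀ g ρ e J) :=
  ⟨fun _ hj => vl_le_rl Z J hj, fun _ _ h1 h2 => vl_anti Z J h1 h2,
    fun _ _ h1 h2 => rl_anti Z J h1 h2⟩

/-- The windows of the grid are near `w₀`. -/
theorem Nm.near (h : Nm σ N u w₀ v₀ v g ρ P e l CZ Y C₂ cw κ e' e₂ γ x₁ n₀ J) {j : ℕ}
    (hj : j ≤ N) : |(u j : ℝ) - w₀| ≤ CZ * l := by
  have h1 := h.Z.antiR hj le_rfl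
  have h2 := h.Z.antiR (Nat.zero_le j) hj
  have h3 := abs_le.1 h.top
  have h4 := abs_le.1 h.bot
  rw [abs_le]
  constructor <;> linarith [h3.2, h4.1]

/-- The levels of the windows. -/
theorem Nm.vp_lin (h : Nm σ N u w₀ v₀ v g ρ P e l CZ Y C₂ cw κ e' e₂ γ x₁ n₀ J) {x : ℕ}
    (h1 : wl u J N ≤ x) (h2 : x < wl u J 0) :
    |((vl u w₀ v₀ v e J (mix u J x) - 3 : ℕ) : ℝ) - (v₀ * J + v * (x - w₀ * J))| ≤
      e' * ((CZ + 1) * l) * J := by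
  obtain ⟨m1, m2, m3, m4, m5⟩ := mix_spec h1 h2
  obtain ⟨j, hj⟩ : ∃ j, j = mix u J x := ⟨_, rfl⟩
  rw [← hj] at m1 m2 m3 m4 m5 ⊢
  obtain ⟨a1, a2⟩ := mesh_near h.Z m1 m2 m3 m5
  have hJ : (0 : ℝ) ≤ J := Nat.cast_nonneg J
  have hv := h.Z.v0
  have hρ := h.Z.ρ0
  have he := h.Z.e0
  obtain ⟨A, hA⟩ : ∃ A, A = (v₀ + v * (u j - w₀) - 10 * e) * (J : ℝ) := ⟨_, rfl⟩
  have hV : vl u w₀ v₀ v e J j = ⌊A⌋₊ := by rw [hA]; rfl
  obtain ⟨b, hb⟩ : ∃ b : ℝ, b = v * (u j * J - x) := ⟨_, rfl⟩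
  have b1 : b ≤ v := by
    rw [hb]
    nlinarith only [a1, hv]
  have b2 : v - e * J ≤ b := by
    have h3 : v * ((x : ℝ) + 1 - u j * J) ≤ e * J := by
      by_cases h4 : 0 ≤ (x : ℝ) + 1 - u j * J
      · refine le_trans ?_ a2
        exact mul_le_mul_of_nonneg_right (by linarith only [hρ]) h4
      · have : v * ((x : ℝ) + 1 - u j * J) ≤ 0 :=
          mul_nonpos_of_nonneg_of_nonpos hv (by linarith only [a1, h4])
        have h5 : 0 ≤ e * J := by positivity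
        linarith only [a1, h4]
    rw [hb]
    linarith only [h3]
  have hBx : v₀ * J + v * (x - w₀ * J) = A - b + 10 * (e * J) := by
    rw [hA, hb]
    ring
  have hlin := h.lin
  refine le_trans ?_ hlin
  rw [hV, hBx]
  have heJ : 0 ≤ e * J := by positivity
  by_cases hA0 : 0 ≤ A
  · have f1 := Nat.floor_le hA0
    have f2 := Nat.lt_floor_add_one A
    have f3 : ((⌊A⌋₊ - 3 : ℕ) : ℝ) ≤ ⌊A⌋₊ := by exact_mod_cast Nat.sub_le _ _
    have f4 : ((⌊A⌋₊ : ℕ) : ℝ) - 3 ≤ ((⌊A⌋₊ - 3 : ℕ) : ℝ) := by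
      have : ⌊A⌋₊ ≤ (⌊A⌋₊ - 3) + 3 := by omega
      have : ((⌊A⌋₊ : ℕ) : ℝ) ≤ ((⌊A⌋₊ - 3 : ℕ) : ℝ) + 3 := by exact_mod_cast this
      linarith only [this]
    rw [abs_le]
    constructor <;> linarith
  · rw [not_le] at hA0
    have f1 : ⌊A⌋₊ = 0 := Nat.floor_of_nonpos hA0.le
    have f2 : -(11 * (e * J)) ≤ A := by
      have f3 := h.hr j m2
      have f4 : 0 ≤ (v₀ + v * (u j - w₀) + e) * (J : ℝ) := mul_nonneg f3 hJ
      rw [hA]
      linarith only [f4]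
    rw [f1]
    have f5 : (((0 : ℕ) - 3 : ℕ) : ℝ) = 0 := by norm_num
    rw [f5, abs_le]
    constructor <;> linarith

/-- Upper bound for the levels. -/
theorem Nm.vl_le (h : Nm σ N u w₀ v₀ v g ρ P e l CZ Y C₂ cw κ e' e₂ γ x₁ n₀ J) {j : ℕ}
    (hj : j ≤ N) : (vl u w₀ v₀ v e J j : ℝ) ≤ (v₀ + v * (CZ * l)) * J := by
  have hJ : (0 : ℝ) ≤ J := Nat.cast_nonneg J
  have hl := h.l0
  have hCZ := h.CZ0
  have hv := h.Z.v0
  have h0 : (0 : ℝ) ≤ (v₀ + v * (CZ * l)) * J := by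
    have := h.v00
    positivity
  unfold vl
  refine (Nat.cast_le.mpr (Nat.floor_le_floor (b := (v₀ + v * (CZ * l)) * J) ?_)).trans
    (Nat.floor_le h0)
  refine mul_le_mul_of_nonneg_right ?_ hJ
  have h1 := (abs_le.1 (h.near hj)).2
  have h2 := mul_le_mul_of_nonneg_left h1 hv
  have h3 := h.Z.e0
  linarith only [h2, h3]

theorem Nm.rl_le (h : Nm σ N u w₀ v₀ v g ρ P e l CZ Y C₂ cw κ e' e₂ γ x₁ n₀ J) {j : ℕ}
    (hj : j ≤ N) : (rl u w₀ g ρ e J j : ℝ) ≤ (g - w₀ + ρ * (CZ * l)) * J := by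
  have hJ : (0 : ℝ) ≤ J := Nat.cast_nonneg J
  have hl := h.l0
  have hCZ := h.CZ0
  have hv := h.Z.v0
  have hρ := h.Z.ρ0
  have hgap := h.gap
  have h0 : (0 : ℝ) ≤ (g - w₀ + ρ * (CZ * l)) * J := by
    have h1 := h.v00
    have h2 : 0 ≤ ((v + ρ) * CZ + 2 * (CZ + 1) + 2) * l := by positivity
    have h3 : 0 ≤ ρ * (CZ * l) := by positivity
    exact mul_nonneg (by linarith only [hgap, h1, h2, h3]) hJ
  unfold rl
  refine (Nat.cast_le.mpr (Nat.floor_le_floor (b := (g - w₀ + ρ * (CZ * l)) * J) ?_)).trans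
    (Nat.floor_le h0)
  refine mul_le_mul_of_nonneg_right ?_ hJ
  have h1 := (abs_le.1 (h.near hj)).2
  have h2 := mul_le_mul_of_nonneg_left h1 hρ
  have h3 := h.Z.e0
  linarith only [h2, h3]

theorem Nm.rl_ge (h : Nm σ N u w₀ v₀ v g ρ P e l CZ Y C₂ cw κ e' e₂ γ x₁ n₀ J) {j : ℕ}
    (hj : j ≤ N) : (g - w₀ - ρ * (CZ * l) - 20 * e) * J - 1 ≤ (rl u w₀ g ρ e J j : ℝ) := by
  have hJ : (0 : ℝ) ≤ J := Nat.cast_nonneg J
  have hρ := h.Z.ρ0
  unfold rl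
  have h0 := Nat.lt_floor_add_one ((g - w₀ + ρ * (u j - w₀) - 20 * e) * (J : ℝ))
  have h1 := (abs_le.1 (h.near hj)).1
  have h2 := mul_le_mul_of_nonneg_left h1 hρ
  have h3 : (g - w₀ - ρ * (CZ * l) - 20 * e) * (J : ℝ) ≤
      (g - w₀ + ρ * (u j - w₀) - 20 * e) * J :=
    mul_le_mul_of_nonneg_right (by linarith only [h2]) hJ
  linarith only [h0, h3]

/-- The windows. -/
theorem Nm.wl_bd (h : Nm σ N u w₀ v₀ v g ρ P e l CZ Y C₂ cw κ e' e₂ γ x₁ n₀ J) :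
    (w₀ - CZ * l) * J - 1 ≤ (wl u J N : ℝ) ∧ (wl u J 0 : ℝ) ≤ (w₀ + CZ * l) * J := by
  have hJ : (0 : ℝ) ≤ J := Nat.cast_nonneg J
  constructor
  · unfold wl
    have h0 := Nat.lt_floor_add_one ((u N : ℝ) * J)
    have h1 := (abs_le.1 h.bot).1
    have h3 : (w₀ - CZ * l) * (J : ℝ) ≤ u N * J := mul_le_mul_of_nonneg_right (by linarith only [h1]) hJ
    linarith only [h0, h3]
  · unfold wl
    have h1 := (abs_le.1 h.top).2
    have h2 := Nat.floor_le (mul_nonneg (h.Z.posR (Nat.zero_le N)).le hJ)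
    have h3 : (u 0 : ℝ) * (J : ℝ) ≤ (w₀ + CZ * l) * J :=
      mul_le_mul_of_nonneg_right (by linarith) hJ
    linarith only [h2, h3]

/-- The step of the windows. -/
noncomputable def stp (cw L : ℝ) (J : ℕ) : ℕ := ⌈cw * L * J⌉₊

/-- The precision of the slopes. -/
noncomputable def Dd (vb : ℕ) (x₁ : ℝ) (X : ℕ) : ℕ := vb + ⌈x₁ * X⌉₊

/-- **The numbers of a rectangle.** -/
theorem Nm.uen (h : Nm σ N u w₀ v₀ v g ρ P e l CZ Y C₂ cw κ e' e₂ γ x₁ n₀ J) {wa ql qh d : ℕ}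
    (h1 : wl u J N ≤ wa) (h2 : wa + stp cw ((CZ + 1) * l) J < wl u J 0)
    (hql : ql = ⌊(P - g - Y * l) * J⌋₊) (hqh : qh = ⌊(P - g + Y * l) * J⌋₊)
    (hd1 : κ * ((CZ + 1) * l) * J / 2 ≤ d) (hd2 : (d : ℝ) ≤ κ * ((CZ + 1) * l) * J) :
    UeN J w₀ v₀ v (P - g) ((CZ + 1) * l) ((Y + 1) / (CZ + 1)) cw κ e₂ γ x₁ n₀ wa
      (wa + stp cw ((CZ + 1) * l) J) (fun x => vl u w₀ v₀ v e J (mix u J x) - 3)
      (rl u w₀ g ρ e J (mix u J wa)) ⌊(P - g + v₀ + C₂ * l) * J⌋₊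
      (min ⌊(P - w₀ + C₂ * l) * J⌋₊ (rl u w₀ g ρ e J (mix u J wa) -
        vl u w₀ v₀ v e J (mix u J wa) + ⌊(P - g + v₀ + C₂ * l) * J⌋₊))
      (ql + 3) (qh + 3) d (Dd (vl u w₀ v₀ v e J (mix u J (wa + stp cw ((CZ + 1) * l) J)) - 3) x₁
        (n₀ * d)) := by
  have hJ : (0 : ℝ) ≤ J := Nat.cast_nonneg J
  obtain ⟨s, hs⟩ : ∃ s, s = stp cw ((CZ + 1) * l) J := ⟨_, rfl⟩
  rw [← hs] at h2 ⊢
  obtain ⟨T, hT⟩ : ∃ T : ℝ, T = l * J := ⟨_, rfl⟩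
  have hl := h.l0
  have hCZ := h.CZ0
  have hCn : 0 < CZ + 1 := by linarith only [hCZ]
  have hv := h.Z.v0
  have hρ := h.Z.ρ0
  have he := h.Z.e0
  have hv00 := h.v00
  have hT16 := h.T16
  rw [← hT] at hT16
  have hel := h.el
  have heJ : 100 * (e * J) ≤ T := by
    rw [hT]
    nlinarith only [hel]
  have heJ0 : 0 ≤ e * J := by positivity
  have he4 := h.e4
  have he'0 := h.e'0
  have hgap := h.gap
  have hY2 := h.Y2
  have hC2 := h.C2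
  have hP1 := h.P1
  have hPg := h.Pg
  have hcwγ := h.cwγ
  have he'γ := h.e'γ
  have hκγ := h.κγ
  have hTγ := h.Tγ
  rw [← hT] at hTγ
  have hγ0 := h.γ0
  have hγ1 := h.γ1
  have hcw0 := h.cw0
  have hκ0 := h.κ0
  have hx₁ := h.x₁0
  have hee := h.ee
  -- products
  have eL : ∀ c : ℝ, c * ((CZ + 1) * l) * J = c * (CZ + 1) * T := fun c => by rw [hT]; ring
  have eL1 : ((CZ + 1) * l) * (J : ℝ) = (CZ + 1) * T := by rw [hT]; ring
  have hYT : 0 ≤ Y * T := by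
    have : 0 ≤ T := by linarith only [hT16]
    have : 0 ≤ Y := by linarith only [hY2]
    positivity
  have hT0 : 0 ≤ T := by linarith only [hT16]
  -- the mesh indices
  obtain ⟨m1, m2, m3, m4, m5⟩ := mix_spec h1 (by omega : wa < wl u J 0)
  obtain ⟨n1, n2, n3, n4, n5⟩ := mix_spec (h1.trans (Nat.le_add_right wa s)) h2
  obtain ⟨m, hm⟩ : ∃ m, m = mix u J wa := ⟨_, rfl⟩
  rw [← hm] at m1 m2 m3 m4 m5 ⊢
  obtain ⟨wN, w0⟩ := h.wl_bd
  have h1' : (wl u J N : ℝ) ≤ wa := by exact_mod_cast h1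
  have h2' : ((wa : ℝ) + s) ≤ wl u J 0 := by exact_mod_cast h2.le
  have hs1 : cw * (CZ + 1) * T ≤ s := by
    rw [← eL, hs]
    exact Nat.le_ceil _
  have hs2 : (s : ℝ) ≤ cw * (CZ + 1) * T + 1 := by
    rw [← eL, hs]
    exact (Nat.ceil_lt_add_one (by positivity)).le
  have lin : ∀ x, wa ≤ x → x ≤ wa + s →
      |((vl u w₀ v₀ v e J (mix u J x) - 3 : ℕ) : ℝ) - (v₀ * J + v * (x - w₀ * J))| ≤
      e' * (CZ + 1) * T := by
    intro x g1 g2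
    rw [← eL]
    exact h.vp_lin (h1.trans g1) (by omega)
  obtain ⟨vb, hvb⟩ : ∃ vb, vb = vl u w₀ v₀ v e J (mix u J (wa + s)) - 3 := ⟨_, rfl⟩
  obtain ⟨va, hva⟩ : ∃ va, va = vl u w₀ v₀ v e J (mix u J wa) - 3 := ⟨_, rfl⟩
  have lb := abs_le.1 (lin (wa + s) (Nat.le_add_right _ _) le_rfl)
  have la := abs_le.1 (lin wa le_rfl (Nat.le_add_right _ _))
  rw [← hvb] at lb ⊢
  rw [← hva] at la
  push_cast at lb
  have hvab : va ≤ vb := by
    rw [hva, hvb, ← hm]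
    refine Nat.sub_le_sub_right (vl_anti h.Z J ?_ m2) 3
    exact Nat.sInf_le (m3.trans (Nat.le_add_right _ _))
  -- the difference of the levels
  have hdv : (vb : ℝ) - va ≤ v * s + 2 * (e' * (CZ + 1) * T) := by
    have : v * ((wa : ℝ) + s - w₀ * J) = v * (wa - w₀ * J) + v * s := by ring
    linarith only [la, lb, lb.2, la.1]
  have hvs : v * (s : ℝ) ≤ v * (cw * (CZ + 1)) * T + v := by
    have := mul_le_mul_of_nonneg_left hs2 hv
    linarith only [this]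
  have hcwT : (1 + v) * (cw * (CZ + 1)) * T ≤ γ * Y / 4 * T :=
    mul_le_mul_of_nonneg_right hcwγ hT0
  have he'T : 2 * (e' * (CZ + 1)) * T ≤ γ * Y / 4 * T :=
    mul_le_mul_of_nonneg_right he'γ hT0
  have he4T : e' * (CZ + 1) * T ≤ 1 / 4 * T := mul_le_mul_of_nonneg_right he4 hT0
  have hγY : γ * Y / 4 * T ≤ Y / 4 * T := by
    have : γ * Y ≤ 1 * Y := mul_le_mul_of_nonneg_right hγ1 (by linarith only [hY2])
    exact mul_le_mul_of_nonneg_right (by linarith only [this]) hT0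
  have hcwT0 : 0 ≤ cw * (CZ + 1) * T := by positivity
  -- the velocity levels
  have hqh0 : (0 : ℝ) ≤ (P - g + Y * l) * J := by
    have : 0 ≤ Y * l := by positivity
    exact mul_nonneg (by linarith only [hPg, this]) hJ
  have hql0 : (0 : ℝ) ≤ (P - g - Y * l) * J := mul_nonneg (by linarith only [hPg]) hJ
  have q1 : (ql : ℝ) ≤ (P - g) * J - Y * T := by
    rw [hql]
    refine (Nat.floor_le hql0).trans (le_of_eq ?_)
    rw [hT]
    ring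
  have q2 : (P - g) * J - Y * T - 1 ≤ (ql : ℝ) := by
    rw [hql]
    have := Nat.lt_floor_add_one ((P - g - Y * l) * (J : ℝ))
    have e1 : (P - g - Y * l) * (J : ℝ) = (P - g) * J - Y * T := by rw [hT]; ring
    linarith only [this, e1]
  have q3 : (qh : ℝ) ≤ (P - g) * J + Y * T := by
    rw [hqh]
    refine (Nat.floor_le hqh0).trans (le_of_eq ?_)
    rw [hT]
    ring
  have q4 : (P - g) * J + Y * T - 1 ≤ (qh : ℝ) := by
    rw [hqh]
    have := Nat.lt_floor_add_one ((P - g + Y * l) * (J : ℝ))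
    have e1 : (P - g + Y * l) * (J : ℝ) = (P - g) * J + Y * T := by rw [hT]; ring
    linarith only [this, e1]
  have hqq : ql ≤ qh := by
    have : (ql : ℝ) ≤ qh := by linarith only [hv, hTγ, hγY, q1, q4]
    exact_mod_cast this
  have hqd : Y * T ≤ ((qh + 3 - (ql + 3) : ℕ) : ℝ) := by
    have e1 : qh + 3 - (ql + 3) = qh - ql := by omega
    rw [e1, Nat.cast_sub hqq]
    have : 1 ≤ Y * T := by nlinarith only [hv, hTγ, hγY]
    linarith only [hv, hTγ, hγY, q1, q4]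
  -- bounds of the frames
  have rm1 := h.rl_le m2
  have rm2 := h.rl_ge m2
  have vm1 := h.vl_le m2
  have hVR := vl_le_rl h.Z J m2
  have eCZ : ∀ c : ℝ, c * (CZ * l) * J = c * CZ * T := fun c => by rw [hT]; ring
  have hgapJ : ((v + ρ) * CZ + 2 * (CZ + 1) + 2) * T ≤ (g - w₀ - v₀) * J := by
    have := mul_le_mul_of_nonneg_right hgap hJ
    have e1 : ((v + ρ) * CZ + 2 * (CZ + 1) + 2) * l * J =
      ((v + ρ) * CZ + 2 * (CZ + 1) + 2) * T := by rw [hT]; ring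
    linarith only [this, e1]
  have hP1J : ((2 + v + ρ) * CZ + (CZ + 1) + Y + 4) * T ≤ (1 - P) * J := by
    have := mul_le_mul_of_nonneg_right hP1 hJ
    have e1 : ((2 + v + ρ) * CZ + (CZ + 1) + Y + 4) * l * J =
      ((2 + v + ρ) * CZ + (CZ + 1) + Y + 4) * T := by rw [hT]; ring
    linarith only [this, e1]
  have hC2T : (2 + v + ρ) * (CZ + Y) * T ≤ C₂ * T := mul_le_mul_of_nonneg_right hC2 hT0
  have hvCT : 0 ≤ v * CZ * T := by positivity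
  have hρCT : 0 ≤ ρ * CZ * T := by positivity
  have hvYT : 0 ≤ v * Y * T := by
    have : 0 ≤ Y := by linarith only [hY2]
    positivity
  have hρYT : 0 ≤ ρ * Y * T := by
    have : 0 ≤ Y := by linarith only [hY2]
    positivity
  have hCT : 0 ≤ CZ * T := by positivity
  have h2YT : 2 * T ≤ Y * T := mul_le_mul_of_nonneg_right hY2 hT0
  have wb1 : (wa : ℝ) + s ≤ w₀ * J + CZ * T := by
    have e1 : (w₀ + CZ * l) * (J : ℝ) = w₀ * J + CZ * T := by rw [hT]; ring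
    linarith only [hT, eL1, w0, h2']
  have vb1 : (vb : ℝ) ≤ v₀ * J + v * CZ * T + e' * (CZ + 1) * T := by
    have g1 : v * ((wa : ℝ) + s - w₀ * J) ≤ v * (CZ * T) :=
      mul_le_mul_of_nonneg_left (by linarith only [hT, eL1, w0, h2']) hv
    linarith only [lb, g1, lb.2]
  have rm1' : (rl u w₀ g ρ e J m : ℝ) ≤ (g - w₀) * J + ρ * CZ * T := by
    have e1 : (g - w₀ + ρ * (CZ * l)) * (J : ℝ) = (g - w₀) * J + ρ * (CZ * l) * J := by ring
    rw [e1, eCZ] at rm1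
    exact rm1
  have rm2' : (g - w₀) * J - ρ * CZ * T - 20 * (e * J) - 1 ≤ (rl u w₀ g ρ e J m : ℝ) := by
    have e1 : (g - w₀ - ρ * (CZ * l) - 20 * e) * (J : ℝ) =
      (g - w₀) * J - ρ * (CZ * l) * J - 20 * (e * J) := by ring
    rw [e1, eCZ] at rm2
    exact rm2
  have vm1' : (vl u w₀ v₀ v e J m : ℝ) ≤ v₀ * J + v * CZ * T := by
    have e1 : (v₀ + v * (CZ * l)) * (J : ℝ) = v₀ * J + v * (CZ * l) * J := by ring
    rw [e1, eCZ] at vm1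
    exact vm1
  have hPu : (P - g) * J + v₀ * J + C₂ * T - 1 ≤ (⌊(P - g + v₀ + C₂ * l) * (J : ℝ)⌋₊ : ℝ) := by
    have g1 := Nat.lt_floor_add_one ((P - g + v₀ + C₂ * l) * (J : ℝ))
    have e1 : (P - g + v₀ + C₂ * l) * (J : ℝ) = (P - g) * J + v₀ * J + C₂ * T := by
      rw [hT]
      ring
    linarith only [g1, e1]
  have hPN : (P - w₀) * J + C₂ * T - 1 ≤ (⌊(P - w₀ + C₂ * l) * (J : ℝ)⌋₊ : ℝ) := by
    have g1 := Nat.lt_floor_add_one ((P - w₀ + C₂ * l) * (J : ℝ))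
    have e1 : (P - w₀ + C₂ * l) * (J : ℝ) = (P - w₀) * J + C₂ * T := by
      rw [hT]
      ring
    linarith only [g1, e1]
  have hCC : (2 + v + ρ) * (CZ + Y) * T = 2 * (CZ * T) + v * CZ * T + ρ * CZ * T + 2 * (Y * T) +
    v * Y * T + ρ * Y * T := by ring
  rw [hCC] at hC2T
  have hX0 : (0 : ℝ) ≤ (n₀ * d : ℕ) := Nat.cast_nonneg _
  have hX1 : (1 + x₁) * ((n₀ * d : ℕ) : ℝ) ≤ γ * Y / 4 * T := by
    have g1 : ((n₀ * d : ℕ) : ℝ) ≤ n₀ * (κ * (CZ + 1) * T) := by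
      push_cast
      rw [← eL]
      exact mul_le_mul_of_nonneg_left hd2 (Nat.cast_nonneg _)
    have g2 := mul_le_mul_of_nonneg_left g1 (by linarith only [hx₁] : 0 ≤ 1 + x₁)
    have g3 := mul_le_mul_of_nonneg_right hκγ hT0
    have e1 : (1 + x₁) * ((n₀ : ℝ) * (κ * (CZ + 1) * T)) =
      (1 + x₁) * (n₀ * (κ * (CZ + 1))) * T := by ring
    linarith only [g2, g3]
  have hXx : x₁ * ((n₀ * d : ℕ) : ℝ) ≤ γ * Y / 4 * T := by
    have : (1 + x₁) * ((n₀ * d : ℕ) : ℝ) = (n₀ * d : ℕ) + x₁ * ((n₀ * d : ℕ) : ℝ) := by ring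
    linarith only [hX1]
  have hXn : ((n₀ * d : ℕ) : ℝ) ≤ γ * Y / 4 * T := by
    have g1 : (1 + x₁) * ((n₀ * d : ℕ) : ℝ) = (n₀ * d : ℕ) + x₁ * ((n₀ * d : ℕ) : ℝ) := by ring
    have g2 : 0 ≤ x₁ * ((n₀ * d : ℕ) : ℝ) := by positivity
    linarith only [hX1, g2]
  have hγqd : γ * (Y * T) ≤ γ * ((qh + 3 - (ql + 3) : ℕ) : ℝ) :=
    mul_le_mul_of_nonneg_left hqd hγ0.le
  have hgT0 : 0 ≤ γ * Y / 4 * T := by
    have : 0 ≤ Y := by linarith only [hY2]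
    positivity
  refine
    { wa1 := ?_
      wb1 := ?_
      ww := ?_
      qa1 := ?_
      qb1 := ?_
      qq := by omega
      lin := ?_
      hh := ?_
      room := ⟨?_, ?_, ?_, ?_⟩
      d1 := ?_
      d2 := ?_
      nd := ?_
      D1 := ?_
      D2 := ?_
      rise := ?_ }
  · have e1 : (w₀ - (CZ + 1) * l) * (J : ℝ) = (w₀ - CZ * l) * J - T := by rw [hT]; ring
    rw [e1]
    linarith only [hT16, wN, h1']
  · push_cast
    have e1 : (w₀ + (CZ + 1) * l) * (J : ℝ) = w₀ * J + CZ * T + T := by rw [hT]; ring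
    rw [e1]
    linarith only [hT, hT16, eL1, w0, h2']
  · push_cast
    rw [eL]
    linarith only [hs1]
  · have e1 : (P - g - (Y + 1) / (CZ + 1) * ((CZ + 1) * l)) * (J : ℝ) =
        (P - g) * J - Y * T - T := by
      rw [hT]
      field_simp
      ring
    rw [e1]
    push_cast
    linarith only [hT16, q2]
  · have e1 : (P - g + (Y + 1) / (CZ + 1) * ((CZ + 1) * l)) * (J : ℝ) =
        (P - g) * J + Y * T + T := by
      rw [hT]
      field_simp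
      ring
    rw [e1]
    push_cast
    linarith only [hT16, q3]
  · intro x g1 g2
    refine (lin x g1 g2).trans ?_
    rw [eL]
    have : 0 ≤ (CZ + 1) * T := by positivity
    have g3 := mul_le_mul_of_nonneg_right hee this
    linarith only [g3]
  · show (vl u w₀ v₀ v e J (mix u J (wa + s)) - 3 : ℕ) + ((CZ + 1) * l) * (J : ℝ) ≤ _
    rw [← hvb, eL1]
    have e1 : ((v + ρ) * CZ + 2 * (CZ + 1) + 2) * T = v * CZ * T + ρ * CZ * T +
      2 * ((CZ + 1) * T) + 2 * T := by ring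
    linarith only [hT16, heJ, he4T, hgapJ, hCT, vb1, rm2']
  · show ((vl u w₀ v₀ v e J (mix u J (wa + s)) - 3 : ℕ) : ℝ) + ((qh + 3 : ℕ) : ℝ) +
      ((CZ + 1) * l) * (J : ℝ) ≤ _
    rw [← hvb, eL1]
    push_cast
    linarith only [hT16, he'T, hγY, q3, hC2T, hρCT, hvYT, hρYT, hCT, h2YT, vb1, hPu]
  · rw [eL1]
    rcases le_total ⌊(P - w₀ + C₂ * l) * (J : ℝ)⌋₊ (rl u w₀ g ρ e J m - vl u w₀ v₀ v e J m +
      ⌊(P - g + v₀ + C₂ * l) * (J : ℝ)⌋₊) with g1 | g1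
    · rw [min_eq_left g1]
      push_cast
      linarith only [hT16, q3, hC2T, hvCT, hvYT, hρYT, hCT, h2YT, rm1', hPN]
    · rw [min_eq_right g1]
      push_cast
      rw [Nat.cast_sub hVR]
      linarith only [hT16, q3, hC2T, hρCT, hvYT, hρYT, hCT, h2YT, vm1', hPu]
  · show ((wa + s : ℕ) : ℝ) + (vl u w₀ v₀ v e J (mix u J (wa + s)) - 3 : ℕ) +
      ((qh + 3 : ℕ) : ℝ) + ((CZ + 1) * l) * (J : ℝ) ≤ _
    rw [← hvb, eL1]
    push_cast
    have e1 : ((2 + v + ρ) * CZ + (CZ + 1) + Y + 4) * T = 2 * (CZ * T) + v * CZ * T +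
      ρ * CZ * T + (CZ + 1) * T + Y * T + 4 * T := by ring
    have e2 : 0 ≤ (g - w₀ - v₀) * J - ((v + ρ) * CZ + 2 * (CZ + 1) + 2) * T := by linarith only [hgapJ]
    have e3 : 0 ≤ ((v + ρ) * CZ + 2 * (CZ + 1) + 2) * T := by positivity
    linarith only [hT, hT16, eL1, w0, h2', he4T, q3, hgapJ, hP1J, hvCT, hρCT, hCT, vb1]
  · rw [eL1]
    push_cast
    have e1 : ((2 + v + ρ) * CZ + (CZ + 1) + Y + 4) * T = 2 * (CZ * T) + v * CZ * T +
      ρ * CZ * T + (CZ + 1) * T + Y * T + 4 * T := by ring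
    linarith only [hT, hT16, eL1, w0, h2', q3, hP1J, hvCT, hCT, rm1']
  · exact hd1
  · exact hd2
  · refine le_trans ?_ hγqd
    linarith only [hXn]
  · show ((vl u w₀ v₀ v e J (mix u J (wa + s)) - 3 : ℕ) : ℝ) + x₁ * (n₀ * d : ℕ) ≤
      (Dd vb x₁ (n₀ * d) : ℕ)
    rw [← hvb]
    unfold Dd
    push_cast
    have := Nat.le_ceil (x₁ * ((n₀ : ℝ) * d))
    linarith only [this]
  · show ((Dd vb x₁ (n₀ * d) - (vl u w₀ v₀ v e J (mix u J wa) - 3) : ℕ) : ℝ) ≤ _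
    rw [← hva]
    refine le_trans ?_ hγqd
    have g1 : va ≤ Dd vb x₁ (n₀ * d) := hvab.trans (Nat.le_add_right _ _)
    rw [Nat.cast_sub g1]
    unfold Dd
    have g2 := (Nat.ceil_lt_add_one (show 0 ≤ x₁ * ((n₀ * d : ℕ) : ℝ) by positivity)).le
    rw [Nat.cast_add]
    have g3 : v * (cw * (CZ + 1)) * T ≤ (1 + v) * (cw * (CZ + 1)) * T := by
      have : (1 + v) * (cw * (CZ + 1)) * T = cw * (CZ + 1) * T + v * (cw * (CZ + 1)) * T := by
        ring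
      linarith only [hcwT0]
    linarith only [hTγ, hs2, la, lb, hvs, hcwT, he'T, hX1, g2]
  · show wa + s + (vl u w₀ v₀ v e J (mix u J (wa + s)) - 3) ≤
      wa + (vl u w₀ v₀ v e J (mix u J wa) - 3) + (qh + 3 - (ql + 3))
    rw [← hva, ← hvb]
    have g1 : (((wa + s + vb : ℕ) : ℝ)) ≤ ((wa + va + (qh + 3 - (ql + 3)) : ℕ) : ℝ) := by
      rw [Nat.cast_add, Nat.cast_add, Nat.cast_add, Nat.cast_add]
      have g3 : (1 + v) * (cw * (CZ + 1)) * T = cw * (CZ + 1) * T + v * (cw * (CZ + 1)) * T := by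
        ring
      linarith only [hT16, hTγ, hs2, la, lb, hvs, hcwT, he'T, hγY, hqd, h2YT]
    exact_mod_cast g1

end nm

end Pool.H3X
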