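import Pool.Agent.H2.UST.Cls
import Pool.Agent.H32.Dense.Split

/-!
# Conditional entropies from the large pieces of a partition
-/

set_option autoImplicit false

namespace Pool.H3X

open Finset Real
open Pool.Agent.H49.Ent Pool.Agent.H32.Dense Pool.STK Pool.KA Pool.KSAT Pool.K2S

variable {Ω S T U : Type} [Fintype Ω]

/-- Conditioning on an event and on the value of a variable. -/
theorem cond_piece (p : Ω → ℝ) {B : Ω → Prop} (hB : Pe p B ≠ 0) (G : Ω → U) (c : U) :
    Pool.Agent.H49.Ent.cond (Pool.Agent.H49.Ent.cond p B True) G c =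
      Pool.Agent.H49.Ent.cond p (fun ω => B ω ∧ G ω = c) True := by
  classical
  rw [← Pool.UST.cond_and' p hB (B := fun ω => G ω = c)]
  have hl : law (Pool.Agent.H49.Ent.cond p B True) G c =
      Pe (Pool.Agent.H49.Ent.cond p B True) (fun ω => G ω = c) := by
    rw [Pe_eq]
    rfl
  funext ω
  rw [Pool.UST.cond_ev']
  unfold Pool.Agent.H49.Ent.cond at hl ⊢
  rw [hl]

theorem law_piece (p : Ω → ℝ) {B : Ω → Prop} (G : Ω → U) (c : U) :
    law (Pool.Agent.H49.Ent.cond p B True) G c =
      Pe p (fun ω => B ω ∧ G ω = c) / Pe p B := by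
  classical
  have hl : law (Pool.Agent.H49.Ent.cond p B True) G c =
      Pe (Pool.Agent.H49.Ent.cond p B True) (fun ω => G ω = c) := by
    rw [Pe_eq]
    rfl
  rw [hl, Pe_cond]

/-- **Pieces.** -/
theorem ge_of_pieces {p : Ω → ℝ} (hp : IsLaw p) {B : Ω → Prop} (hB : 0 < Pe p B) (G : Ω → U)
    (C : Finset U) (hG : ∀ ω, B ω → G ω ∈ C) (X : Ω → S) (W : Ω → T) {η M : ℝ} (hη : 0 ≤ η)
    (hM : 0 ≤ M) (h : ∀ c ∈ C, η * Pe p B ≤ Pe p (fun ω => B ω ∧ G ω = c) →
      M ≤ CH (Pool.Agent.H49.Ent.cond p (fun ω => B ω ∧ G ω = c) True) X W) :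
    (1 - C.card * η) * M ≤ CH (Pool.Agent.H49.Ent.cond p B True) X W := by
  classical
  obtain ⟨q, hq⟩ : ∃ q, q = Pool.Agent.H49.Ent.cond p B True := ⟨_, rfl⟩
  have hql : IsLaw q := by rw [hq]; exact isLaw_cond hp hB
  have hq0 := hql.nonneg
  have h1 : CH q X (fun ω => (W ω, G ω)) ≤ CH q X W :=
    CH_mono_cond hq0 fun _ _ _ _ e => (Prod.ext_iff.1 e).1
  rw [CH_split hq0 X W G] at h1
  rw [← hq]
  refine le_trans ?_ h1
  have h2 : ∀ j ∈ univ.image G, (law q G j - (if j ∈ C then η else 0)) * M ≤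
      law q G j * CH (Pool.Agent.H49.Ent.cond q G j) X W := by
    intro j _
    have h3 : 0 ≤ law q G j := law_nonneg hq0 G j
    have h4 : 0 ≤ CH (Pool.Agent.H49.Ent.cond q G j) X W :=
      CH_nonneg (fun ω => cond_nonneg hq0 _ _ _) X W
    by_cases h5 : law q G j = 0
    · rw [h5, zero_mul, zero_sub]
      have : 0 ≤ (if j ∈ C then η else 0) := by split_ifs; exacts [hη, le_rfl]
      nlinarith
    have h6 : 0 < law q G j := lt_of_le_of_ne h3 (Ne.symm h5)
    have hjC : j ∈ C := by
      by_contra hj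
      apply h5
      unfold law
      refine Finset.sum_eq_zero fun ω _ => ?_
      by_cases h7 : G ω = j
      · rw [if_pos h7, hq, Pool.UST.cond_ev']
        rw [if_neg]
        intro hω
        exact hj (h7 ▸ hG ω hω)
      · rw [if_neg h7]
    rw [if_pos hjC]
    by_cases h7 : η ≤ law q G j
    · have h8 : η * Pe p B ≤ Pe p (fun ω => B ω ∧ G ω = j) := by
        rw [hq, law_piece, le_div_iff₀ hB] at h7
        exact h7
      have h9 := h j hjC h8
      rw [← cond_piece p hB.ne' G j, ← hq] at h9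
      calc (law q G j - η) * M ≤ law q G j * M :=
            mul_le_mul_of_nonneg_right (by linarith) hM
        _ ≤ _ := mul_le_mul_of_nonneg_left h9 h3
    · have h10 : (law q G j - η) * M ≤ 0 :=
        mul_nonpos_of_nonpos_of_nonneg (by linarith [not_le.1 h7]) hM
      exact h10.trans (mul_nonneg h3 h4)
  refine le_trans ?_ (Finset.sum_le_sum h2)
  rw [← Finset.sum_mul, Finset.sum_sub_distrib, sum_law, hql.sum_one]
  refine mul_le_mul_of_nonneg_right ?_ hM
  have h3 : ∑ j ∈ univ.image G, (if j ∈ C then η else 0) ≤ C.card * η := by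
    rw [← Finset.sum_filter, Finset.sum_const, nsmul_eq_mul]
    refine mul_le_mul_of_nonneg_right ?_ hη
    exact_mod_cast Finset.card_le_card fun j hj => (Finset.mem_filter.1 hj).2
  linarith

end Pool.H3X
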