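import Pool.Agent.H65.S6.Fmn
import Pool.Agent.H65.S6.Pcs

/-!
# The tiles of one rectangle on one piece
-/

set_option autoImplicit false

namespace Pool.H3X

open Finset Real
open Pool.Agent.H32.Dense hiding rd
open Pool.KSAT hiding zs
open Pool.Agent.H49.Ent Pool.STK Pool.KA Pool.K2S Pool.PB Pool.KS6 Pool.S6C Pool.S6N Pool.UST

/-- The condition of the U-step determines the frame. -/
theorem ocn_frm {J : ℕ} {F : Fam 3 J} {σ : Fin 3 → Fin 3} (hσ : Function.Injective σ)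
    {vp : ℕ → ℕ} {D : ℕ} {a : ℕ → F.Ω → ℝ} {s t al : F.Ω → ℝ} {κ w q N : ℕ} {ω ω' : F.Ω}
    (h : Pool.S6U.ocn F σ vp D a s t al κ w q N ω = Pool.S6U.ocn F σ vp D a s t al κ w q N ω') :
    a w ω = a w ω' ∧ s ω = s ω' ∧ t ω = t ω' := by
  have e1 := (Prod.ext_iff.mp (Prod.ext_iff.mp h).2).1
  have e3 : F.ctx σ w (w + q) (w + vp w + q) (w + q + κ) (a w) s t ω =
    F.ctx σ w (w + q) (w + vp w + q) (w + q + κ) (a w) s t ω' := e1
  rw [Pool.S6U.ctx_eq] at e3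
  have e4 : Pool.S6U.frm σ (a w) s t ω = Pool.S6U.frm σ (a w) s t ω' := (Box.mlb_ext e3).2.1
  exact Box.tfr_eq hσ e4

section two

variable {J : ℕ} {F : Fam 3 J} {B B' : F.Ω → Prop} {i₀ : Fin 3} {N : ℕ} {w V R : ℕ → ℕ}
  {Pu PN : ℕ} {τ : Fin 3 → Fin 3} {y : F.Ω → Pln} {z : ℕ → F.Ω → Pln} {al nu k b : F.Ω → ℝ}
  {m wa wb : ℕ} {jx : ℕ → ℕ} {c : ℤ × ℤ × ℤ}
  {al' nu' k' b' : (Fin 3 → ℤ) × (ℕ × F.ζ) → ℝ} {HN : ℕ}

/-- **The tiles on one piece.** -/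
theorem piece (hM : Fms F B i₀ N w V R Pu PN τ y z al nu k b) (hL : Lvm N w V R)
    (hX : Mxi J N w m wa wb jx) (hB : Sub B' B)
    (hc : ∀ ω, B' ω → offs (V m) (R m - V m) (al ω) (k ω) (y ω) (z m ω) = c)
    (hP : 0 < Pe F.p B') (hal : ∀ ω, B ω → al ω = al' (Fam.pt F ω))
    (hU : UFr F B' τ (w m) wa wb (fun x => V (jx x) - 3) (R m) Pu HN
      al' nu' k' b' (awx V jx c.2.2 z) (fun ω => zs (R m - V m) (z m ω))
      (fun ω => zt (V m) (R m - V m) (z m ω)) 200 200)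
    {D X Λ : ℕ} (hD : V (jx wb) - 3 ≤ D)
    (hΛ : ∀ x, wa ≤ x → x ≤ wb → R (jx x) - V (jx x) - Λ ≤ R m - V m ∧
      V (jx x) + (R (jx x) - V (jx x) - Λ) ≤ R m)
    {Vx Hx Rx nV nH : ℕ} (hnV : ∀ x, wa ≤ x → x ≤ wb → nV ≤ V (jx x)) (hVx : nV ≤ Vx)
    (hnH : nH ≤ R m - V m) (hHx : nH ≤ Hx) (hnR : nV + nH ≤ R m)
    {Bd : Finset (ℕ × ℕ)} {qa qb : ℕ} {ε : ℝ}
    (hUc : ∀ x q, wa ≤ x → x ≤ wb → qa ≤ q → q < qb → (x, q) ∉ Bd →
      Pool.S6U.Uc F (Pool.Agent.H49.Ent.cond F.p B' True) τ (fun x => V (jx x) - 3) D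
        (awx V jx c.2.2 z) (fun ω => zs (R m - V m) (z m ω))
        (fun ω => zt (V m) (R m - V m) (z m ω)) (fun ω => al' (Fam.pt F ω)) (R m) X x q ε)
    {K e : ℝ} (he : 0 < e) (hK0 : 0 ≤ K) (hX0 : 0 < X)
    (hK : (2 * (Λ : ℝ)) * Real.log 2 + 3 * Real.log 1601 +
      ((((Vx - nV : ℕ) : ℝ) + ((Hx - nH : ℕ) : ℝ) + ((Rx - (nV + nH) : ℕ) : ℝ)) * Real.log 2 +
        3 * Real.log 1001) ≤ K) :
    ∃ Bt : Finset (ℕ × ℕ), (Bt.card : ℝ) ≤ Bd.card + (wb + 1 - wa : ℕ) * K / e ∧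
      ∀ x q, wa ≤ x → x ≤ wb → qa ≤ q + 3 → q + 3 < qb → (x, q + 3) ∉ Bt → ∀ n, 3 + X ≤ n →
      (2 - ε) * X * Real.log 2 - e * X - Pool.S6U.brC 800 ≤
        CH (Pool.Agent.H49.Ent.cond F.p B' True)
          (pd2 F τ x q (V (jx x)) n (fun ω => za (V (jx x)) (z (jx x) ω))
            (fun ω => zs (R (jx x) - V (jx x)) (z (jx x) ω))
            (fun ω => zt (V (jx x)) (R (jx x) - V (jx x)) (z (jx x) ω)))
          (fun ω => (Pool.S6N.ctx F τ x q (V (jx x)) (R (jx x) - V (jx x) - Λ)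
            (fun ω => za (V (jx x)) (z (jx x) ω))
            (fun ω => zs (R (jx x) - V (jx x)) (z (jx x) ω))
            (fun ω => zt (V (jx x)) (R (jx x) - V (jx x)) (z (jx x) ω)) ω,
            gt F (fun ω => xa Vx (al ω)) (fun ω => xs Hx (y ω))
              (fun ω => xt Vx Hx Rx (al ω) (k ω) (y ω)) ω)) := by
  classical
  obtain ⟨p, hp⟩ : ∃ p, p = Pool.Agent.H49.Ent.cond F.p B' True := ⟨_, rfl⟩
  have hpl : IsLaw p := by rw [hp]; exact isLaw_cond F.isLaw hP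
  have hpB : ∀ ω, 0 < p ω → B' ω := by
    intro ω hω
    rw [hp] at hω
    exact of_eq_true ((cond_pos_iff F.isLaw.nonneg B' True ω).1 hω).2
  have hR := hU.rc hP hD
  rw [← hp] at hR hUc ⊢
  obtain ⟨vv, hvv⟩ : ∃ vv : ℕ → F.Ω → (ℝ × ℝ × ℝ) × (ℝ × ℝ × ℝ), vv = fun x ω =>
    ((za (V (jx x)) (z (jx x) ω), zs (R (jx x) - V (jx x)) (z (jx x) ω),
      zt (V (jx x)) (R (jx x) - V (jx x)) (z (jx x) ω)),
    (xa Vx (al ω), xs Hx (y ω), xt Vx Hx Rx (al ω) (k ω) (y ω))) := ⟨_, rfl⟩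
  have hlab : ∀ x ∈ Finset.Icc wa wb, ∀ q ∈ Finset.Ico qa qb, CH p (vv x)
      (Pool.S6U.ocn F τ (fun x => V (jx x) - 3) D (awx V jx c.2.2 z)
        (fun ω => zs (R m - V m) (z m ω)) (fun ω => zt (V m) (R m - V m) (z m ω))
        (fun ω => al' (Fam.pt F ω)) (R m) x q 0) ≤ K := by
    intro x hx q _
    obtain ⟨h1, h2⟩ := Finset.mem_Icc.1 hx
    obtain ⟨hl1, hl2⟩ := hΛ x h1 h2
    obtain ⟨Z, hZ⟩ : ∃ Z, Z = Pool.S6U.ocn F τ (fun x => V (jx x) - 3) D (awx V jx c.2.2 z)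
        (fun ω => zs (R m - V m) (z m ω)) (fun ω => zt (V m) (R m - V m) (z m ω))
        (fun ω => al' (Fam.pt F ω)) (R m) x q 0 := ⟨_, rfl⟩
    have hZd : Det p Z (fun ω => (awx V jx c.2.2 z x ω, zs (R m - V m) (z m ω),
      zt (V m) (R m - V m) (z m ω))) := by
      intro ω ω' _ _ e
      rw [hZ] at e
      obtain ⟨g1, g2, g3⟩ := ocn_frm hM.inj e
      exact Prod.ext g1 (Prod.ext g2 g3)
    rw [← hZ]
    have k1 := lab_z (x := x) hM hL hX hB hc hal h1 h2 (H₁ := R (jx x) - V (jx x) - Λ)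
      (Nat.sub_le _ _) hl1 hl2 hpB hpl Z hZd
    have k2 := lab_x (x := x) (Rx := Rx) hM hL hX hB hc h1 h2 (hnV x h1 h2) hVx hnH hHx hnR
      hpB hpl Z hZd
    have k3 := CH_subadd hpl.nonneg
      (fun ω => (za (V (jx x)) (z (jx x) ω), zs (R (jx x) - V (jx x)) (z (jx x) ω),
        zt (V (jx x)) (R (jx x) - V (jx x)) (z (jx x) ω)))
      (fun ω => (xa Vx (al ω), xs Hx (y ω), xt Vx Hx Rx (al ω) (k ω) (y ω))) Z
    have k4 : CH p (vv x) Z = CH p (fun ω =>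
      ((za (V (jx x)) (z (jx x) ω), zs (R (jx x) - V (jx x)) (z (jx x) ω),
      zt (V (jx x)) (R (jx x) - V (jx x)) (z (jx x) ω)),
      (xa Vx (al ω), xs Hx (y ω), xt Vx Hx Rx (al ω) (k ω) (y ω)))) Z := by rw [hvv]
    rw [k4]
    have k5 : ((R (jx x) - V (jx x) - (R (jx x) - V (jx x) - Λ) : ℕ) : ℝ) ≤ Λ := by
      exact_mod_cast (by omega :
        R (jx x) - V (jx x) - (R (jx x) - V (jx x) - Λ) ≤ Λ)
    have k6 : (2 * ((R (jx x) - V (jx x) - (R (jx x) - V (jx x) - Λ) : ℕ) : ℝ)) *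
        Real.log 2 ≤ (2 * (Λ : ℝ)) * Real.log 2 :=
      mul_le_mul_of_nonneg_right (by linarith) (Real.log_nonneg (by norm_num))
    linarith
  obtain ⟨Bl, hBl, hgood⟩ := Pool.S6U.dpl_bad (F := F) (p := p) (σ := τ)
    (vp := fun x => V (jx x) - 3) (D := D) (a := awx V jx c.2.2 z)
    (s := fun ω => zs (R m - V m) (z m ω)) (t := fun ω => zt (V m) (R m - V m) (z m ω))
    (al := fun ω => al' (Fam.pt F ω)) (κ := R m) (X := X) hpl vv (N := fun _ _ => 0)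
    (fun _ _ _ _ => le_rfl) hX0 (Finset.Icc wa wb) (Finset.Ico qa qb) hK0 he hlab
  refine ⟨Bd ∪ Bl, ?_, ?_⟩
  · have h1 : ((Bd ∪ Bl).card : ℝ) ≤ Bd.card + Bl.card := by
      exact_mod_cast Finset.card_union_le Bd Bl
    have h2 : (Bl.card : ℝ) ≤ (wb + 1 - wa : ℕ) * K / e := by
      rw [le_div_iff₀ he]
      refine hBl.trans (le_of_eq ?_)
      rw [Nat.card_Icc]
    linarith
  · intro x q h1 h2 h3 h4 hbad n hn
    rw [Finset.mem_union, not_or] at hbad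
    have k1 := (hUc x (q + 3) h1 h2 h3 h4 hbad.1 0 (Nat.zero_le _)).1
    have k2 := hgood x (Finset.mem_Icc.2 ⟨h1, h2⟩) (q + 3) (Finset.mem_Ico.2 ⟨h3, h4⟩) hbad.2
    unfold Pool.S6U.dpl Pool.S6U.dp at k2
    obtain ⟨hl1, hl2⟩ := hΛ x h1 h2
    have hvx : V (jx x) - 3 ≤ D := le_trans (hU.mono x wb h1 h2 le_rfl) hD
    have hn' := nrf_of (x := x) (D := D) hM hL hX hB hc hal h1 h2 hvx
      (H₁ := R (jx x) - V (jx x) - Λ) (Nat.sub_le _ _) hl1 hl2 hpB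
    have k3 := Pool.S6U.tile_of_ocn (κ := R m) (q := q) (r := 3) (N := 0) (X := X) (n := n)
      (a' := fun ω => xa Vx (al ω)) (s' := fun ω => xs Hx (y ω))
      (t' := fun ω => xt Vx Hx Rx (al ω) (k ω) (y ω)) hR h2 (by norm_num : (1 : ℝ) ≤ 800) hn'
      (by show V (jx x) ≤ V (jx x) - 3 + 3; omega) (by show V (jx x) - 3 ≤ V (jx x); omega)
      (by omega) hn (vv x) (by
        intro ω ω' _ _ e
        rw [hvv] at e
        exact e)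
    have e1 : CH p (F.sbx τ (x + (q + 3) + X) (x + (V (jx x) - 3) + (q + 3) + X) 0
        (Pool.S6U.ald D fun ω => al' (Fam.pt F ω)) (fun ω => zs (R m - V m) (z m ω))
        (fun ω => zt (V m) (R m - V m) (z m ω)))
        (fun ω => (vv x ω, Pool.S6U.ocn F τ (fun x => V (jx x) - 3) D (awx V jx c.2.2 z)
          (fun ω => zs (R m - V m) (z m ω)) (fun ω => zt (V m) (R m - V m) (z m ω))
          (fun ω => al' (Fam.pt F ω)) (R m) x (q + 3) 0 ω)) ≤ _ := k3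
    linarith

end two

end Pool.H3X
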