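import Pool.Agent.H65.S6.H3P

/-!
# The tiles of one rectangle
-/

set_option autoImplicit false

namespace Pool.H3X

open Finset Real
open Pool.Agent.H32.Dense hiding rd
open Pool.KSAT hiding zs
open Pool.Agent.H49.Ent Pool.STK Pool.KA Pool.K2S Pool.PB Pool.KS6 Pool.S6C Pool.S6N Pool.UST

/-- The possible offsets. -/
theorem exists_offC (n : ℕ) : ∃ C : Finset (ℤ × ℤ × ℤ), C.card = (2 * n + 1) ^ 3 ∧
    ∀ c : ℤ × ℤ × ℤ, |c.1| ≤ n ∧ |c.2.1| ≤ n ∧ |c.2.2| ≤ n → c ∈ C := by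
  refine ⟨Finset.Icc (-(n : ℤ)) n ×ˢ (Finset.Icc (-(n : ℤ)) n ×ˢ Finset.Icc (-(n : ℤ)) n),
    ?_, ?_⟩
  · rw [Finset.card_product, Finset.card_product, Int.card_Icc]
    have : ((n : ℤ) + 1 - -(n : ℤ)).toNat = 2 * n + 1 := by omega
    rw [this]
    ring
  · rintro c ⟨h1, h2, h3⟩
    rw [abs_le] at h1 h2 h3
    rw [Finset.mem_product, Finset.mem_product, Finset.mem_Icc, Finset.mem_Icc, Finset.mem_Icc]
    exact ⟨h1, h2, h3⟩

section two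

variable {J : ℕ} {F : Fam 3 J} {B : F.Ω → Prop} {i₀ : Fin 3} {N : ℕ} {w V R : ℕ → ℕ}
  {Pu PN : ℕ} {τ : Fin 3 → Fin 3} {y : F.Ω → Pln} {z : ℕ → F.Ω → Pln} {al nu k b : F.Ω → ℝ}
  {m wa wb : ℕ} {jx : ℕ → ℕ}

/-- The input of the U-step on large parts of the event `B`. -/
def Uin {J : ℕ} (F : Fam 3 J) (B : F.Ω → Prop) (i₀ : Fin 3) (η ρ ε : ℝ)
    (w₀ v₀ v q₀ L M cw κ e₂ γ x₁ : ℝ) (n₀ : ℕ) : Prop :=
  ∀ B' : F.Ω → Prop, Sub B' B → η * Pe F.p B ≤ Pe F.p B' →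
    ∀ (σ : Fin 3 → Fin 3) (wl wa wb : ℕ) (vp : ℕ → ℕ) (kap Hu HN : ℕ)
      (al nu k b : (Fin 3 → ℤ) × (ℕ × F.ζ) → ℝ) (a : ℕ → F.Ω → ℝ) (s t : F.Ω → ℝ),
      UFr F B' σ wl wa wb vp kap Hu HN al nu k b a s t 200 200 → σ 0 = i₀ →
    ∀ qa qb d D : ℕ, UeN J w₀ v₀ v q₀ L M cw κ e₂ γ x₁ n₀ wa wb vp kap Hu HN qa qb d D →
    ∃ Bd : Finset (ℕ × ℕ), (Bd.card : ℝ) ≤ ρ * ((wb + 1 - wa : ℕ) * (qb - qa : ℕ)) ∧
      ∀ w q, wa ≤ w → w ≤ wb → qa ≤ q → q < qb → (w, q) ∉ Bd →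
        Pool.S6U.Uc F (Pool.Agent.H49.Ent.cond F.p B' True) σ vp D a s t
          (fun ω => al (Fam.pt F ω)) kap (n₀ * d) w q ε

/-- **The tiles of one rectangle.** -/
theorem rect (hM : Fms F B i₀ N w V R Pu PN τ y z al nu k b) (hL : Lvm N w V R)
    (hX : Mxi J N w m wa wb jx) (hB0 : 0 < Pe F.p B) {η ρ ε : ℝ} (hη : 0 < η) (hρ : 0 ≤ ρ)
    {w₀ v₀ v q₀ L M cw κ e₂ γ x₁ : ℝ} {n₀ : ℕ} (hx₁ : 0 ≤ x₁)
    (hUE : Uin F B i₀ η ρ ε w₀ v₀ v q₀ L M cw κ e₂ γ x₁ n₀) {qa qb d D : ℕ}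
    (hN : UeN J w₀ v₀ v q₀ L M cw κ e₂ γ x₁ n₀ wa wb (fun x => V (jx x) - 3) (R m) Pu
      (min PN (R m - V m + Pu)) qa qb d D) {Λ : ℕ}
    (hΛ : ∀ x, wa ≤ x → x ≤ wb → R (jx x) - V (jx x) - Λ ≤ R m - V m ∧
      V (jx x) + (R (jx x) - V (jx x) - Λ) ≤ R m)
    {Vx Hx Rx nV nH : ℕ} (hnV : ∀ x, wa ≤ x → x ≤ wb → nV ≤ V (jx x)) (hVx : nV ≤ Vx)
    (hnH : nH ≤ R m - V m) (hHx : nH ≤ Hx) (hnR : nV + nH ≤ R m)
    {K e : ℝ} (he : 0 < e) (hK0 : 0 ≤ K) (hX0 : 0 < n₀ * d)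
    (hK : (2 * (Λ : ℝ)) * Real.log 2 + 3 * Real.log 1601 +
      ((((Vx - nV : ℕ) : ℝ) + ((Hx - nH : ℕ) : ℝ) + ((Rx - (nV + nH) : ℕ) : ℝ)) * Real.log 2 +
        3 * Real.log 1001) ≤ K)
    (hbig : 0 ≤ (2 - ε) * (n₀ * d : ℕ) * Real.log 2 - e * (n₀ * d : ℕ) - Pool.S6U.brC 800) :
    ∃ Bt : Finset (ℕ × ℕ), (Bt.card : ℝ) ≤ 401 ^ 3 * (ρ * ((wb + 1 - wa : ℕ) * (qb - qa : ℕ)) +
        (wb + 1 - wa : ℕ) * K / e) ∧
      ∀ x q, wa ≤ x → x ≤ wb → qa ≤ q + 3 → q + 3 < qb → (x, q + 3) ∉ Bt →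
      ∀ n, 3 + n₀ * d ≤ n →
      (1 - 401 ^ 3 * η) * ((2 - ε) * (n₀ * d : ℕ) * Real.log 2 - e * (n₀ * d : ℕ) -
        Pool.S6U.brC 800) ≤
        CH (Pool.Agent.H49.Ent.cond F.p B True)
          (pd2 F τ x q (V (jx x)) n (fun ω => za (V (jx x)) (z (jx x) ω))
            (fun ω => zs (R (jx x) - V (jx x)) (z (jx x) ω))
            (fun ω => zt (V (jx x)) (R (jx x) - V (jx x)) (z (jx x) ω)))
          (fun ω => (Pool.S6N.ctx F τ x q (V (jx x)) (R (jx x) - V (jx x) - Λ)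
            (fun ω => za (V (jx x)) (z (jx x) ω))
            (fun ω => zs (R (jx x) - V (jx x)) (z (jx x) ω))
            (fun ω => zt (V (jx x)) (R (jx x) - V (jx x)) (z (jx x) ω)) ω,
            gt F (fun ω => xa Vx (al ω)) (fun ω => xs Hx (y ω))
              (fun ω => xt Vx Hx Rx (al ω) (k ω) (y ω)) ω)) := by
  classical
  obtain ⟨offC, hcard₀, hmem₀⟩ := exists_offC 200
  have card_offC : (offC.card : ℝ) = 401 ^ 3 := by
    rw [hcard₀]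
    norm_num
  obtain ⟨X, hXd⟩ : ∃ X, X = n₀ * d := ⟨_, rfl⟩
  rw [← hXd] at hX0 hbig ⊢
  obtain ⟨G, hG⟩ : ∃ G : F.Ω → ℤ × ℤ × ℤ, G = fun ω =>
    offs (V m) (R m - V m) (al ω) (k ω) (y ω) (z m ω) := ⟨_, rfl⟩
  obtain ⟨bd, hbd⟩ : ∃ bd : ℝ, bd = ρ * ((wb + 1 - wa : ℕ) * (qb - qa : ℕ)) +
        (wb + 1 - wa : ℕ) * K / e := ⟨_, rfl⟩
  have hbd0 : 0 ≤ bd := by rw [hbd]; positivity
  have key : ∀ c : ℤ × ℤ × ℤ, ∃ Bt : Finset (ℕ × ℕ), (Bt.card : ℝ) ≤ bd ∧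
      (η * Pe F.p B ≤ Pe F.p (fun ω => B ω ∧ G ω = c) →
      ∀ x q, wa ≤ x → x ≤ wb → qa ≤ q + 3 → q + 3 < qb → (x, q + 3) ∉ Bt →
      ∀ n, 3 + X ≤ n →
      (2 - ε) * (X : ℕ) * Real.log 2 - e * (X : ℕ) - Pool.S6U.brC 800 ≤
        CH (Pool.Agent.H49.Ent.cond F.p (fun ω => B ω ∧ G ω = c) True)
          (pd2 F τ x q (V (jx x)) n (fun ω => za (V (jx x)) (z (jx x) ω))
            (fun ω => zs (R (jx x) - V (jx x)) (z (jx x) ω))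
            (fun ω => zt (V (jx x)) (R (jx x) - V (jx x)) (z (jx x) ω)))
          (fun ω => (Pool.S6N.ctx F τ x q (V (jx x)) (R (jx x) - V (jx x) - Λ)
            (fun ω => za (V (jx x)) (z (jx x) ω))
            (fun ω => zs (R (jx x) - V (jx x)) (z (jx x) ω))
            (fun ω => zt (V (jx x)) (R (jx x) - V (jx x)) (z (jx x) ω)) ω,
            gt F (fun ω => xa Vx (al ω)) (fun ω => xs Hx (y ω))
              (fun ω => xt Vx Hx Rx (al ω) (k ω) (y ω)) ω))) := by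
    intro c
    by_cases hbigc : η * Pe F.p B ≤ Pe F.p (fun ω => B ω ∧ G ω = c)
    swap
    · exact ⟨∅, by simpa using hbd0, fun h => absurd h hbigc⟩
    have hsub : Sub (fun ω => B ω ∧ G ω = c) B := fun ω hω => hω.1
    have hc : ∀ ω, B ω ∧ G ω = c →
        offs (V m) (R m - V m) (al ω) (k ω) (y ω) (z m ω) = c := by
      intro ω hω
      have := hω.2
      rw [hG] at this
      exact this
    have hP : 0 < Pe F.p (fun ω => B ω ∧ G ω = c) := lt_of_lt_of_le (by positivity) hbigc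
    obtain ⟨al', nu', k', b', hal, hU⟩ := ufr_of (B' := fun ω => B ω ∧ G ω = c) hM hL hX hsub hc
    obtain ⟨Bd, hBd, hUc⟩ := hUE _ hsub hbigc τ (w m) wa wb (fun x => V (jx x) - 3) (R m) Pu
      (min PN (R m - V m + Pu)) al' nu' k' b' (awx V jx c.2.2 z)
      (fun ω => zs (R m - V m) (z m ω)) (fun ω => zt (V m) (R m - V m) (z m ω)) hU hM.i0
      qa qb d D hN
    rw [← hXd] at hUc
    have hD : V (jx wb) - 3 ≤ D := by
      have h1 := hN.D1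
      have h2 : (0 : ℝ) ≤ x₁ * (n₀ * d : ℕ) := by positivity
      have h3 : ((V (jx wb) - 3 : ℕ) : ℝ) ≤ D := by linarith
      exact_mod_cast h3
    obtain ⟨Bt, hBt, hgood⟩ := piece (B' := fun ω => B ω ∧ G ω = c) hM hL hX hsub hc hP hal hU hD
      hΛ (Rx := Rx) hnV hVx hnH hHx hnR hUc he hK0 hX0 hK
    refine ⟨Bt, ?_, fun _ => hgood⟩
    rw [hbd]
    linarith
  choose Btc hcard hgood using key
  refine ⟨offC.biUnion Btc, ?_, ?_⟩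
  · have h1 : ((offC.biUnion Btc).card : ℝ) ≤ ∑ c ∈ offC, ((Btc c).card : ℝ) := by
      exact_mod_cast Finset.card_biUnion_le
    refine h1.trans ((Finset.sum_le_sum fun c _ => hcard c).trans (le_of_eq ?_))
    rw [Finset.sum_const, nsmul_eq_mul, card_offC, hbd]
  · intro x q h1 h2 h3 h4 hbad n hn
    have hbad' : ∀ c ∈ offC, (x, q + 3) ∉ Btc c := by
      intro c hc hcon
      exact hbad (Finset.mem_biUnion.2 ⟨c, hc, hcon⟩)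
    have hGm : ∀ ω, B ω → G ω ∈ offC := by
      intro ω hω
      obtain ⟨a1, a2, a3, a4, a5⟩ := fact hM hL hX.mN hω
      rw [hG]
      exact hmem₀ _ (by simpa using offs_le a1 a2 a3 a4)
    have := ge_of_pieces F.isLaw hB0 G offC hGm
      (pd2 F τ x q (V (jx x)) n (fun ω => za (V (jx x)) (z (jx x) ω))
            (fun ω => zs (R (jx x) - V (jx x)) (z (jx x) ω))
            (fun ω => zt (V (jx x)) (R (jx x) - V (jx x)) (z (jx x) ω)))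
      (fun ω => (Pool.S6N.ctx F τ x q (V (jx x)) (R (jx x) - V (jx x) - Λ)
            (fun ω => za (V (jx x)) (z (jx x) ω))
            (fun ω => zs (R (jx x) - V (jx x)) (z (jx x) ω))
            (fun ω => zt (V (jx x)) (R (jx x) - V (jx x)) (z (jx x) ω)) ω,
            gt F (fun ω => xa Vx (al ω)) (fun ω => xs Hx (y ω))
              (fun ω => xt Vx Hx Rx (al ω) (k ω) (y ω)) ω)) hη.le hbig
      (fun c hc hbigc => hgood c hbigc x q h1 h2 h3 h4 (hbad' c hc) n hn)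
    rw [card_offC] at this
    exact this

end two

end Pool.H3X
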