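import Pool.Agent.H65.S6.H3C
import Pool.Agent.H33.S6.Zof
import Pool.Agent.H97.S6.Inp

/-!
# (H3) of the rising case from the local U-step
-/

set_option autoImplicit false

namespace Pool.H3X

open Finset Real
open Pool.Agent.H32.Dense hiding rd
open Pool.KSAT hiding zs
open Pool.Agent.H49.Ent Pool.STK Pool.KA Pool.K2S Pool.PB Pool.KS6 Pool.S6C Pool.S6N Pool.UST

/-- The direction number at the window is nonnegative. -/
theorem v0_nonneg {S : PCl 3} {a R h₁ : ℝ} {i₀ : Fin 3} {c s₂ : ℝ} {r : ℝ → ℝ} {D : Set ℝ}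
    {σ : ℝ → Row} {act : ℚ → ℝ} {K : Set ℝ} {W : ℝ → ℝ} {v₁ t : ℚ} {e₁ Q₀ P g v₀ v ρ a₀ α : ℝ}
    (hC : Cs S a R h₁ i₀ c s₂ r D σ)
    (hL : Loc S i₀ c s₂ r D σ act K W v₁ t e₁ Q₀ P g v₀ v ρ a₀ α) : 0 ≤ v₀ := by
  refine le_of_forall_pos_le_add fun e he => ?_
  have hW1 := hL.W1
  have hv := hL.v0
  obtain ⟨δ, hδ, h1⟩ := hL.rot 1 one_pos
  obtain ⟨q, q1, q2⟩ := exists_rat_btwn (show W g < min (min (W g + δ) (W g + e / (1 + v))) 1 from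
    lt_min (lt_min (by linarith) (by
      have : 0 < e / (1 + v) := by positivity
      linarith only [this])) hW1)
  have q3 : (q : ℝ) < W g + δ := q2.trans_le ((min_le_left _ _).trans (min_le_left _ _))
  have q4 : (q : ℝ) < W g + e / (1 + v) := q2.trans_le ((min_le_left _ _).trans (min_le_right _ _))
  have q5 : (q : ℝ) < 1 := q2.trans_le (min_le_right _ _)
  have q6 : (0 : ℝ) < q := hL.w0.trans q1
  have h2 := h1 q (by rw [abs_lt]; constructor <;> linarith)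
  have hR := hC.row 1 one_pos le_rfl hC.D1
  have h3 : 0 ≤ (σ 1).rot q := num_nonneg hC.ne (hR.rot q (by exact_mod_cast q6.le)
    (by exact_mod_cast q5.le))
  have h4 : |(q : ℝ) - W g| = q - W g := abs_of_pos (by linarith only [q1])
  rw [h4, abs_le] at h2
  have h5 : (1 + v) * ((q : ℝ) - W g) ≤ (1 + v) * (e / (1 + v)) :=
    mul_le_mul_of_nonneg_left (by linarith only [q4]) (by linarith only [hv, q5, q6])
  have h6 : (1 + v) * (e / (1 + v)) = e := by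
    have : 1 + v ≠ 0 := by linarith only [hv, q5, q6]
    field_simp
  linarith only [h2, h3, h5, h6, h2.2]

/-- The number of rows. -/
theorem qd_ge {P g Y l : ℝ} {J ql qh : ℕ} (hP : Y * l ≤ P - g) (hY : 2 ≤ Y) (hl : 0 < l)
    (hT : 16 ≤ l * J) (hql : ql = ⌊(P - g - Y * l) * J⌋₊) (hqh : qh = ⌊(P - g + Y * l) * J⌋₊) :
    Y * (l * J) ≤ ((qh - ql : ℕ) : ℝ) := by
  have hJ : (0 : ℝ) ≤ J := Nat.cast_nonneg J
  have h1 : (ql : ℝ) ≤ (P - g - Y * l) * J := by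
    rw [hql]
    exact Nat.floor_le (mul_nonneg (by linarith only [hP]) hJ)
  have h2 : (P - g + Y * l) * J < (qh : ℝ) + 1 := by
    rw [hqh]
    exact Nat.lt_floor_add_one _
  have h3 : (2 : ℝ) * 16 ≤ Y * (l * J) := by nlinarith only [hY, hT]
  have h4 : (P - g - Y * l) * (J : ℝ) = (P - g) * J - Y * (l * J) := by ring
  have h5 : (P - g + Y * l) * (J : ℝ) = (P - g) * J + Y * (l * J) := by ring
  rw [h4] at h1
  rw [h5] at h2
  have h6 : ql ≤ qh := by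
    have : (ql : ℝ) ≤ qh := by linarith only [h1, h2, h3]
    exact_mod_cast this
  rw [Nat.cast_sub h6]
  linarith only [h1, h2, h3]

/-- The number of windows. -/
theorem wd_ge {σ : ℝ → Row} {N : ℕ} {u : ℕ → ℚ} {w₀ v₀ v g ρ e l cw Cn : ℝ} {J : ℕ}
    (Z : Zon σ N u w₀ v₀ v g ρ e) (hl : 0 < l) (hT : 16 ≤ l * J) (hcw0 : 0 < cw) (hCn : 0 < Cn)
    (hcw : cw * Cn ≤ 1 / 4) (hw : l ≤ (u 0 : ℝ) - u N) :
    stp cw (Cn * l) J + 1 ≤ wl u J 0 - wl u J N := by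
  have hJ : (0 : ℝ) ≤ J := Nat.cast_nonneg J
  have h1 : ((stp cw (Cn * l) J : ℕ) : ℝ) ≤ cw * (Cn * l) * J + 1 :=
    (Nat.ceil_lt_add_one (by positivity)).le
  have h2 : cw * (Cn * l) * (J : ℝ) ≤ 1 / 4 * (l * J) := by
    have : cw * (Cn * l) * (J : ℝ) = cw * Cn * (l * J) := by ring
    rw [this]
    exact mul_le_mul_of_nonneg_right hcw (by linarith only [hT])
  have h3 : (wl u J N : ℝ) ≤ u N * J := Nat.floor_le (mul_nonneg (Z.posR le_rfl).le hJ)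
  have h4 : (u 0 : ℝ) * J < (wl u J 0 : ℝ) + 1 := Nat.lt_floor_add_one _
  have h5 : l * (J : ℝ) ≤ (u 0 - u N) * J := mul_le_mul_of_nonneg_right hw hJ
  have h6 : ((stp cw (Cn * l) J + 1 + wl u J N : ℕ) : ℝ) ≤ wl u J 0 := by
    push_cast
    linarith only [hT, h1, h2, h3, h4, h5]
  have h7 : stp cw (Cn * l) J + 1 + wl u J N ≤ wl u J 0 := by exact_mod_cast h6
  omega

/-- The block. -/
theorem blk_num {ι' ι κ Cn l : ℝ} {n₀ J : ℕ} (hι0 : 0 < ι') (hι1 : ι' ≤ 1) (hιι : ι' ≤ ι)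
    (hκ : 0 < κ) (hCn : 0 < Cn) (hn₀ : 1 ≤ n₀) (hT1 : 1 ≤ l * J)
    (h1 : (2 * (3 + n₀) * Real.log 2 + Pool.S6U.brC 800) / (5 * ι' / 8 * Real.log 2) +
      (3 + n₀) + 2 ≤ 3 / 4 * κ * Cn * n₀ * (l * J - 1))
    (h2 : 3 * (κ * Cn) + 20 ≤ κ * Cn * (l * J)) :
    ∃ d : ℕ, κ * (Cn * l) * J / 2 ≤ d ∧ (d : ℝ) ≤ κ * (Cn * l) * J ∧ 0 < n₀ * d ∧
      3 + n₀ * d ≤ ⌊3 / 4 * κ * Cn * n₀ * ⌊l * J⌋₊⌋₊ ∧
      0 ≤ (2 - ι' / 8) * (n₀ * d : ℕ) * Real.log 2 - ι' / 8 * Real.log 2 * (n₀ * d : ℕ) -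
        Pool.S6U.brC 800 ∧
      (2 - ι) * ⌊3 / 4 * κ * Cn * n₀ * ⌊l * J⌋₊⌋₊ * Real.log 2 ≤
        (1 - 401 ^ 3 * (ι' / (16 * 401 ^ 3))) * ((2 - ι' / 8) * (n₀ * d : ℕ) * Real.log 2 -
          ι' / 8 * Real.log 2 * (n₀ * d : ℕ) - Pool.S6U.brC 800) := by
  obtain ⟨T, hT⟩ : ∃ T : ℝ, T = l * J := ⟨_, rfl⟩
  obtain ⟨u, hu⟩ : ∃ u, u = Real.log 2 := ⟨_, rfl⟩
  have hu0 : 0 < u := by rw [hu]; exact Real.log_pos (by norm_num)
  obtain ⟨b, hb⟩ : ∃ b, b = Pool.S6U.brC 800 := ⟨_, rfl⟩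
  have hb0 : 0 ≤ b := by
    rw [hb]
    unfold Pool.S6U.brC
    have a1 : 0 ≤ Real.log (12 * 800 + 3) := Real.log_nonneg (by norm_num)
    have a2 : 0 ≤ Real.log (2 * 800 + 9) := Real.log_nonneg (by norm_num)
    positivity
  obtain ⟨κ₁, hκ₁⟩ : ∃ κ₁, κ₁ = 3 / 4 * κ * Cn * n₀ := ⟨_, rfl⟩
  have hn0 : (1 : ℝ) ≤ n₀ := by exact_mod_cast hn₀
  have hκ₁0 : 0 < κ₁ := by rw [hκ₁]; positivity
  rw [← hT] at h1 h2 hT1 ⊢
  rw [← hu, ← hb, ← hκ₁] at h1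
  rw [← hu, ← hb, ← hκ₁]
  obtain ⟨n, hn⟩ : ∃ n, n = ⌊κ₁ * ⌊T⌋₊⌋₊ := ⟨_, rfl⟩
  rw [← hn]
  have hTf1 := Nat.floor_le (show 0 ≤ T by linarith only [hT1])
  have hTf2 := Nat.lt_floor_add_one T
  have n1 : (n : ℝ) ≤ κ₁ * T := by
    rw [hn]
    refine (Nat.floor_le (by positivity)).trans ?_
    exact mul_le_mul_of_nonneg_left hTf1 hκ₁0.le
  have n2 : κ₁ * (T - 1) - 1 ≤ n := by
    have a1 := Nat.lt_floor_add_one (κ₁ * (⌊T⌋₊ : ℝ))
    rw [← hn] at a1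
    have a2 : κ₁ * (T - 1) ≤ κ₁ * ⌊T⌋₊ := mul_le_mul_of_nonneg_left (by linarith only [hTf2]) hκ₁0.le
    linarith only [a1, a2]
  obtain ⟨A, hA⟩ : ∃ A, A = (2 * (3 + n₀) * u + b) / (5 * ι' / 8 * u) := ⟨_, rfl⟩
  have hA0 : 0 ≤ A := by rw [hA]; positivity
  have hAe : A * (5 * ι' / 8 * u) = 2 * (3 + n₀) * u + b := by
    rw [hA]
    field_simp
  rw [← hA] at h1
  have n3 : A + (3 + n₀) + 1 ≤ n := by linarith only [n2, h1]
  have n3' : 3 + n₀ + 1 ≤ n := by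
    have : ((3 + n₀ + 1 : ℕ) : ℝ) ≤ n := by
      push_cast
      linarith only [n2, h1, hA0]
    exact_mod_cast this
  obtain ⟨d, hd⟩ : ∃ d, d = (n - 3) / n₀ := ⟨_, rfl⟩
  obtain ⟨X, hX⟩ : ∃ X, X = n₀ * d := ⟨_, rfl⟩
  have d1 : X ≤ n - 3 := by
    rw [hX, hd]
    exact Nat.mul_div_le _ _
  have d2 : n - 3 < X + n₀ := by
    rw [hX, hd]
    exact Nat.lt_mul_div_succ _ hn₀
  have d1' : (X : ℝ) + 3 ≤ n := by
    have : X + 3 ≤ n := by omega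
    exact_mod_cast this
  have d2' : (n : ℝ) ≤ X + n₀ + 3 := by
    have : n ≤ X + n₀ + 3 := by omega
    exact_mod_cast this
  have hXr : (X : ℝ) = n₀ * d := by
    rw [hX]
    push_cast
    ring
  refine ⟨d, ?_, ?_, ?_, ?_, ?_, ?_⟩
  · have e1 : κ * (Cn * l) * (J : ℝ) / 2 = κ * Cn * T / 2 := by rw [hT]; ring
    rw [e1]
    have a1 : κ₁ * (T - 1) - 1 ≤ n₀ * d + n₀ + 3 := by linarith only [n2, d2', hXr]
    have a2 : κ₁ * (T - 1) = n₀ * (3 / 4 * (κ * Cn) * (T - 1)) := by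
      rw [hκ₁]
      ring
    have a3 : (n₀ : ℝ) * (κ * Cn * T / 2) ≤ n₀ * d := by
      have a4 : (n₀ : ℝ) * (3 * (κ * Cn) + 20) ≤ n₀ * (κ * Cn * T) :=
        mul_le_mul_of_nonneg_left h2 (by linarith only [hn0])
      linarith only [hn0, n2, d2', hXr, a2, a4]
    exact le_of_mul_le_mul_left a3 (by linarith only [hn0])
  · have e1 : κ * (Cn * l) * (J : ℝ) = κ * Cn * T := by rw [hT]; ring
    rw [e1]
    have a3 : (n₀ : ℝ) * d ≤ n₀ * (κ * Cn * T) := by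
      have a2 : κ₁ * T = 3 / 4 * (n₀ * (κ * Cn * T)) := by
        rw [hκ₁]
        ring
      have a4 : 0 ≤ (n₀ : ℝ) * (κ * Cn * T) := by positivity
      linarith only [hn0, hκ₁0, n1, h1, hA0, d1', hXr, a2]
    exact le_of_mul_le_mul_left a3 (by linarith only [hn0])
  · rw [← hX]
    omega
  · rw [← hX]
    omega
  · rw [← hX]
    have a1 : A + 1 ≤ X := by linarith only [n2, h1, d2']
    have a2 : b ≤ u * X := by
      have a3 : A * (5 * ι' / 8 * u) ≤ A * u := by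
        refine mul_le_mul_of_nonneg_left ?_ hA0
        have : 5 * ι' / 8 * u ≤ 1 * u := mul_le_mul_of_nonneg_right (by linarith only [hι1]) hu0.le
        linarith only [this]
      have a4 : A * u ≤ X * u := mul_le_mul_of_nonneg_right (by linarith only [n2, h1, d2']) hu0.le
      have a5 : 0 ≤ 2 * (3 + (n₀ : ℝ)) * u := by positivity
      linarith only [hAe, a3, a4, a5]
    have a6 : ι' / 4 * (u * X) ≤ 1 * (u * X) :=
      mul_le_mul_of_nonneg_right (by linarith only [hι1]) (by positivity)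
    linarith only [a2, a6]
  · rw [← hX]
    have e1 : 1 - 401 ^ 3 * (ι' / (16 * 401 ^ 3)) = 1 - ι' / 16 := by
      field_simp
    rw [e1]
    have hX0 : (0 : ℝ) ≤ X := Nat.cast_nonneg _
    have huX : 0 ≤ u * X := by positivity
    have a1 : (2 - ι) * n * u ≤ (2 - ι') * n * u := by
      refine mul_le_mul_of_nonneg_right ?_ hu0.le
      exact mul_le_mul_of_nonneg_right (by linarith only [hιι]) (Nat.cast_nonneg _)
    have a2 : (1 - ι' / 16) * ((2 - ι' / 8) * X * u - ι' / 8 * u * X - b) =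
        (2 - 3 * ι' / 8) * (u * X) + ι' ^ 2 / 64 * (u * X) - b + ι' / 16 * b := by ring
    have a3 : 0 ≤ ι' ^ 2 / 64 * (u * X) := by positivity
    have a4 : 0 ≤ ι' / 16 * b := by positivity
    have a5 : (2 - 3 * ι' / 8) * (u * n) ≤ (2 - 3 * ι' / 8) * (u * X) + 2 * (3 + n₀) * u := by
      have a6 : u * n ≤ u * X + (3 + n₀) * u := by
        have := mul_le_mul_of_nonneg_left d2' hu0.le
        linarith only [this]
      have a7 : (2 - 3 * ι' / 8) * (u * n) ≤ (2 - 3 * ι' / 8) * (u * X + (3 + n₀) * u) :=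
        mul_le_mul_of_nonneg_left a6 (by linarith only [hι1])
      have a8 : 0 ≤ 3 * ι' / 8 * ((3 + n₀) * u) := by positivity
      linarith only [a7, a8]
    have a9 : 2 * (3 + n₀) * u + b ≤ 5 * ι' / 8 * (u * n) := by
      rw [← hAe]
      have : A * (5 * ι' / 8 * u) ≤ n * (5 * ι' / 8 * u) :=
        mul_le_mul_of_nonneg_right (by linarith only [hn0, n2, h1]) (by positivity)
      linarith only [this]
    have a10 : (2 - ι') * n * u = (2 - 3 * ι' / 8) * (u * n) - 5 * ι' / 8 * (u * n) := by ring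
    linarith only [a1, a3, a4, a5, a9]

section nm

variable {σ : ℝ → Row} {N : ℕ} {u : ℕ → ℚ} {w₀ v₀ v g ρ P e l CZ Y C₂ cw κ e' e₂ γ x₁ : ℝ}
  {n₀ J : ℕ}

/-- The labels. -/
theorem Nm.lab (h : Nm σ N u w₀ v₀ v g ρ P e l CZ Y C₂ cw κ e' e₂ γ x₁ n₀ J) {Cx lm C' : ℝ}
    (hCx : 0 < Cx) (hC' : C' = Cx + (1 + v + ρ) * CZ + 1) (hG : C' * l ≤ g - w₀ - v₀)
    {Vx Hx Rx Λ : ℕ} (hVx : (Vx : ℝ) ≤ (v₀ + Cx * l) * J)
    (hHx : (Hx : ℝ) ≤ (g - w₀ - v₀ + Cx * l) * J) (hRx : (Rx : ℝ) ≤ (g - w₀ + Cx * l) * J)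
    (hVx' : (v₀ - Cx * l) * J ≤ Vx) (hHx' : (g - w₀ - v₀ - Cx * l) * J ≤ Hx)
    (hΛ : (Λ : ℝ) ≤ lm * (l * J))
    (hT : 3 * Real.log 1601 + 3 * Real.log 1001 + 4 ≤ l * J) :
    ∃ nV nH : ℕ, (∀ j ≤ N, nV ≤ vl u w₀ v₀ v e J j) ∧ nV ≤ Vx ∧
      (∀ j ≤ N, nH ≤ rl u w₀ g ρ e J j - vl u w₀ v₀ v e J j) ∧ nH ≤ Hx ∧
      (∀ j ≤ N, nV + nH ≤ rl u w₀ g ρ e J j) ∧
      (2 * (Λ : ℝ)) * Real.log 2 + 3 * Real.log 1601 +
      ((((Vx - nV : ℕ) : ℝ) + ((Hx - nH : ℕ) : ℝ) + ((Rx - (nV + nH) : ℕ) : ℝ)) * Real.log 2 +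
        3 * Real.log 1001) ≤ (2 * lm + 3 * Cx + 4 * C' + 1) * (l * J) := by
  have hJ : (0 : ℝ) ≤ J := Nat.cast_nonneg J
  have hv := h.Z.v0
  have hρ := h.Z.ρ0
  have he := h.Z.e0
  have hl := h.l0
  have hCZ := h.CZ0
  have hv00 := h.v00
  obtain ⟨T, hTd⟩ : ∃ T : ℝ, T = l * J := ⟨_, rfl⟩
  have hT16 := h.T16
  rw [← hTd] at hT16 hT hΛ ⊢
  have heJ : 100 * (e * J) ≤ T := by
    have := h.el
    rw [hTd]
    nlinarith only [this]
  have hC'0 : 0 < C' := by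
    rw [hC']
    positivity
  have hC'T : C' * T = Cx * T + CZ * T + v * CZ * T + ρ * CZ * T + T := by
    rw [hC']
    ring
  have hT0 : 0 ≤ T := by linarith only [hT16]
  have p1 : 0 ≤ Cx * T := by positivity
  have p2 : 0 ≤ CZ * T := by positivity
  have p3 : 0 ≤ v * CZ * T := by positivity
  have p4 : 0 ≤ ρ * CZ * T := by positivity
  have eJ : ∀ c : ℝ, c * l * (J : ℝ) = c * T := fun c => by rw [hTd]; ring
  have e1 : (v₀ - C' * l) * (J : ℝ) = v₀ * J - C' * T := by rw [sub_mul, eJ]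
  have e2 : (g - w₀ - v₀ - C' * l) * (J : ℝ) = (g - w₀ - v₀) * J - C' * T := by
    rw [sub_mul, eJ]
  have e3 : (v₀ + Cx * l) * (J : ℝ) = v₀ * J + Cx * T := by rw [add_mul, eJ]
  have e4 : (g - w₀ - v₀ + Cx * l) * (J : ℝ) = (g - w₀ - v₀) * J + Cx * T := by
    rw [add_mul, eJ]
  have e5 : (g - w₀ + Cx * l) * (J : ℝ) = (g - w₀) * J + Cx * T := by rw [add_mul, eJ]
  have e6 : (v₀ - Cx * l) * (J : ℝ) = v₀ * J - Cx * T := by rw [sub_mul, eJ]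
  have e7 : (g - w₀ - v₀ - Cx * l) * (J : ℝ) = (g - w₀ - v₀) * J - Cx * T := by
    rw [sub_mul, eJ]
  rw [e3] at hVx
  rw [e4] at hHx
  rw [e5] at hRx
  rw [e6] at hVx'
  rw [e7] at hHx'
  obtain ⟨nV, hnV⟩ : ∃ nV, nV = ⌊v₀ * (J : ℝ) - C' * T⌋₊ := ⟨_, rfl⟩
  obtain ⟨nH, hnH⟩ : ∃ nH, nH = ⌊(g - w₀ - v₀) * (J : ℝ) - C' * T⌋₊ := ⟨_, rfl⟩
  have hG0 : 0 ≤ (g - w₀ - v₀) * (J : ℝ) - C' * T := by
    rw [← e2]
    exact mul_nonneg (by linarith only [hG]) hJ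
  have V1 : v₀ * (J : ℝ) - C' * T - 1 ≤ nV := by
    have := Nat.lt_floor_add_one (v₀ * (J : ℝ) - C' * T)
    rw [← hnV] at this
    linarith only [this]
  have V2 : (nV : ℝ) ≤ v₀ * J := by
    rw [hnV]
    refine (Nat.cast_le.mpr (Nat.floor_le_floor (b := v₀ * (J : ℝ)) ?_)).trans
      (Nat.floor_le (by positivity))
    have : 0 ≤ C' * T := by positivity
    linarith only [hHx', hHx, hT16, hC'T, p2, p3, p4]
  have H1 : (g - w₀ - v₀) * (J : ℝ) - C' * T - 1 ≤ nH := by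
    have := Nat.lt_floor_add_one ((g - w₀ - v₀) * (J : ℝ) - C' * T)
    rw [← hnH] at this
    linarith only [this]
  have H2 : (nH : ℝ) ≤ (g - w₀ - v₀) * (J : ℝ) - C' * T := by
    rw [hnH]
    exact Nat.floor_le hG0
  have vl1 : ∀ j ≤ N, (vl u w₀ v₀ v e J j : ℝ) ≤ v₀ * J + v * CZ * T := by
    intro j hj
    refine (h.vl_le hj).trans (le_of_eq ?_)
    rw [hTd]
    ring
  have rl1 : ∀ j ≤ N, (g - w₀) * J - ρ * CZ * T - 20 * (e * J) - 1 ≤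
      (rl u w₀ g ρ e J j : ℝ) := by
    intro j hj
    refine le_trans (le_of_eq ?_) (h.rl_ge hj)
    rw [hTd]
    ring
  have hVxn : nV ≤ Vx := by
    rw [hnV]
    refine Nat.floor_le_of_le ?_
    linarith only [hVx', hT16, hC'T, p2, p3, p4]
  have hHxn : nH ≤ Hx := by
    rw [hnH]
    refine Nat.floor_le_of_le ?_
    linarith only [hHx', hT16, hC'T, p2, p3, p4]
  refine ⟨nV, nH, ?_, hVxn, ?_, hHxn, ?_, ?_⟩
  · intro j hj
    rw [hnV]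
    unfold vl
    refine Nat.floor_le_floor ?_
    have g1 := (abs_le.1 (h.near hj)).1
    have g2 := mul_le_mul_of_nonneg_left g1 hv
    have g3 : (v₀ + v * -(CZ * l) - 10 * e) * (J : ℝ) ≤
        (v₀ + v * (u j - w₀) - 10 * e) * (J : ℝ) :=
      mul_le_mul_of_nonneg_right (by linarith only [g2]) hJ
    refine le_trans ?_ g3
    have g4 : (v₀ + v * -(CZ * l) - 10 * e) * (J : ℝ) = v₀ * J - v * CZ * T - 10 * (e * J) := by
      rw [hTd]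
      ring
    rw [g4]
    linarith only [hHx', hHx, hT16, heJ, hC'T, p2, p4]
  · intro j hj
    have g1 : ((nH + vl u w₀ v₀ v e J j : ℕ) : ℝ) ≤ rl u w₀ g ρ e J j := by
      push_cast
      have := vl1 j hj
      have := rl1 j hj
      linarith
    have g2 : nH + vl u w₀ v₀ v e J j ≤ rl u w₀ g ρ e J j := by exact_mod_cast g1
    omega
  · intro j hj
    have g1 : ((nV + nH : ℕ) : ℝ) ≤ rl u w₀ g ρ e J j := by
      push_cast
      have := rl1 j hj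
      linarith only [hHx', hHx, hT16, heJ, hC'T, p2, p3, V2, H2, this]
    exact_mod_cast g1
  · have u0 : 0 ≤ Real.log 2 := Real.log_nonneg (by norm_num)
    have u1 : Real.log 2 ≤ 1 := by
      have := Real.log_two_lt_d9
      linarith only [this]
    have k1 : ((Vx - nV : ℕ) : ℝ) ≤ (Cx + C') * T + 1 := by
      rw [Nat.cast_sub hVxn]
      linarith only [hVx, V1]
    have k2 : ((Hx - nH : ℕ) : ℝ) ≤ (Cx + C') * T + 1 := by
      rw [Nat.cast_sub hHxn]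
      linarith only [hHx, H1]
    have k3 : ((Rx - (nV + nH) : ℕ) : ℝ) ≤ (Cx + 2 * C') * T + 2 := by
      rcases le_total (nV + nH) Rx with g1 | g1
      · rw [Nat.cast_sub g1]
        push_cast
        linarith only [hRx, V1, H1]
      · rw [Nat.sub_eq_zero_of_le g1]
        have : 0 ≤ (Cx + 2 * C') * T := by positivity
        push_cast
        linarith only [hHx', hHx, hT16, hC'T, p2, p3, p4]
    have k4 : (0 : ℝ) ≤ 2 * (Λ : ℝ) + (((Vx - nV : ℕ) : ℝ) + ((Hx - nH : ℕ) : ℝ) +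
      ((Rx - (nV + nH) : ℕ) : ℝ)) := by positivity
    have k5 : (2 * (Λ : ℝ) + (((Vx - nV : ℕ) : ℝ) + ((Hx - nH : ℕ) : ℝ) +
      ((Rx - (nV + nH) : ℕ) : ℝ))) * Real.log 2 ≤ (2 * (Λ : ℝ) + (((Vx - nV : ℕ) : ℝ) +
      ((Hx - nH : ℕ) : ℝ) + ((Rx - (nV + nH) : ℕ) : ℝ))) * 1 :=
      mul_le_mul_of_nonneg_left u1 k4
    linarith only [hΛ, hT, k1, k2, k3, k5]

end nm

end Pool.H3X
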