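import Pool.Agent.H65.S6.H3T

/-!
# (H3) of the rising case
-/

set_option autoImplicit false

namespace Pool.H3X

open Finset Real
open Pool.Agent.H32.Dense hiding rd
open Pool.KSAT hiding zs
open Pool.Agent.H49.Ent Pool.STK Pool.KA Pool.K2S Pool.PB Pool.KS6 Pool.S6C Pool.S6N Pool.UST

open Classical in
/-- **(H3)** with lower bounds for the precisions of the exact frame. -/
def H3v2 : Prop :=
  RLoc fun S i₀ _ σ w₀ P g v₀ v ρ _ => ∀ ι θ lm CZ Cx : ℝ, 0 < ι → 0 < θ → 0 < lm → 0 < CZ →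
    0 < Cx → ∃ Y₀ : ℝ, 0 < Y₀ ∧ ∀ Y C₂ : ℝ, Y₀ ≤ Y → (2 + v + ρ) * (CZ + Y) ≤ C₂ →
    ∃ κ₁ ε₀ l₀ : ℝ, 0 < κ₁ ∧ κ₁ ≤ lm ∧ 0 < ε₀ ∧ 0 < l₀ ∧
    ∀ ε l : ℝ, 0 < ε → ε ≤ ε₀ → 0 < l → l ≤ l₀ → ∀ (N : ℕ) (u : ℕ → ℚ),
    Zsc σ N u w₀ v₀ v g ρ ε l CZ → l ≤ (u 0 : ℝ) - u N → Clp S (fun J F A =>
      ∀ B : F.Ω → Prop, Sub B A →
      Pe F.p A ≤ 4 * Pe F.p B → ∀ (τ : Fin 3 → Fin 3) (y : F.Ω → Pln) (z : ℕ → F.Ω → Pln)
      (al nu k b : F.Ω → ℝ), Fms F B i₀ N (wl u J) (vl u w₀ v₀ v (ε * l) J)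
        (rl u w₀ g ρ (ε * l) J) ⌊(P - g + v₀ + C₂ * l) * J⌋₊ ⌊(P - w₀ + C₂ * l) * J⌋₊ τ y z
        al nu k b →
      ∀ Vx Hx Rx : ℕ, Vx ≤ (v₀ + Cx * l) * J → Hx ≤ (g - w₀ - v₀ + Cx * l) * J →
        Rx ≤ (g - w₀ + Cx * l) * J → (v₀ - Cx * l) * J ≤ Vx →
        (g - w₀ - v₀ - Cx * l) * J ≤ Hx → ∀ ql qh : ℕ, ql = ⌊(P - g - Y * l) * J⌋₊ →
        qh = ⌊(P - g + Y * l) * J⌋₊ →
      ((((Finset.Ico (wl u J N) (wl u J 0)) ×ˢ (Finset.Ico ql qh)).filter fun wq =>
        ¬ ∀ j, j ≤ N → wl u J j ≤ wq.1 → (∀ i < j, wq.1 < wl u J i) →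
          (2 - ι) * ⌊κ₁ * ⌊l * J⌋₊⌋₊ * Real.log 2 ≤ CH (Pool.Agent.H49.Ent.cond F.p B True)
            (pd2 F τ wq.1 wq.2 (vl u w₀ v₀ v (ε * l) J j) ⌊κ₁ * ⌊l * J⌋₊⌋₊
              (fun ω => za (vl u w₀ v₀ v (ε * l) J j) (z j ω))
              (fun ω => zs (rl u w₀ g ρ (ε * l) J j - vl u w₀ v₀ v (ε * l) J j) (z j ω))
              (fun ω => zt (vl u w₀ v₀ v (ε * l) J j)
                (rl u w₀ g ρ (ε * l) J j - vl u w₀ v₀ v (ε * l) J j) (z j ω)))
            (fun ω => (Pool.S6N.ctx F τ wq.1 wq.2 (vl u w₀ v₀ v (ε * l) J j)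
                (rl u w₀ g ρ (ε * l) J j - vl u w₀ v₀ v (ε * l) J j - ⌊lm * ⌊l * J⌋₊⌋₊)
                (fun ω => za (vl u w₀ v₀ v (ε * l) J j) (z j ω))
                (fun ω => zs (rl u w₀ g ρ (ε * l) J j - vl u w₀ v₀ v (ε * l) J j) (z j ω))
                (fun ω => zt (vl u w₀ v₀ v (ε * l) J j)
                  (rl u w₀ g ρ (ε * l) J j - vl u w₀ v₀ v (ε * l) J j) (z j ω)) ω,
              gt F (fun ω => xa Vx (al ω)) (fun ω => xs Hx (y ω))
                (fun ω => xt Vx Hx Rx (al ω) (k ω) (y ω)) ω))).card : ℝ) ≤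
        θ * (wl u J 0 - wl u J N : ℕ) * (qh - ql : ℕ))

/-- **(H3)** -/
theorem h3_core (hUE : UeStmt {v | 0 ≤ v}) : H3v2 := by
  intro S a R h₁ i₀ c s₂ r D σ hC act K₀ W v₁ t e₀ Q₀ P g v₀ v ρ a₀ α hL hvρ ι θ lm CZ Cx hι hθ
    hlm hCZ hCx
  have hv := hL.v0
  have hρ := hL.ρ0
  have hα := hL.α0
  have hv00 := v0_nonneg hC hL
  have hW0 := hL.w0
  have hW1 := hL.W1
  obtain ⟨G₀, hG₀, hroom⟩ := hL.room_all hC hvρ.ne
  obtain ⟨-, -, -, -, -, -, hP1, hPg, -, -, hgap, hv01⟩ := hroom G₀ le_rfl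
  have hR := hC.row 1 one_pos le_rfl hC.D1
  have hg0 : 0 < g := by linarith [hL.w0]
  have hrt0 : ∀ q : ℚ, 0 ≤ q → q ≤ 1 → 0 ≤ (σ 1).rot q := fun q h0 h1 =>
    num_nonneg hC.ne (hR.rot q h0 h1)
  -- the constants of the entropy
  obtain ⟨ι', hι'⟩ : ∃ ι', ι' = min ι 1 := ⟨_, rfl⟩
  have hι0 : 0 < ι' := by rw [hι']; exact lt_min hι one_pos
  have hι1 : ι' ≤ 1 := by rw [hι']; exact min_le_right _ _
  have hιι : ι' ≤ ι := by rw [hι']; exact min_le_left _ _
  have hlog : 0 < Real.log 2 := Real.log_pos (by norm_num)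
  obtain ⟨e₁, he₁⟩ : ∃ e₁, e₁ = ι' / 8 * Real.log 2 := ⟨_, rfl⟩
  have he₁0 : 0 < e₁ := by rw [he₁]; positivity
  obtain ⟨η, hη⟩ : ∃ η, η = ι' / (16 * 401 ^ 3) := ⟨_, rfl⟩
  have hη0 : 0 < η := by rw [hη]; positivity
  obtain ⟨θ₁, hθ₁⟩ : ∃ θ₁, θ₁ = θ / (16 * 401 ^ 3) := ⟨_, rfl⟩
  have hθ₁0 : 0 < θ₁ := by rw [hθ₁]; positivity
  obtain ⟨C', hC'⟩ : ∃ C', C' = Cx + (1 + v + ρ) * CZ + 1 := ⟨_, rfl⟩
  have hC'0 : 0 < C' := by rw [hC']; positivity
  obtain ⟨CK, hCK⟩ : ∃ CK, CK = 2 * lm + 3 * Cx + 4 * C' + 1 := ⟨_, rfl⟩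
  have hCK0 : 0 < CK := by rw [hCK]; positivity
  exact by
   obtain ⟨n₀, γ, x₁, hn₀, hγ, hγ1, hx₁, hU1⟩ := hUE (ι' / 8) θ₁ α (by positivity) hθ₁0 hα
   have hn₀r : (1 : ℝ) ≤ n₀ := by exact_mod_cast hn₀
   obtain ⟨Y₀, hY₀⟩ : ∃ Y₀, Y₀ = max 2 (8 * 401 ^ 3 * CK / (e₁ * θ)) := ⟨_, rfl⟩
   refine ⟨Y₀, by rw [hY₀]; exact lt_max_of_lt_left two_pos, fun Y C₂ hY hC₂ => ?_⟩
   have hY2 : 2 ≤ Y := le_trans (by rw [hY₀]; exact le_max_left _ _) hY
   have hYK : 8 * 401 ^ 3 * CK ≤ Y * (e₁ * θ) := by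
     have : 8 * 401 ^ 3 * CK / (e₁ * θ) ≤ Y := le_trans (by rw [hY₀]; exact le_max_right _ _) hY
     rwa [div_le_iff₀ (by positivity)] at this
   have hY0 : 0 < Y := by linarith only [hY2]
   obtain ⟨Cn, hCn⟩ : ∃ Cn, Cn = CZ + 1 := ⟨_, rfl⟩
   have hCn0 : 0 < Cn := by rw [hCn]; linarith only [hCZ]
   obtain ⟨cw, hcw⟩ : ∃ cw, cw = min (1 / (4 * Cn)) (min (γ * Y / (4 * (1 + v) * Cn))
     (lm / (4 * (1 + ρ) * Cn))) := ⟨_, rfl⟩
   have hcw0 : 0 < cw := by
     rw [hcw]
     exact lt_min (by positivity) (lt_min (by positivity) (by positivity))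
   have hcw1 : cw * Cn ≤ 1 / 4 := by
     have h1 : cw ≤ 1 / (4 * Cn) := by rw [hcw]; exact min_le_left _ _
     rw [le_div_iff₀ (by positivity)] at h1
     linarith only [h1]
   have hcw2 : (1 + v) * (cw * Cn) ≤ γ * Y / 4 := by
     have h1 : cw ≤ γ * Y / (4 * (1 + v) * Cn) := by
       rw [hcw]
       exact (min_le_right _ _).trans (min_le_left _ _)
     rw [le_div_iff₀ (by positivity)] at h1
     linarith only [h1]
   have hcw3 : ρ * (cw * Cn) ≤ lm / 4 := by
     have h1 : cw ≤ lm / (4 * (1 + ρ) * Cn) := by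
       rw [hcw]
       exact (min_le_right _ _).trans (min_le_right _ _)
     rw [le_div_iff₀ (by positivity)] at h1
     have h2 : 0 ≤ cw * Cn := by positivity
     linarith only [h1, h2]
   exact by
    obtain ⟨κ₀, hκ₀, hU2⟩ := hU1 v hv ((Y + 1) / Cn) cw (by positivity) hcw0
    obtain ⟨κ, hκ⟩ : ∃ κ, κ = min κ₀ (min (lm / (n₀ * Cn)) (γ * Y / (4 * (1 + x₁) * (n₀ * Cn)))) :=
      ⟨_, rfl⟩
    have hκ0 : 0 < κ := by
      rw [hκ]
      exact lt_min hκ₀ (lt_min (by positivity) (by positivity))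
    have hκ1 : κ * (n₀ * Cn) ≤ lm := by
      have h1 : κ ≤ lm / (n₀ * Cn) := by
        rw [hκ]
        exact (min_le_right _ _).trans (min_le_left _ _)
      rwa [le_div_iff₀ (by positivity)] at h1
    have hκ2 : (1 + x₁) * (n₀ * (κ * Cn)) ≤ γ * Y / 4 := by
      have h1 : κ ≤ γ * Y / (4 * (1 + x₁) * (n₀ * Cn)) := by
        rw [hκ]
        exact (min_le_right _ _).trans (min_le_right _ _)
      rw [le_div_iff₀ (by positivity)] at h1
      linarith only [h1]
    obtain ⟨e₂, he₂, hU3⟩ := hU2 κ hκ0 (by rw [hκ]; exact min_le_left _ _)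
    obtain ⟨e', he'⟩ : ∃ e', e' = min e₂ (min (1 / (4 * Cn)) (γ * Y / (8 * Cn))) := ⟨_, rfl⟩
    have he'0 : 0 < e' := by
      rw [he']
      exact lt_min he₂ (lt_min (by positivity) (by positivity))
    have he'1 : e' ≤ e₂ := by rw [he']; exact min_le_left _ _
    have he'2 : e' * Cn ≤ 1 / 4 := by
      have h1 : e' ≤ 1 / (4 * Cn) := by
        rw [he']
        exact (min_le_right _ _).trans (min_le_left _ _)
      rw [le_div_iff₀ (by positivity)] at h1
      linarith only [h1]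
    have he'3 : 2 * (e' * Cn) ≤ γ * Y / 4 := by
      have h1 : e' ≤ γ * Y / (8 * Cn) := by
        rw [he']
        exact (min_le_right _ _).trans (min_le_right _ _)
      rw [le_div_iff₀ (by positivity)] at h1
      linarith only [h1]
    exact by
     obtain ⟨L₀, hL₀, hU4⟩ := hU3 S a R i₀ (σ 1).rot act (W g) v₀ (P - g) a₀ hC.st hR.rot hrt0
       hL.actN hL.amono hW0 hW1 (by linarith only [hW0, hG₀, hP1, hPg, hgap]) (by linarith only [hG₀, hPg]) (by linarith only [hv00, hW0, hG₀, hP1, hgap]) hL.rot hL.aslp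
     obtain ⟨κ₁, hκ₁⟩ : ∃ κ₁, κ₁ = 3 / 4 * κ * Cn * n₀ := ⟨_, rfl⟩
     have hκ₁0 : 0 < κ₁ := by rw [hκ₁]; positivity
     obtain ⟨ε₀, hε₀⟩ : ∃ ε₀, ε₀ = min (e' * Cn / 22) (min (lm / 4) (1 / 100)) := ⟨_, rfl⟩
     have hε₀0 : 0 < ε₀ := by
       rw [hε₀]
       exact lt_min (by positivity) (lt_min (by positivity) (by norm_num))
     obtain ⟨Ca, hCa⟩ : ∃ Ca, Ca = (v + ρ) * CZ + 2 * (CZ + 1) + 2 := ⟨_, rfl⟩
     have hCa0 : 0 < Ca := by rw [hCa]; positivity
     obtain ⟨Cb, hCb⟩ : ∃ Cb, Cb = (2 + v + ρ) * CZ + (CZ + 1) + Y + 4 := ⟨_, rfl⟩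
     have hCb0 : 0 < Cb := by rw [hCb]; positivity
     obtain ⟨l₀, hl₀⟩ : ∃ l₀, l₀ = min (L₀ / Cn) (min (min (G₀ / Ca) (G₀ / Cb))
       (min (G₀ / Y) (G₀ / C'))) := ⟨_, rfl⟩
     have hl₀0 : 0 < l₀ := by
       rw [hl₀]
       exact lt_min (by positivity) (lt_min (lt_min (by positivity) (by positivity))
         (lt_min (by positivity) (by positivity)))
     refine ⟨κ₁, ε₀, l₀, hκ₁0, ?_, hε₀0, hl₀0, fun ε l hε hεε hl hll N u hZ hw => ?_⟩
     · have : 0 < κ * (n₀ * Cn) := by positivity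
       rw [hκ₁]
       linarith only [hlm, hκ1]
     have l1 : Cn * l ≤ L₀ := by
       have h1 : l ≤ L₀ / Cn := hll.trans (by rw [hl₀]; exact min_le_left _ _)
       rw [le_div_iff₀ hCn0] at h1
       linarith only [h1]
     have l2 : Ca * l ≤ G₀ := by
       have h1 : l ≤ G₀ / Ca := hll.trans (by
         rw [hl₀]
         exact (min_le_right _ _).trans ((min_le_left _ _).trans (min_le_left _ _)))
       rw [le_div_iff₀ hCa0] at h1
       linarith only [h1]
     exact by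
      have l3 : Cb * l ≤ G₀ := by
        have h1 : l ≤ G₀ / Cb := hll.trans (by
          rw [hl₀]
          exact (min_le_right _ _).trans ((min_le_left _ _).trans (min_le_right _ _)))
        rw [le_div_iff₀ hCb0] at h1
        linarith only [h1]
      have l4 : Y * l ≤ G₀ := by
        have h1 : l ≤ G₀ / Y := hll.trans (by
          rw [hl₀]
          exact (min_le_right _ _).trans ((min_le_right _ _).trans (min_le_left _ _)))
        rw [le_div_iff₀ hY0] at h1
        linarith only [h1]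
      have l5 : C' * l ≤ G₀ := by
        have h1 : l ≤ G₀ / C' := hll.trans (by
          rw [hl₀]
          exact (min_le_right _ _).trans ((min_le_right _ _).trans (min_le_right _ _)))
        rw [le_div_iff₀ hC'0] at h1
        linarith only [h1]
      have ε1 : 11 * ε ≤ e' * Cn / 2 := by
        have h1 : ε ≤ e' * Cn / 22 := hεε.trans (by rw [hε₀]; exact min_le_left _ _)
        linarith only [h1]
      have ε2 : ε ≤ lm / 4 := hεε.trans (by
        rw [hε₀]
        exact (min_le_right _ _).trans (min_le_left _ _))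
      have ε3 : ε ≤ 1 / 100 := hεε.trans (by
        rw [hε₀]
        exact (min_le_right _ _).trans (min_le_right _ _))
      -- the claims
      have cP : Clp S (fun J F A => 0 < Pe F.p A) := Clp.of one_pos 0 fun J _ F A hS =>
        lt_of_lt_of_le (Real.exp_pos _) (hC.st 1 J F A hS).2.2.2
      exact by
       have cU := (hU4 (Cn * l) 200 200 (by positivity) l1).ev (ϖ := η / 4) (by positivity)
       -- large resolutions
       obtain ⟨N₁, hN₁⟩ : ∃ N₁, N₁ = (2 * (3 + n₀) * Real.log 2 + Pool.S6U.brC 800) /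
         (5 * ι' / 8 * Real.log 2) + (3 + n₀) + 2 := ⟨_, rfl⟩
       have hbr0 : 0 ≤ Pool.S6U.brC 800 := by
         unfold Pool.S6U.brC
         have a1 : 0 ≤ Real.log (12 * 800 + 3) := Real.log_nonneg (by norm_num)
         have a2 : 0 ≤ Real.log (2 * 800 + 9) := Real.log_nonneg (by norm_num)
         positivity
       have hN₁0 : 0 ≤ N₁ := by rw [hN₁]; positivity
       have hlg1 : 0 ≤ Real.log 1601 := Real.log_nonneg (by norm_num)
       have hlg2 : 0 ≤ Real.log 1001 := Real.log_nonneg (by norm_num)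
       obtain ⟨T₀, hT₀⟩ : ∃ T₀, T₀ = 16 + 2 * (v + 4) / (e' * Cn) + 4 * (v + 2) / (γ * Y) +
         2 * (ρ + 3 + lm) / lm + (N₁ / κ₁ + 1) + (3 * (κ * Cn) + 20) / (κ * Cn) +
         (3 * Real.log 1601 + 3 * Real.log 1001 + 4) := ⟨_, rfl⟩
       obtain ⟨J₀, hJ₀⟩ := exists_nat_ge (T₀ / l)
       refine Clp.mono (J₂ := J₀) (cP.and cU) ?_
       rintro J hJ F A ⟨hA0, hUA⟩ B hB hAB τ y z al nu k b hM Vx Hx Rx hVx hHx hRx hVx' hHx' ql qh
         hql hqh
       have hJr : (J₀ : ℝ) ≤ J := by exact_mod_cast hJ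
       obtain ⟨T, hT⟩ : ∃ T : ℝ, T = l * J := ⟨_, rfl⟩
       have hTT : T₀ ≤ T := by
         have h1 : T₀ / l ≤ J := hJ₀.trans hJr
         rw [div_le_iff₀ hl] at h1
         rw [hT]
         linarith only [h1]
       have p2 : 0 ≤ 2 * (v + 4) / (e' * Cn) := by positivity
       have p3 : 0 ≤ 4 * (v + 2) / (γ * Y) := by positivity
       have p4 : 0 ≤ 2 * (ρ + 3 + lm) / lm := by positivity
       have p5 : 0 ≤ N₁ / κ₁ := by positivity
       exact by
        have p6 : 0 ≤ (3 * (κ * Cn) + 20) / (κ * Cn) := by positivity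
        have t1 : 16 ≤ T := by linarith only [hlg1, hlg2, hT₀, hTT, p2, p3, p4, p5, p6]
        have t2 : 2 * (v + 4) ≤ e' * Cn * T := by
          have h1 : 2 * (v + 4) / (e' * Cn) ≤ T := by linarith only [hlg1, hlg2, hT₀, hTT, p3, p4, p5, p6]
          rw [div_le_iff₀ (by positivity)] at h1
          linarith only [h1]
        have t3 : 4 * (v + 2) ≤ γ * Y * T := by
          have h1 : 4 * (v + 2) / (γ * Y) ≤ T := by linarith only [hlg1, hlg2, hT₀, hTT, p2, p4, p5, p6]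
          rw [div_le_iff₀ (by positivity)] at h1
          linarith only [h1]
        have t4 : 2 * (ρ + 3 + lm) ≤ lm * T := by
          have h1 : 2 * (ρ + 3 + lm) / lm ≤ T := by linarith only [hlg1, hlg2, hT₀, hTT, p2, p3, p5, p6]
          rw [div_le_iff₀ hlm] at h1
          linarith only [h1]
        have t5 : N₁ ≤ κ₁ * (T - 1) := by
          have h1 : N₁ / κ₁ ≤ T - 1 := by linarith only [hlg1, hlg2, hT₀, hTT, p2, p3, p4, p6]
          rw [div_le_iff₀ hκ₁0] at h1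
          linarith only [h1]
        have t6 : 3 * (κ * Cn) + 20 ≤ κ * Cn * T := by
          have h1 : (3 * (κ * Cn) + 20) / (κ * Cn) ≤ T := by linarith only [hlg1, hlg2, hT₀, hTT, p2, p3, p4, p5]
          rw [div_le_iff₀ (by positivity)] at h1
          linarith only [h1]
        have t7 : 3 * Real.log 1601 + 3 * Real.log 1001 + 4 ≤ T := by linarith only [hT₀, hTT, p2, p3, p4, p5, p6]
        have hB0 : 0 < Pe F.p B := by linarith only [hA0, hAB]
        have hZ0 := hZ.zon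
        have heJ : ε * l * (J : ℝ) = ε * T := by rw [hT]; ring
        have hNm : Nm σ N u (W g) v₀ v g ρ P (ε * l) l CZ Y C₂ cw κ e' e₂ γ x₁ n₀ J :=
          { Z := hZ0
            v00 := hv00
            hr := by
              intro j hj
              have h1 := hZ0.anti hj le_rfl
              have h2 := hZ0.anti (Nat.zero_le j) hj
              have h3 := hZ0.aff (u j) h1 h2
              have h4 := hZ0.posR hj
              have h5 : u j < 1 := h2.trans_lt hZ0.lt1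
              have h6 := hrt0 (u j) (by exact_mod_cast h4.le) h5.le
              have h7 := (abs_le.1 h3.1).2
              linarith only [h6, h7]
            top := hZ.top
            bot := hZ.bot
            l0 := hl
            CZ0 := hCZ
            cw0 := hcw0
            κ0 := hκ0
            e'0 := he'0
            x₁0 := hx₁
            γ0 := hγ
            γ1 := hγ1
            T16 := by rw [← hT]; exact t1
            el := by
              have := mul_le_mul_of_nonneg_right ε3 hl.le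
              linarith only [this]
            lin := by
              rw [heJ, ← hCn]
              have e3 : e' * (Cn * l) * (J : ℝ) = e' * Cn * T := by rw [hT]; ring
              rw [e3]
              have := mul_le_mul_of_nonneg_right ε1 (show 0 ≤ T by linarith only [hlg1, hlg2, hT₀, hTT, p2, p3, p4, p5, p6])
              linarith only [t2, this]
            ee := he'1
            e4 := by rw [← hCn]; exact he'2
            gap := by
              rw [← hCa]
              linarith only [hgap, l2]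
            Y2 := hY2
            C2 := hC₂
            P1 := by
              rw [← hCb]
              linarith only [hP1, l3]
            Pg := by linarith only [hPg, l4]
            cwγ := by rw [← hCn]; exact hcw2
            e'γ := by rw [← hCn]; exact he'3
            κγ := by rw [← hCn]; exact hκ2
            Tγ := by
              rw [← hT]
              linarith only [t3] }
        exact by
         have hUin : Uin F B i₀ η θ₁ (ι' / 8) (W g) v₀ v (P - g) ((CZ + 1) * l)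
             ((Y + 1) / (CZ + 1)) cw κ e₂ γ x₁ n₀ := by
           intro B' hB' hPe σ' wl' wa wb vp kap Hu HN al nu k b a' s t hUF hσ qa qb d D' hN
           rw [← hCn] at hN
           refine (hUA B' (fun ω hω => hB ω (hB' ω hω)) ?_ σ' wl' wa wb vp kap Hu HN al nu k b a' s t
             hUF hσ qa qb d D' hN).1
           have h1 : η / 4 * Pe F.p A ≤ η * Pe F.p B := by
             have := mul_le_mul_of_nonneg_left hAB (by positivity : 0 ≤ η / 4)
             linarith only [this]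
           exact h1.trans hPe
         obtain ⟨d, d1, d2, d3, d4, d5, d6⟩ := blk_num (l := l) (J := J) hι0 hι1 hιι hκ0 hCn0 hn₀
           (by rw [← hT]; linarith only [hlg1, hlg2, hT₀, hTT, p2, p3, p4, p5, p6]) (by
             rw [← hN₁, ← hκ₁, ← hT]
             exact t5) (by rw [← hT]; exact t6)
         rw [← hκ₁] at d4 d6
         obtain ⟨Λ, hΛ⟩ : ∃ Λ, Λ = ⌊lm * ⌊l * (J : ℝ)⌋₊⌋₊ := ⟨_, rfl⟩
         have hTf1 := Nat.floor_le (show 0 ≤ l * (J : ℝ) by rw [← hT]; linarith only [hlg1, hlg2, hT₀, hTT, p2, p3, p4, p5, p6])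
         have hTf2 := Nat.lt_floor_add_one (l * (J : ℝ))
         have hΛ1 : (Λ : ℝ) ≤ lm * (l * J) := by
           rw [hΛ]
           exact (Nat.floor_le (by positivity)).trans (mul_le_mul_of_nonneg_left hTf1 hlm.le)
         have hΛ2 : lm * (T - 1) - 1 ≤ Λ := by
           have a1 := Nat.lt_floor_add_one (lm * (⌊l * (J : ℝ)⌋₊ : ℝ))
           rw [← hΛ] at a1
           have a2 : lm * (T - 1) ≤ lm * ⌊l * (J : ℝ)⌋₊ :=
             mul_le_mul_of_nonneg_left (by rw [hT]; linarith only [hTf2]) hlm.le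
           linarith only [a1, a2]
         have hΛ3 : ρ * (cw * ((CZ + 1) * l) * J + 1) + ε * l * J + 1 ≤ Λ := by
           rw [heJ, ← hCn]
           have e3 : ρ * (cw * (Cn * l) * (J : ℝ) + 1) = ρ * (cw * Cn) * T + ρ := by rw [hT]; ring
           rw [e3]
           have a1 := mul_le_mul_of_nonneg_right hcw3 (show 0 ≤ T by linarith only [hlg1, hlg2, hT₀, hTT, p2, p3, p4, p5, p6])
           have a2 := mul_le_mul_of_nonneg_right ε2 (show 0 ≤ T by linarith only [hlg1, hlg2, hT₀, hTT, p2, p3, p4, p5, p6])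
           linarith only [t4, hΛ2, a1, a2]
         exact by
          obtain ⟨nV, nH, b1, b2, b3, b4, b5, b6⟩ := hNm.lab (Vx := Vx) (Hx := Hx) (Rx := Rx) (Λ := Λ)
            (lm := lm) hCx hC' (by linarith only [hgap, l5]) hVx hHx hRx hVx' hHx' hΛ1 (by rw [← hT]; exact t7)
          rw [← hCK] at b6
          have hqd := qd_ge (Y := Y) (ql := ql) (qh := qh) (by linarith only [hPg, l4]) hY2 hl (by rw [← hT]; exact t1)
            hql hqh
          refine le_trans (hNm.count hM hB0 hη0 hθ₁0.le hUin (Rx := Rx) hql hqh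
            (by rw [← hCn]; exact d1) (by rw [← hCn]; exact d2) hΛ3 b1 b2 b3 b4 b5 he₁0
            (show 0 ≤ CK * (l * J) by rw [← hT]; positivity) d3 b6
            (by rw [he₁]; exact d5)
            (by rw [← hCn]; exact wd_ge hZ0 hl (by rw [← hT]; exact t1) hcw0 hCn0 hcw1 hw) d4
            (bd := (2 - ι) * ⌊κ₁ * ⌊l * (J : ℝ)⌋₊⌋₊ * Real.log 2) (by rw [hη, he₁]; exact d6) _ ?_) ?_
          · intro x q hQ
            rw [hΛ]
            exact hQ
          have hW0' : (0 : ℝ) ≤ ((wl u J 0 - wl u J N : ℕ) : ℝ) := Nat.cast_nonneg _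
          have hq0 : (0 : ℝ) ≤ ((qh - ql : ℕ) : ℝ) := Nat.cast_nonneg _
          have k1 : 4 * 401 ^ 3 * (θ₁ * ((qh - ql : ℕ) : ℝ)) ≤ θ / 4 * (qh - ql : ℕ) := by
            rw [hθ₁]
            refine le_of_eq ?_
            field_simp
            norm_num
          have k2 : 4 * 401 ^ 3 * (CK * (l * J) / e₁) ≤ θ / 2 * (qh - ql : ℕ) := by
            have a1 : θ / 2 * (Y * (l * J)) ≤ θ / 2 * ((qh - ql : ℕ) : ℝ) :=
              mul_le_mul_of_nonneg_left hqd (by positivity)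
            refine le_trans ?_ a1
            rw [← hT, ← mul_div_assoc, div_le_iff₀ he₁0]
            have a2 := mul_le_mul_of_nonneg_right hYK (show 0 ≤ T by linarith only [hlg1, hlg2, hT₀, hTT, p2, p3, p4, p5, p6])
            linarith only [a2]
          have k3 : 4 * 401 ^ 3 * ((wl u J 0 - wl u J N : ℕ) : ℝ) *
              (θ₁ * ((qh - ql : ℕ) : ℝ) + CK * (l * J) / e₁) =
              ((wl u J 0 - wl u J N : ℕ) : ℝ) * (4 * 401 ^ 3 * (θ₁ * ((qh - ql : ℕ) : ℝ)) +
                4 * 401 ^ 3 * (CK * (l * J) / e₁)) := by ring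
          exact by
           rw [k3]
           have k4 : θ * ((wl u J 0 - wl u J N : ℕ) : ℝ) * ((qh - ql : ℕ) : ℝ) =
               ((wl u J 0 - wl u J N : ℕ) : ℝ) * (θ * ((qh - ql : ℕ) : ℝ)) := by ring
           rw [k4]
           refine mul_le_mul_of_nonneg_left ?_ hW0'
           have k5 : 0 ≤ θ * ((qh - ql : ℕ) : ℝ) := by positivity
           linarith only [k1, k2, k5]

end Pool.H3X
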