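import Pool.Agent.H10.S6U.Out

/-!
# The local U-step with a label in the condition

Principle M: a label `vv` with few digits, given the context, is almost independent of the block in
most of the contexts of one window. The label may be any function.
-/

set_option autoImplicit false

namespace Pool.S6U

open Finset Real
open Pool.Agent.H49.Ent Pool.Agent.H32.Dense Pool.STK Pool.KA Pool.KSAT Pool.K2S

section lbl

variable {J : ℕ} {F : Fam 3 J} {p : F.Ω → ℝ} {σ : Fin 3 → Fin 3} {vp : ℕ → ℕ} {D : ℕ}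
  {a : ℕ → F.Ω → ℝ} {s t al : F.Ω → ℝ} {κ X w : ℕ} {Γ : Type}

/-- A finer context determines the coarser one. -/
theorem blb_lift {v q q' : ℕ} {M : F.Ω → Fin 3 → Fin 3 → ℝ} (h : q ≤ q') {ω ω' : F.Ω}
    (he : F.blb w (cv v κ q') M ω = F.blb w (cv v κ q') M ω') :
    F.blb w (cv v κ q) M ω = F.blb w (cv v κ q) M ω' := by
  have e1 : ∀ r, F.lbr w (cv v κ 0) M r = F.blb w (cv v κ r) M := by
    intro r
    unfold Fam.lbr
    rw [cv_add, Nat.zero_add]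
  rw [← e1] at he ⊢
  exact lbr_mono h he

/-- The condition at the next scale determines the condition and the block. -/
theorem ocn_next {q q' N N' : ℕ} (hq : q + X ≤ q') (hN : N ≤ N') {ω ω' : F.Ω}
    (h : ocn F σ vp D a s t al κ w q' N' ω = ocn F σ vp D a s t al κ w q' N' ω') :
    F.sbx σ (w + q + X) (w + vp w + q + X) N (ald D al) s t ω =
      F.sbx σ (w + q + X) (w + vp w + q + X) N (ald D al) s t ω' ∧
    ocn F σ vp D a s t al κ w q N ω = ocn F σ vp D a s t al κ w q N ω' := by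
  have e1 := Prod.ext_iff.mp h
  have e2 := Prod.ext_iff.mp e1.2
  have e3 : F.ctx σ w (w + q') (w + vp w + q') (w + q' + κ) (a w) s t ω =
    F.ctx σ w (w + q') (w + vp w + q') (w + q' + κ) (a w) s t ω' := e2.1
  rw [ctx_eq] at e3
  refine ⟨Vd.sbx_lift (by omega) (by omega) hN e1.1, Prod.ext ?_ (Prod.ext ?_ e2.2)⟩
  · exact Vd.sbx_lift (by omega) (by omega) hN e1.1
  · show F.ctx σ w (w + q) (w + vp w + q) (w + q + κ) (a w) s t ω =
      F.ctx σ w (w + q) (w + vp w + q) (w + q + κ) (a w) s t ω'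
    rw [ctx_eq]
    exact blb_lift (by omega) e3

/-- The dependence of the block on the label. -/
noncomputable def dpl (F : Fam 3 J) (p : F.Ω → ℝ) (σ : Fin 3 → Fin 3) (vp : ℕ → ℕ) (D : ℕ)
    (a : ℕ → F.Ω → ℝ) (s t al : F.Ω → ℝ) (κ X w q N : ℕ) (vv : F.Ω → Γ) : ℝ :=
  dp p (F.sbx σ (w + q + X) (w + vp w + q + X) N (ald D al) s t) vv
    (ocn F σ vp D a s t al κ w q N)

theorem dpl_nonneg (hp : IsLaw p) (q N : ℕ) (vv : F.Ω → Γ) :
    0 ≤ dpl F p σ vp D a s t al κ X w q N vv := dp_nonneg hp.nonneg _ _ _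

/-- **Principle M**, separated scales. -/
theorem dpl_sep (hp : IsLaw p) (vv : F.Ω → Γ) {N : ℕ → ℕ} (hN : ∀ q q', q ≤ q' → N q ≤ N q')
    (S : Finset ℕ) (hne : S.Nonempty) (hsep : ∀ x ∈ S, ∀ y ∈ S, x < y → x + X ≤ y) {K : ℝ}
    (hK : ∀ q ∈ S, CH p vv (ocn F σ vp D a s t al κ w q (N q)) ≤ K) :
    ∑ q ∈ S, dpl F p σ vp D a s t al κ X w q (N q) vv ≤ K := by
  have h0 := hp.nonneg
  obtain ⟨q, g1, g2, g3⟩ := H23.enum_asc X S hne hsep
  rw [← g3 (fun q => dpl F p σ vp D a s t al κ X w q (N q) vv)]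
  have key := tele hp S.card (fun _ => vv)
    (fun j => F.sbx σ (w + q j + X) (w + vp w + q j + X) (N (q j)) (ald D al) s t)
    (fun j => ocn F σ vp D a s t al κ w (q j) (N (q j)))
    (c₁ := 0) (c₂ := 0) le_rfl le_rfl
    (fun j hj => by
      refine (CH_eq_zero h0 ?_).le
      intro ω ω' _ _ e
      have e1 := ocn_next (X := X) (q := q j) (q' := q (j + 1)) (N := N (q j))
        (N' := N (q (j + 1))) (g2 j hj) (hN _ _ (by have := g2 j hj; omega)) e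
      exact Prod.ext e1.1 e1.2)
    (fun j _ => by
      refine (CH_eq_zero h0 ?_).le
      intro ω ω' _ _ e
      exact (Prod.ext_iff.mp e).1)
  have e : ∀ j, dpl F p σ vp D a s t al κ X w (q j) (N (q j)) vv = dp p vv
      (F.sbx σ (w + q j + X) (w + vp w + q j + X) (N (q j)) (ald D al) s t)
      (ocn F σ vp D a s t al κ w (q j) (N (q j))) := by
    intro j
    unfold dpl
    exact dp_symm h0 _ _ _
  rw [Finset.sum_congr rfl fun j _ => e j]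
  refine key.trans ?_
  rw [add_zero, mul_zero, add_zero]
  exact hK _ (g1 0)

/-- **Principle M**, one window. -/
theorem dpl_win (hp : IsLaw p) (vv : F.Ω → Γ) {N : ℕ → ℕ} (hN : ∀ q q', q ≤ q' → N q ≤ N q')
    (hX : 0 < X) (Q : Finset ℕ) {K : ℝ} (hK0 : 0 ≤ K)
    (hK : ∀ q ∈ Q, CH p vv (ocn F σ vp D a s t al κ w q (N q)) ≤ K) :
    ∑ q ∈ Q, dpl F p σ vp D a s t al κ X w q (N q) vv ≤ X * K := by
  have key := H23.sum_class (fun q => dpl F p σ vp D a s t al κ X w q (N q) vv) Q X hX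
    (B := K) (C := 0) hK0 (by
      intro S' hS' hne hsep
      rw [zero_mul, add_zero]
      exact dpl_sep hp vv hN S' hne hsep fun q hq => hK q (hS' hq))
  rwa [zero_mul, add_zero] at key

/-- **Principle M** on the rectangle; the label may depend on the window. -/
theorem dpl_rect (hp : IsLaw p) (vv : ℕ → F.Ω → Γ) {N : ℕ → ℕ → ℕ}
    (hN : ∀ w q q', q ≤ q' → N w q ≤ N w q') (hX : 0 < X) (W Q : Finset ℕ) {K : ℝ}
    (hK0 : 0 ≤ K)
    (hK : ∀ w ∈ W, ∀ q ∈ Q, CH p (vv w) (ocn F σ vp D a s t al κ w q (N w q)) ≤ K) :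
    ∑ x ∈ W ×ˢ Q, dpl F p σ vp D a s t al κ X x.1 x.2 (N x.1 x.2) (vv x.1) ≤
      W.card * (X * K) := by
  rw [Finset.sum_product]
  refine (Finset.sum_le_sum fun w hw =>
    dpl_win (w := w) hp (vv w) (hN w) hX Q hK0 (hK w hw)).trans ?_
  rw [Finset.sum_const, nsmul_eq_mul]

/-- **Principle M** on the rectangle: the contexts with a large dependence. -/
theorem dpl_bad (hp : IsLaw p) (vv : ℕ → F.Ω → Γ) {N : ℕ → ℕ → ℕ}
    (hN : ∀ w q q', q ≤ q' → N w q ≤ N w q') (hX : 0 < X) (W Q : Finset ℕ) {K e : ℝ}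
    (hK0 : 0 ≤ K) (he : 0 < e)
    (hK : ∀ w ∈ W, ∀ q ∈ Q, CH p (vv w) (ocn F σ vp D a s t al κ w q (N w q)) ≤ K) :
    ∃ B : Finset (ℕ × ℕ), B.card * e ≤ W.card * K ∧ ∀ w ∈ W, ∀ q ∈ Q, (w, q) ∉ B →
      dpl F p σ vp D a s t al κ X w q (N w q) (vv w) ≤ e * X := by
  classical
  refine ⟨(W ×ˢ Q).filter fun x => e * X <
    dpl F p σ vp D a s t al κ X x.1 x.2 (N x.1 x.2) (vv x.1), ?_, ?_⟩
  · have h1 := dpl_rect (a := a) (s := s) (t := t) (al := al) (κ := κ) (σ := σ) (vp := vp)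
      (D := D) hp vv hN hX W Q hK0 hK
    have h2 : ∑ x ∈ (W ×ˢ Q).filter (fun x => e * X <
        dpl F p σ vp D a s t al κ X x.1 x.2 (N x.1 x.2) (vv x.1)), e * (X : ℝ) ≤
        ∑ x ∈ W ×ˢ Q, dpl F p σ vp D a s t al κ X x.1 x.2 (N x.1 x.2) (vv x.1) := by
      refine (Finset.sum_le_sum fun x hx => (Finset.mem_filter.1 hx).2.le).trans ?_
      exact Finset.sum_le_sum_of_subset_of_nonneg (Finset.filter_subset _ _)
        fun x _ _ => dpl_nonneg hp _ _ _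
    rw [Finset.sum_const, nsmul_eq_mul] at h2
    have h3 := h2.trans h1
    have hX' : (0 : ℝ) < X := by exact_mod_cast hX
    have h4 : (((W ×ˢ Q).filter (fun x => e * X <
        dpl F p σ vp D a s t al κ X x.1 x.2 (N x.1 x.2) (vv x.1))).card : ℝ) * e * X ≤
        W.card * K * X := by linarith
    exact le_of_mul_le_mul_right h4 hX'
  · intro w hw q hq hB
    by_contra h
    exact hB (Finset.mem_filter.2 ⟨Finset.mem_product.2 ⟨hw, hq⟩, not_le.1 h⟩)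

end lbl

/-- **The U-step in the mean over the rectangle, with a label in the condition.** -/
theorem ue_sumV : ∀ ε ca : ℝ, 0 < ε → 0 < ca → ∃ (x₁ ϖ δ ε₁ γ : ℝ) (n d₀ : ℕ),
    0 < x₁ ∧ 0 < ϖ ∧ ϖ ≤ 1 ∧ 0 < δ ∧ 0 < ε₁ ∧ 0 < γ ∧ γ ≤ 1 ∧ 1 ≤ n ∧ 1 ≤ d₀ ∧
    ∀ {J : ℕ} (F : Fam 3 J) (p : F.Ω → ℝ) (σ : Fin 3 → Fin 3) (wa wb : ℕ) (vp : ℕ → ℕ) (D : ℕ)
      (a : ℕ → F.Ω → ℝ) (s t al : F.Ω → ℝ) (κ d tt qa qb : ℕ) (N : ℕ → ℕ → ℕ) (Γ : Type)
      (vv : ℕ → F.Ω → Γ),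
      Rc F p σ wa wb vp D a s t al → d₀ ≤ d → Ush wa wb vp D (n * d) tt qa qb J γ →
      Uh F p σ wa wb vp D a s t al κ d (n * d) qa qb x₁ ϖ δ ε₁ ca →
      (∀ w q, wa ≤ w → w ≤ wb → qa ≤ q → q < qb → N w q ≤ w + q + κ) →
      (∀ w q q', q ≤ q' → N w q ≤ N w q') →
      (∀ w q, wa ≤ w → w ≤ wb → qa ≤ q → q < qb →
        CH p (vv w) (ocn F σ vp D a s t al κ w q (N w q)) ≤ ε / 2 * (qb - qa : ℕ)) →
      ∑ x ∈ Finset.Icc wa wb ×ˢ Finset.Ico qa qb, (2 * (n * d : ℕ) * Real.log 2 -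
        CH p (F.sbx σ (x.1 + x.2 + n * d) (x.1 + vp x.1 + x.2 + n * d) (N x.1 x.2) (ald D al) s t)
          (fun ω => (vv x.1 ω, ocn F σ vp D a s t al κ x.1 x.2 (N x.1 x.2) ω))) ≤
        ε * (n * d : ℕ) * ((wb + 1 - wa : ℕ) * (qb - qa : ℕ)) := by
  intro ε ca hε hca
  obtain ⟨x₁, ϖ, δ, ε₁, γ, n, d₀, hx₁, hϖ, hϖ1, hδ, hε₁, hγ, hγ1, hn, hd₀, hue⟩ :=
    ue_sum (ε / 2) ca (by positivity) hca
  refine ⟨x₁, ϖ, δ, ε₁, γ, n, d₀, hx₁, hϖ, hϖ1, hδ, hε₁, hγ, hγ1, hn, hd₀, ?_⟩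
  intro J F p σ wa wb vp D a s t al κ d tt qa qb N Γ vv hR hd hs hU hN hNm hK
  have hp := hR.law
  have h1 := hue F p σ wa wb vp D a s t al κ d tt qa qb N hR hd hs hU hN
  have hX : 0 < n * d := Nat.mul_pos (by omega) (by omega)
  have h2 := dpl_rect (F := F) (σ := σ) (vp := vp) (D := D) (a := a) (s := s) (t := t) (al := al)
    (κ := κ) hp vv hNm hX (Finset.Icc wa wb) (Finset.Ico qa qb)
    (K := ε / 2 * (qb - qa : ℕ)) (by positivity) (fun w hw q hq => by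
      obtain ⟨a1, a2⟩ := Finset.mem_Icc.1 hw
      obtain ⟨a3, a4⟩ := Finset.mem_Ico.1 hq
      exact hK w q a1 a2 a3 a4)
  have h3 : ∑ x ∈ Finset.Icc wa wb ×ˢ Finset.Ico qa qb, (2 * (n * d : ℕ) * Real.log 2 -
        CH p (F.sbx σ (x.1 + x.2 + n * d) (x.1 + vp x.1 + x.2 + n * d) (N x.1 x.2) (ald D al) s t)
          (fun ω => (vv x.1 ω, ocn F σ vp D a s t al κ x.1 x.2 (N x.1 x.2) ω))) =
      ∑ x ∈ Finset.Icc wa wb ×ˢ Finset.Ico qa qb, (2 * (n * d : ℕ) * Real.log 2 -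
        CH p (F.sbx σ (x.1 + x.2 + n * d) (x.1 + vp x.1 + x.2 + n * d) (N x.1 x.2) (ald D al) s t)
          (ocn F σ vp D a s t al κ x.1 x.2 (N x.1 x.2))) +
      ∑ x ∈ Finset.Icc wa wb ×ˢ Finset.Ico qa qb,
        dpl F p σ vp D a s t al κ (n * d) x.1 x.2 (N x.1 x.2) (vv x.1) := by
    rw [← Finset.sum_add_distrib]
    refine Finset.sum_congr rfl fun x _ => ?_
    unfold dpl dp
    ring
  rw [h3]
  rw [Nat.card_Icc] at h2
  have e : ε * (n * d : ℕ) * ((wb + 1 - wa : ℕ) * (qb - qa : ℕ)) =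
      ε / 2 * (n * d : ℕ) * ((wb + 1 - wa : ℕ) * (qb - qa : ℕ)) +
        (wb + 1 - wa : ℕ) * ((n * d : ℕ) * (ε / 2 * (qb - qa : ℕ))) := by ring
  rw [e]
  exact add_le_add h1 h2

end Pool.S6U
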