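import Pool.Agent.H2.UST.Cls

/-!
# The U-step in a class: union of sets of slopes

`UeStmt.union`, `UsStmt.union`: the statements for `V₁` and for `V₂` give the statement for
`V₁ ∪ V₂`; the common constants are `n₁ n₂`, `min γ₁ γ₂`, `max x₁ x₂`.
-/

set_option autoImplicit false

namespace Pool.UST

open Finset Real
open Pool.Agent.H49.Ent Pool.Agent.H32.Dense Pool.STK Pool.KA Pool.KSAT Pool.K2S Pool.PB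
  Pool.S6U Pool.S6C

/-- Larger blocks. -/
theorem UeN.chg {J : ℕ} {w₀ v₀ v q₀ L M cw κ e₂ e₂' γ γ' x₁ x₁' : ℝ} {n n₁ m wa wb : ℕ}
    {vp : ℕ → ℕ} {kap Hu HN qa qb d D : ℕ}
    (h : UeN J w₀ v₀ v q₀ L M cw κ e₂ γ x₁ n wa wb vp kap Hu HN qa qb d D) (hL : 0 ≤ L)
    (hn : n = n₁ * m) (he : e₂ ≤ e₂') (hγ : γ ≤ γ') (hx : x₁' ≤ x₁) :
    UeN J w₀ v₀ v q₀ L M cw (m * κ) e₂' γ' x₁' n₁ wa wb vp kap Hu HN qa qb (m * d) D := by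
  have hm : (0 : ℝ) ≤ m := Nat.cast_nonneg _
  have hJ : (0 : ℝ) ≤ J := Nat.cast_nonneg _
  have hq : (0 : ℝ) ≤ ((qb - qa : ℕ) : ℝ) := Nat.cast_nonneg _
  have e : n₁ * (m * d) = n * d := by rw [hn, mul_assoc]
  have hnd : (0 : ℝ) ≤ ((n * d : ℕ) : ℝ) := Nat.cast_nonneg _
  constructor
  · exact h.wa1
  · exact h.wb1
  · exact h.ww
  · exact h.qa1
  · exact h.qb1
  · exact h.qq
  · intro w h1 h2
    refine (h.lin w h1 h2).trans ?_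
    exact mul_le_mul_of_nonneg_right (mul_le_mul_of_nonneg_right he hL) hJ
  · exact h.hh
  · exact h.room
  · have := mul_le_mul_of_nonneg_left h.d1 hm
    push_cast
    have e2 : (m : ℝ) * (κ * L * J / 2) = m * κ * L * J / 2 := by ring
    linarith
  · have := mul_le_mul_of_nonneg_left h.d2 hm
    push_cast
    have e2 : (m : ℝ) * (κ * L * J) = m * κ * L * J := by ring
    linarith
  · rw [e]
    exact h.nd.trans (mul_le_mul_of_nonneg_right hγ hq)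
  · rw [e]
    refine le_trans ?_ h.D1
    have := mul_le_mul_of_nonneg_right hx hnd
    linarith
  · exact h.D2.trans (mul_le_mul_of_nonneg_right hγ hq)
  · exact h.rise

/-- (UE) for given constants. -/
def UeC (V : Set ℝ) (ε ρ α : ℝ) (n : ℕ) (γ x₁ : ℝ) : Prop :=
  ∀ v ∈ V, ∀ M cw : ℝ, 0 < M → 0 < cw → ∃ κ₀ : ℝ, 0 < κ₀ ∧ ∀ κ : ℝ, 0 < κ → κ ≤ κ₀ →
  ∃ e₂ : ℝ, 0 < e₂ ∧ ∀ (S : PCl 3) (a₁ R : ℝ) (i₀ : Fin 3) (rt act : ℚ → ℝ) (w₀ v₀ q₀ a₀ : ℝ),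
    (∀ (τ : ℝ) (J : ℕ) (F : Fam 3 J) (A : F.Ω → Prop), S.St τ J F A → Fam.Stt F a₁ R τ A) →
    (∀ w : ℚ, 0 ≤ w → w ≤ 1 → PNum S (capS 1 (qRot i₀ 1 w)) (rt w)) →
    (∀ w : ℚ, 0 ≤ w → w ≤ 1 → 0 ≤ rt w) →
    ActN S i₀ act → (∀ q q' : ℚ, 0 ≤ q → q ≤ q' → q' ≤ 1 → act q ≤ act q') →
    0 < w₀ → w₀ < 1 → v₀ < 1 → 0 < q₀ → q₀ < 1 →
    Pool.Sel51.Slp rt w₀ v₀ v → Pool.Sel51.Slp act q₀ a₀ α →
  ∃ L₀ : ℝ, 0 < L₀ ∧ ∀ L B C : ℝ, 0 < L → L ≤ L₀ → Clp S (fun J F A =>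
    ∀ (σ : Fin 3 → Fin 3) (wl wa wb : ℕ) (vp : ℕ → ℕ) (kap Hu HN : ℕ)
      (al nu k b : (Fin 3 → ℤ) × (ℕ × F.ζ) → ℝ) (a : ℕ → F.Ω → ℝ) (s t : F.Ω → ℝ),
      UFr F A σ wl wa wb vp kap Hu HN al nu k b a s t B C → σ 0 = i₀ →
    ∀ qa qb d D : ℕ, UeN J w₀ v₀ v q₀ L M cw κ e₂ γ x₁ n wa wb vp kap Hu HN qa qb d D →
    (∃ Bd : Finset (ℕ × ℕ), (Bd.card : ℝ) ≤ ρ * ((wb + 1 - wa : ℕ) * (qb - qa : ℕ)) ∧
      ∀ w q, wa ≤ w → w ≤ wb → qa ≤ q → q < qb → (w, q) ∉ Bd →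
        Uc F (Pool.Agent.H49.Ent.cond F.p A True) σ vp D a s t (fun ω => al (Fam.pt F ω)) kap
          (n * d) w q ε) ∧
    ∀ (K : Type) (Th : F.Ω → K), SLb F A wl Th →
    ∃ Bd : Finset (ℕ × ℕ), (Bd.card : ℝ) ≤ ρ * ((wb + 1 - wa : ℕ) * (qb - qa : ℕ)) ∧
      ∀ w q, wa ≤ w → w ≤ wb → qa ≤ q → q < qb → (w, q) ∉ Bd →
        Uc (F.cnd Th) (Pool.Agent.H49.Ent.cond F.p A True) σ vp D a s t
          (fun ω => al (Fam.pt F ω)) kap (n * d) w q ε)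

/-- (US) for given constants. -/
def UsC (V : Set ℝ) (ε α : ℝ) (n : ℕ) (γ x₁ : ℝ) : Prop :=
  ∀ v ∈ V, ∀ M cw : ℝ, 0 < M → 0 < cw → ∃ κ₀ : ℝ, 0 < κ₀ ∧ ∀ κ : ℝ, 0 < κ → κ ≤ κ₀ →
  ∃ e₂ : ℝ, 0 < e₂ ∧ ∀ (S : PCl 3) (a₁ R : ℝ) (i₀ : Fin 3) (rt act : ℚ → ℝ) (w₀ v₀ q₀ a₀ : ℝ),
    (∀ (τ : ℝ) (J : ℕ) (F : Fam 3 J) (A : F.Ω → Prop), S.St τ J F A → Fam.Stt F a₁ R τ A) →
    (∀ w : ℚ, 0 ≤ w → w ≤ 1 → PNum S (capS 1 (qRot i₀ 1 w)) (rt w)) →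
    (∀ w : ℚ, 0 ≤ w → w ≤ 1 → 0 ≤ rt w) →
    ActN S i₀ act → (∀ q q' : ℚ, 0 ≤ q → q ≤ q' → q' ≤ 1 → act q ≤ act q') →
    0 < w₀ → w₀ < 1 → v₀ < 1 → 0 < q₀ → q₀ < 1 →
    Pool.Sel51.Slp rt w₀ v₀ v → Pool.Sel51.Slp act q₀ a₀ α →
  ∃ L₀ : ℝ, 0 < L₀ ∧ ∀ L B C : ℝ, 0 < L → L ≤ L₀ → Clp S (fun J F A =>
    ∀ (σ : Fin 3 → Fin 3) (wl wa wb : ℕ) (vp : ℕ → ℕ) (kap Hu HN : ℕ)
      (al nu k b : (Fin 3 → ℤ) × (ℕ × F.ζ) → ℝ) (a : ℕ → F.Ω → ℝ) (s t : F.Ω → ℝ),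
      UFr F A σ wl wa wb vp kap Hu HN al nu k b a s t B C → σ 0 = i₀ →
    ∀ qa qb d D : ℕ, UeN J w₀ v₀ v q₀ L M cw κ e₂ γ x₁ n wa wb vp kap Hu HN qa qb d D →
    ∀ N : ℕ → ℕ → ℕ, (∀ w q, wa ≤ w → w ≤ wb → qa ≤ q → q < qb → N w q ≤ w + q + kap) →
    Usm F (Pool.Agent.H49.Ent.cond F.p A True) σ wa wb vp D a s t (fun ω => al (Fam.pt F ω)) kap
      (n * d) qa qb N ≤ ε * (n * d : ℕ) * ((wb + 1 - wa : ℕ) * (qb - qa : ℕ)) ∧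
    ∀ (K : Type) (Th : F.Ω → K), SLb F A wl Th →
      Usm (F.cnd Th) (Pool.Agent.H49.Ent.cond F.p A True) σ wa wb vp D a s t
        (fun ω => al (Fam.pt F ω)) kap (n * d) qa qb N ≤
        ε * (n * d : ℕ) * ((wb + 1 - wa : ℕ) * (qb - qa : ℕ)))

/-- Change of the constants. -/
theorem UeC.chg {V : Set ℝ} {ε ρ α γ γ' x₁ x₁' : ℝ} {n m n' : ℕ} (h : UeC V ε ρ α n γ x₁)
    (hm : 1 ≤ m) (hn : n' = n * m) (hγ : γ' ≤ γ) (hx : x₁ ≤ x₁') : UeC V ε ρ α n' γ' x₁' := by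
  intro v hv M cw hM hcw
  obtain ⟨κ₀, hκ₀, h1⟩ := h v hv M cw hM hcw
  have hm0 : (0 : ℝ) < m := by exact_mod_cast hm
  refine ⟨κ₀ / m, by positivity, fun κ hκ hκκ => ?_⟩
  rw [le_div_iff₀ hm0] at hκκ
  obtain ⟨e₂, he₂, h2⟩ := h1 (m * κ) (by positivity) (by linarith)
  refine ⟨e₂, he₂, fun S a₁ R i₀ rt act w₀ v₀ q₀ a₀ b1 b2 b3 b4 b5 b6 b7 b8 b9 b10 b11 b12 => ?_⟩
  obtain ⟨L₀, hL₀, h3⟩ := h2 S a₁ R i₀ rt act w₀ v₀ q₀ a₀ b1 b2 b3 b4 b5 b6 b7 b8 b9 b10 b11 b12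
  refine ⟨L₀, hL₀, fun L B C hL hLL => Clp.mono (J₂ := 0) (h3 L B C hL hLL) ?_⟩
  intro J _ F A hc σ wl wa wb vp kap Hu HN al nu k b a s t hU hσ qa qb d D hN
  have := hc σ wl wa wb vp kap Hu HN al nu k b a s t hU hσ qa qb (m * d) D
    (hN.chg hL.le hn le_rfl hγ hx)
  have e : n * (m * d) = n' * d := by rw [hn, mul_assoc]
  rw [e] at this
  exact this

/-- Change of the constants. -/
theorem UsC.chg {V : Set ℝ} {ε α γ γ' x₁ x₁' : ℝ} {n m n' : ℕ} (h : UsC V ε α n γ x₁)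
    (hm : 1 ≤ m) (hn : n' = n * m) (hγ : γ' ≤ γ) (hx : x₁ ≤ x₁') : UsC V ε α n' γ' x₁' := by
  intro v hv M cw hM hcw
  obtain ⟨κ₀, hκ₀, h1⟩ := h v hv M cw hM hcw
  have hm0 : (0 : ℝ) < m := by exact_mod_cast hm
  refine ⟨κ₀ / m, by positivity, fun κ hκ hκκ => ?_⟩
  rw [le_div_iff₀ hm0] at hκκ
  obtain ⟨e₂, he₂, h2⟩ := h1 (m * κ) (by positivity) (by linarith)
  refine ⟨e₂, he₂, fun S a₁ R i₀ rt act w₀ v₀ q₀ a₀ b1 b2 b3 b4 b5 b6 b7 b8 b9 b10 b11 b12 => ?_⟩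
  obtain ⟨L₀, hL₀, h3⟩ := h2 S a₁ R i₀ rt act w₀ v₀ q₀ a₀ b1 b2 b3 b4 b5 b6 b7 b8 b9 b10 b11 b12
  refine ⟨L₀, hL₀, fun L B C hL hLL => Clp.mono (J₂ := 0) (h3 L B C hL hLL) ?_⟩
  intro J _ F A hc σ wl wa wb vp kap Hu HN al nu k b a s t hU hσ qa qb d D hN N hNN
  have := hc σ wl wa wb vp kap Hu HN al nu k b a s t hU hσ qa qb (m * d) D
    (hN.chg hL.le hn le_rfl hγ hx) N hNN
  have e : n * (m * d) = n' * d := by rw [hn, mul_assoc]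
  rw [e] at this
  exact this

/-- **Union of the sets of slopes.** -/
theorem UeStmt.union {V₁ V₂ : Set ℝ} (h₁ : UeStmt V₁) (h₂ : UeStmt V₂) : UeStmt (V₁ ∪ V₂) := by
  intro ε ρ α hε hρ hα
  obtain ⟨n, γ, x₁, hn, hγ, hγ1, hx₁, c1⟩ := h₁ ε ρ α hε hρ hα
  obtain ⟨m, γ', x₁', hm, hγ', hγ1', hx₁', c2⟩ := h₂ ε ρ α hε hρ hα
  have d1 : UeC V₁ ε ρ α n γ x₁ := c1
  have d2 : UeC V₂ ε ρ α m γ' x₁' := c2
  have e1 := d1.chg (n' := n * m) hm rfl (min_le_left γ γ') (le_max_left x₁ x₁')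
  have e2 := d2.chg (n' := n * m) hn (mul_comm n m) (min_le_right γ γ') (le_max_right x₁ x₁')
  have e3 : UeC (V₁ ∪ V₂) ε ρ α (n * m) (min γ γ') (max x₁ x₁') := fun v hv =>
    hv.elim (fun hv => e1 v hv) (fun hv => e2 v hv)
  exact ⟨n * m, min γ γ', max x₁ x₁', Nat.mul_pos hn hm, lt_min hγ hγ',
    (min_le_left _ _).trans hγ1, lt_max_of_lt_left hx₁, e3⟩

/-- **Union of the sets of slopes.** -/
theorem UsStmt.union {V₁ V₂ : Set ℝ} (h₁ : UsStmt V₁) (h₂ : UsStmt V₂) : UsStmt (V₁ ∪ V₂) := by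
  intro ε α hε hα
  obtain ⟨n, γ, x₁, hn, hγ, hγ1, hx₁, c1⟩ := h₁ ε α hε hα
  obtain ⟨m, γ', x₁', hm, hγ', hγ1', hx₁', c2⟩ := h₂ ε α hε hα
  have d1 : UsC V₁ ε α n γ x₁ := c1
  have d2 : UsC V₂ ε α m γ' x₁' := c2
  have e1 := d1.chg (n' := n * m) hm rfl (min_le_left γ γ') (le_max_left x₁ x₁')
  have e2 := d2.chg (n' := n * m) hn (mul_comm n m) (min_le_right γ γ') (le_max_right x₁ x₁')
  have e3 : UsC (V₁ ∪ V₂) ε α (n * m) (min γ γ') (max x₁ x₁') := fun v hv =>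
    hv.elim (fun hv => e1 v hv) (fun hv => e2 v hv)
  exact ⟨n * m, min γ γ', max x₁ x₁', Nat.mul_pos hn hm, lt_min hγ hγ',
    (min_le_left _ _).trans hγ1, lt_max_of_lt_left hx₁, e3⟩

/-- `{v | 0 ≤ v}` from `{v | 0 < v}` and `{0}`. -/
theorem UeStmt.zero (h₁ : UeStmt {v | 0 < v}) (h₂ : UeStmt {0}) : UeStmt {v | 0 ≤ v} := by
  have e : ({v | 0 < v} ∪ {0} : Set ℝ) = {v | 0 ≤ v} := by
    ext v
    simp only [Set.mem_union, Set.mem_setOf_eq, Set.mem_singleton_iff]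
    rw [le_iff_lt_or_eq]
    exact or_congr Iff.rfl eq_comm
  rw [← e]
  exact h₁.union h₂

/-- `{v | 0 ≤ v}` from `{v | 0 < v}` and `{0}`. -/
theorem UsStmt.zero (h₁ : UsStmt {v | 0 < v}) (h₂ : UsStmt {0}) : UsStmt {v | 0 ≤ v} := by
  have e : ({v | 0 < v} ∪ {0} : Set ℝ) = {v | 0 ≤ v} := by
    ext v
    simp only [Set.mem_union, Set.mem_setOf_eq, Set.mem_singleton_iff]
    rw [le_iff_lt_or_eq]
    exact or_congr Iff.rfl eq_comm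
  rw [← e]
  exact h₁.union h₂

end Pool.UST
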